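import Mathlib

/-!
The notions of the problem, for a closed complex submanifold `X` of a complex Euclidean space
(by the embedding theorem of Remmert every Stein manifold is of this kind): tangent spaces,
holomorphic maps, holomorphic vector fields, complete fields, Lie brackets, the density property,
automorphisms, tame and weakly tame sets.
-/

namespace H67.Tame

open Set Filter Topology

section Submanifold

variable {E : Type*} [NormedAddCommGroup E] [InnerProductSpace ℂ E]

/-- The tangent space of `X` at `x`: the vectors annihilated by the differentials of all entire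
functions which vanish on `X`. -/
def tang (X : Set E) (x : E) : Submodule ℂ E where
  carrier := {v | ∀ f : E → ℂ, Differentiable ℂ f → (∀ y ∈ X, f y = 0) → fderiv ℂ f x v = 0}
  add_mem' := by
    intro a b ha hb f hf h0
    rw [map_add, ha f hf h0, hb f hf h0, add_zero]
  zero_mem' := by
    intro f _ _
    exact map_zero _
  smul_mem' := by
    intro c a ha f hf h0
    rw [map_smul, ha f hf h0, smul_zero]

/-- `X` is a closed complex submanifold of `E`, of dimension `n` at every point: near each of its
points it is the regular zero set of `dim E - n` entire functions which vanish on all of `X`. -/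
structure Submanifold (X : Set E) (n : ℕ) : Prop where
  closed : IsClosed X
  regular : ∀ x ∈ X, ∃ (m : ℕ) (f : Fin m → E → ℂ), n + m = Module.finrank ℂ E ∧
    (∀ j, Differentiable ℂ (f j)) ∧ (∀ j, ∀ y ∈ X, f j y = 0) ∧
    LinearIndependent ℂ (fun j => fderiv ℂ (f j) x) ∧
    ∀ᶠ y in 𝓝 x, (∀ j, f j y = 0) → y ∈ X

end Submanifold

end H67.Tame

namespace H67.Tame.Stmt

open Set Filter Topology Metric

section Defs

variable {E : Type*} [NormedAddCommGroup E] [InnerProductSpace ℂ E] {X : Set E}

/-- Holomorphic maps on `X`: near each point of `X` they are restrictions of maps which are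
complex differentiable on an open subset of the ambient space. -/
def Holo {F : Type*} [NormedAddCommGroup F] [NormedSpace ℂ F] (f : X → F) : Prop :=
  ∀ x : X, ∃ (U : Set E) (g : E → F), IsOpen U ∧ (x : E) ∈ U ∧ DifferentiableOn ℂ g U ∧
    ∀ y : X, (y : E) ∈ U → f y = g y

/-- Holomorphic vector fields on `X`. -/
def IsField (V : X → E) : Prop :=
  Holo V ∧ ∀ x : X, V x ∈ tang X x

/-- `Z` is the Lie bracket of `V` and `W`: near each point it is computed by means of holomorphic
extensions of `V` and `W` to an open subset of the ambient space. -/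
def IsBracket (V W Z : X → E) : Prop :=
  ∀ x : X, ∃ (U : Set E) (V' W' : E → E), IsOpen U ∧ (x : E) ∈ U ∧ DifferentiableOn ℂ V' U ∧
    DifferentiableOn ℂ W' U ∧ (∀ y : X, (y : E) ∈ U → V y = V' y ∧ W y = W' y) ∧
    Z x = fderiv ℂ W' x (V x) - fderiv ℂ V' x (W x)

/-- Vector fields on `X` which are complete in real time. -/
def RealComplete (V : X → E) : Prop :=
  ∀ x : X, ∃ γ : ℝ → X, γ 0 = x ∧ ∀ t, HasDerivAt (fun s => (γ s : E)) (V (γ t)) t

/-- Vector fields on `X` which are complete in complex time. -/
def ComplexComplete (V : X → E) : Prop :=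
  ∀ x : X, ∃ γ : ℂ → X, γ 0 = x ∧ ∀ t, HasDerivAt (fun s => (γ s : E)) (V (γ t)) t

/-- The Lie algebra over `𝕜` generated by the holomorphic vector fields with the property `C`. -/
inductive LieAlg (𝕜 : Type) [NormedField 𝕜] [NormedSpace 𝕜 E] (C : (X → E) → Prop) :
    (X → E) → Prop
  | gen (V : X → E) : IsField V → C V → LieAlg 𝕜 C V
  | add (V W : X → E) : LieAlg 𝕜 C V → LieAlg 𝕜 C W → LieAlg 𝕜 C (V + W)
  | smul (c : 𝕜) (V : X → E) : LieAlg 𝕜 C V → LieAlg 𝕜 C (c • V)
  | bracket (V W Z : X → E) : LieAlg 𝕜 C V → LieAlg 𝕜 C W → IsBracket V W Z → LieAlg 𝕜 C Z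

/-- A set of vector fields is dense in the space of all holomorphic vector fields on `X`, in the
topology of locally uniform convergence. -/
def IsDense (L : (X → E) → Prop) : Prop :=
  ∀ V : X → E, IsField V → ∀ K : Set X, IsCompact K → ∀ ε > 0, ∃ W, L W ∧ ∀ x ∈ K, ‖W x - V x‖ < ε

/-- The density property; complete means complete in complex time, and the Lie algebra is the
complex one. -/
def DensityC (X : Set E) : Prop := IsDense (X := X) (LieAlg ℂ ComplexComplete)

/-- The density property; complete means complete in real time, and the Lie algebra is the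
real one. -/
def DensityR (X : Set E) : Prop := IsDense (X := X) (LieAlg ℝ RealComplete)

/-- Holomorphic automorphisms of `X`. -/
def IsAut (Φ : X ≃ X) : Prop :=
  Holo (fun x => (Φ x : E)) ∧ Holo (fun x => (Φ.symm x : E))

/-- Exhaustion functions: continuous, with relatively compact sublevel sets. -/
def IsExhaustion (ρ : X → ℝ) : Prop :=
  Continuous ρ ∧ ∀ c : ℝ, IsCompact (closure {x | ρ x < c})

/-- Weakly tame subsets of `X`. -/
def WeaklyTame (D : Set X) : Prop :=
  D.Infinite ∧ IsDiscrete D ∧ ∀ ρ : X → ℝ, IsExhaustion ρ → ∀ ζ : D → ℝ,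
    ∃ Φ : X ≃ X, IsAut Φ ∧ ∀ x : D, ζ x ≤ ρ (Φ x)

/-- Tame subsets of `X`: closed, discrete, infinite, and every injective self-map is the
restriction of an automorphism of `X`. -/
def Tame (A : Set X) : Prop :=
  A.Infinite ∧ IsDiscrete A ∧ IsClosed A ∧ ∀ f : A → A, Function.Injective f →
    ∃ F : X ≃ X, IsAut F ∧ ∀ x : A, F x = f x

end Defs

end H67.Tame.Stmt
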