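import Mathlib
import Pool.Agent.H67.Tame.Notions

/-!
Definitions: closed complex submanifolds of a complex Euclidean space, holomorphic maps,
holomorphic vector fields, the density property, holomorphic automorphisms, tame sets.
-/

namespace H67.Tame

open Set Filter Topology

section Submanifold

variable {E : Type*} [NormedAddCommGroup E] [InnerProductSpace ℂ E]

/-- Holomorphic vector fields on `X`. -/
def IsVF (X : Set E) (V : E → E) : Prop :=
  DifferentiableOn ℂ V X ∧ ∀ x ∈ X, V x ∈ tang X x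

/-- Complete vector fields: every point of `X` lies on an integral curve contained in `X` and
defined for all real times. -/
def IsComplete (X : Set E) (V : E → E) : Prop :=
  ∀ x ∈ X, ∃ γ : ℝ → E, γ 0 = x ∧ (∀ t, γ t ∈ X) ∧ ∀ t, HasDerivAt γ (V (γ t)) t

/-- The real Lie algebra generated by the complete holomorphic vector fields on `X`. -/
inductive LieGen (X : Set E) : (E → E) → Prop
  | complete (V : E → E) : IsVF X V → IsComplete X V → LieGen X V
  | add (V W : E → E) : LieGen X V → LieGen X W → LieGen X (V + W)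
  | smul (c : ℝ) (V : E → E) : LieGen X V → LieGen X (c • V)
  | bracket (V W : E → E) : LieGen X V → LieGen X W →
      LieGen X (VectorField.lieBracketWithin ℂ V W X)

/-- The density property. -/
def DensityProperty (X : Set E) : Prop :=
  ∀ V : E → E, IsVF X V → ∀ K ⊆ X, IsCompact K → ∀ ε > 0,
    ∃ W, LieGen X W ∧ ∀ x ∈ K, ‖W x - V x‖ < ε

/-- Holomorphic maps from `X` to itself. -/
def Hol (X : Set E) (g : X → X) : Prop :=
  ∃ F : E → E, DifferentiableOn ℂ F X ∧ ∀ x : X, F x = g x

/-- The group of holomorphic automorphisms of `X`. -/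
def Aut (X : Set E) : Subgroup (X ≃ₜ X) where
  carrier := {g | Hol X g ∧ Hol X g.symm}
  mul_mem' := by
    rintro a b ⟨⟨A, hA, hA1⟩, ⟨A', hA', hA1'⟩⟩ ⟨⟨B, hB, hB1⟩, ⟨B', hB', hB1'⟩⟩
    refine ⟨⟨A ∘ B, hA.comp hB ?_, fun x => ?_⟩, ⟨B' ∘ A', hB'.comp hA' ?_, fun x => ?_⟩⟩
    · intro x hx
      have := hB1 ⟨x, hx⟩
      rw [this]
      exact (b ⟨x, hx⟩).2
    · rw [Function.comp_apply, hB1, hA1]
      rfl
    · intro x hx
      have := hA1' ⟨x, hx⟩
      rw [this]
      exact (a.symm ⟨x, hx⟩).2
    · rw [Function.comp_apply, hA1', hB1']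
      rfl
  one_mem' := ⟨⟨id, differentiableOn_id, fun _ => rfl⟩, ⟨id, differentiableOn_id, fun _ => rfl⟩⟩
  inv_mem' := by
    rintro a ⟨h1, h2⟩
    exact ⟨h2, h1⟩

end Submanifold

end H67.Tame
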