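import Mathlib

/-! Basic facts on holomorphic functions of several variables: Cauchy estimate, limits,
differentiability of the derivative. -/

namespace H67.Tame

open Set Filter Topology Metric

variable {E : Type*} [NormedAddCommGroup E] [NormedSpace ℂ E]
variable {F : Type*} [NormedAddCommGroup F] [NormedSpace ℂ F]

theorem norm_fderiv_le {f : E → F} {x : E} {r C : ℝ} (hf : DifferentiableOn ℂ f (ball x r))
    (hr : 0 < r) (hC : ∀ y ∈ ball x r, ‖f y‖ ≤ C) : ‖fderiv ℂ f x‖ ≤ 2 * C / r := by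
  refine Complex.norm_fderiv_le_div_of_mapsTo_ball hf (fun y hy => ?_) hr
  rw [mem_closedBall, dist_eq_norm]
  calc ‖f y - f x‖ ≤ ‖f y‖ + ‖f x‖ := norm_sub_le _ _
    _ ≤ 2 * C := by linarith [hC y hy, hC x (mem_ball_self hr)]

theorem norm_fderiv_sub_le {f g : E → F} {x : E} {r C : ℝ} (hf : DifferentiableOn ℂ f (ball x r))
    (hg : DifferentiableOn ℂ g (ball x r)) (hr : 0 < r) (hC : ∀ y ∈ ball x r, ‖f y - g y‖ ≤ C) :
    ‖fderiv ℂ f x - fderiv ℂ g x‖ ≤ 2 * C / r := by
  have h := norm_fderiv_le (hf.sub hg) hr hC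
  have hx : ball x r ∈ 𝓝 x := ball_mem_nhds x hr
  rwa [fderiv_sub (hf.differentiableAt hx) (hg.differentiableAt hx)] at h

/-- A uniform limit of holomorphic maps is holomorphic, with convergence of derivatives. -/
theorem differentiableAt_of_tendstoUniformlyOn [CompleteSpace F] {f : ℕ → E → F} {g : E → F}
    {x : E} {r : ℝ} (hr : 0 < r) (hf : ∀ n, DifferentiableOn ℂ (f n) (ball x r))
    (h : TendstoUniformlyOn f g atTop (ball x r)) : DifferentiableAt ℂ g x := by
  have hr2 : 0 < r / 2 := half_pos hr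
  have hsub : ∀ y ∈ ball x (r / 2), ball y (r / 2) ⊆ ball x r := by
    intro y hy z hz
    rw [mem_ball] at *
    calc dist z x ≤ dist z y + dist y x := dist_triangle _ _ _
      _ < r := by linarith
  have hU : UniformCauchySeqOn (fun n => fderiv ℂ (f n)) atTop (ball x (r / 2)) := by
    rw [Metric.uniformCauchySeqOn_iff]
    intro ε hε
    have hη : 0 < ε * r / 8 := by positivity
    obtain ⟨N, hN⟩ := (Metric.uniformCauchySeqOn_iff.1 h.uniformCauchySeqOn) (ε * r / 8) hη
    refine ⟨N, fun m hm n hn y hy => ?_⟩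
    rw [dist_eq_norm]
    have h1 := norm_fderiv_sub_le ((hf m).mono (hsub y hy)) ((hf n).mono (hsub y hy)) hr2
      (C := ε * r / 8) (fun z hz => by
        rw [← dist_eq_norm]
        exact (hN m hm n hn z (hsub y hy hz)).le)
    calc _ ≤ 2 * (ε * r / 8) / (r / 2) := h1
      _ = ε / 2 := by field_simp; ring
      _ < ε := by linarith
  have hlim : ∀ y : E, ∃ L : E →L[ℂ] F, y ∈ ball x (r / 2) →
      Tendsto (fun n => fderiv ℂ (f n) y) atTop (𝓝 L) := by
    intro y
    by_cases hy : y ∈ ball x (r / 2)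
    · obtain ⟨L, hL⟩ := cauchySeq_tendsto_of_complete (hU.cauchySeq hy)
      exact ⟨L, fun _ => hL⟩
    · exact ⟨0, fun h => absurd h hy⟩
  choose g' hg' using hlim
  have hT := hU.tendstoUniformlyOn_of_tendsto (f := g') (fun y hy => hg' y hy)
  have h2 : HasFDerivAt g (g' x) x := by
    refine hasFDerivAt_of_tendstoUniformlyOn (f := f) isOpen_ball hT (fun n y hy => ?_) (fun y hy => ?_)
      (mem_ball_self hr2)
    · exact (((hf n).mono (hsub y hy)).differentiableAt (ball_mem_nhds y hr2)).hasFDerivAt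
    · exact h.tendsto_at (ball_subset_ball (by linarith) hy)
  exact h2.differentiableAt

/-- Second order Taylor estimate. -/
theorem taylor_two {f : E → F} {x : E} {r C : ℝ} (hf : DifferentiableOn ℂ f (ball x r))
    (hr : 0 < r) (hC : ∀ y ∈ ball x r, ‖f y‖ ≤ C) {z : E} (hz : z ∈ ball x r) :
    ‖f z - f x - fderiv ℂ f x (z - x)‖ ≤ 4 * C * (‖z - x‖ / r) ^ 2 := by
  have hx : ball x r ∈ 𝓝 x := ball_mem_nhds x hr
  have hC0 : 0 ≤ C := (norm_nonneg _).trans (hC x (mem_ball_self hr))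
  let k : E → F := fun y => f y - f x - fderiv ℂ f x (y - x)
  have hk : DifferentiableOn ℂ k (ball x r) :=
    (hf.sub_const _).sub (((fderiv ℂ f x).differentiable.comp
      (differentiable_id.sub_const x)).differentiableOn)
  have hkx : k x = 0 := by simp [k]
  have hmaps : MapsTo k (ball x r) (closedBall (k x) (4 * C)) := by
    intro y hy
    rw [hkx, mem_closedBall, dist_zero_right]
    have h1 : ‖fderiv ℂ f x (y - x)‖ ≤ 2 * C / r * r := by
      refine (ContinuousLinearMap.le_opNorm _ _).trans ?_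
      have h2 : ‖y - x‖ ≤ r := by rw [← dist_eq_norm]; exact (mem_ball.1 hy).le
      have h3 := norm_fderiv_le hf hr hC
      exact mul_le_mul h3 h2 (norm_nonneg _) (by positivity)
    rw [div_mul_cancel₀ _ hr.ne'] at h1
    calc ‖k y‖ ≤ ‖f y - f x‖ + ‖fderiv ℂ f x (y - x)‖ := norm_sub_le _ _
      _ ≤ (‖f y‖ + ‖f x‖) + 2 * C := add_le_add (norm_sub_le _ _) h1
      _ ≤ 4 * C := by linarith [hC y hy, hC x (mem_ball_self hr)]
  have hlit : (k · - k x) =o[𝓝 x] (fun w => ‖w - x‖ ^ 1) := by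
    have h1 := (hf.differentiableAt hx).hasFDerivAt.isLittleO
    simp only [pow_one, hkx, sub_zero]
    exact h1.norm_right
  have h2 := Complex.dist_le_mul_div_pow_of_mapsTo_ball_of_isLittleO hk hmaps hlit hz
  rw [hkx, dist_zero_right, dist_eq_norm] at h2
  exact h2

theorem differentiableAt_fderiv_apply [CompleteSpace F] {f : E → F} {U : Set E} (hU : IsOpen U)
    (hf : DifferentiableOn ℂ f U) {x : E} (hx : x ∈ U) (v : E) :
    DifferentiableAt ℂ (fun y => fderiv ℂ f y v) x := by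
  obtain ⟨r, hr, hrU⟩ : ∃ r > 0, ball x (2 * r) ⊆ U ∧ ∃ C, ∀ y ∈ ball x (2 * r), ‖f y‖ ≤ C := by
    obtain ⟨r1, hr1, h1⟩ := Metric.isOpen_iff.1 hU x hx
    have hc : ContinuousAt f x := (hf.differentiableAt (hU.mem_nhds hx)).continuousAt
    obtain ⟨r2, hr2, h2⟩ := Metric.continuousAt_iff.1 hc 1 one_pos
    refine ⟨min r1 r2 / 2, half_pos (lt_min hr1 hr2), ?_, ‖f x‖ + 1, fun y hy => ?_⟩
    · rw [mul_div_cancel₀ _ two_ne_zero]
      exact (ball_subset_ball (min_le_left _ _)).trans h1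
    · rw [mul_div_cancel₀ _ two_ne_zero] at hy
      have h3 := h2 ((mem_ball.1 hy).trans_le (min_le_right _ _))
      rw [dist_eq_norm] at h3
      calc ‖f y‖ = ‖f x + (f y - f x)‖ := by congr 1; abel
        _ ≤ ‖f x‖ + ‖f y - f x‖ := norm_add_le _ _
        _ ≤ ‖f x‖ + 1 := by linarith
  obtain ⟨hrU, C, hC⟩ := hrU
  have hfb : DifferentiableOn ℂ f (ball x (2 * r)) := hf.mono hrU
  -- difference quotients
  obtain ⟨N, hN⟩ := exists_nat_gt (‖v‖ / r)
  have hN0 : (0 : ℝ) < N := lt_of_le_of_lt (by positivity) hN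
  let g : ℕ → E → F := fun n y => ((n + N : ℕ) : ℂ) • (f (y + ((n + N : ℕ) : ℂ)⁻¹ • v) - f y)
  have hpos : ∀ n : ℕ, (0 : ℝ) < ((n + N : ℕ) : ℝ) := fun n => by
    push_cast; positivity
  have hsmall : ∀ n : ℕ, ‖((n + N : ℕ) : ℂ)⁻¹ • v‖ < r := by
    intro n
    rw [norm_smul, norm_inv, Complex.norm_natCast, inv_mul_lt_iff₀ (hpos n)]
    have h1 : ‖v‖ < N * r := by rwa [div_lt_iff₀ hr] at hN
    have h2 : (N : ℝ) ≤ ((n + N : ℕ) : ℝ) := by push_cast; linarith [Nat.cast_nonneg (α := ℝ) n]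
    exact h1.trans_le (mul_le_mul_of_nonneg_right h2 hr.le)
  have hin : ∀ y ∈ ball x r, ∀ n : ℕ, y + ((n + N : ℕ) : ℂ)⁻¹ • v ∈ ball x (2 * r) := by
    intro y hy n
    rw [mem_ball, dist_eq_norm] at hy ⊢
    calc ‖y + ((n + N : ℕ) : ℂ)⁻¹ • v - x‖ = ‖(y - x) + ((n + N : ℕ) : ℂ)⁻¹ • v‖ := by
          congr 1; abel
      _ ≤ ‖y - x‖ + ‖((n + N : ℕ) : ℂ)⁻¹ • v‖ := norm_add_le _ _
      _ < 2 * r := by linarith [hsmall n]
  refine differentiableAt_of_tendstoUniformlyOn (f := g) hr (fun n => ?_) ?_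
  · refine DifferentiableOn.const_smul (DifferentiableOn.sub ?_ (hfb.mono (ball_subset_ball
      (by linarith)))) _
    exact hfb.comp ((differentiable_id.add_const _).differentiableOn) (fun y hy => hin y hy n)
  · rw [Metric.tendstoUniformlyOn_iff]
    intro ε hε
    have hlim : Tendsto (fun n : ℕ => 4 * C * (‖v‖ / r) ^ 2 / ((n + N : ℕ) : ℝ)) atTop (𝓝 0) := by
      refine Tendsto.div_atTop tendsto_const_nhds ?_
      exact tendsto_natCast_atTop_atTop.comp (tendsto_add_atTop_nat N)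
    filter_upwards [hlim.eventually_lt_const hε] with n hn y hy
    have hyball : ball y r ⊆ ball x (2 * r) := by
      intro z hz
      rw [mem_ball] at *
      calc dist z x ≤ dist z y + dist y x := dist_triangle _ _ _
        _ < 2 * r := by linarith
    have h3 := taylor_two (hfb.mono hyball) hr (fun z hz => hC z (hyball hz))
      (z := y + ((n + N : ℕ) : ℂ)⁻¹ • v) (by
        rw [mem_ball, dist_eq_norm, add_sub_cancel_left]; exact hsmall n)
    rw [add_sub_cancel_left] at h3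
    have hne : ((n + N : ℕ) : ℂ) ≠ 0 := by
      have := (hpos n).ne'
      exact_mod_cast this
    have h4 : fderiv ℂ f y v - g n y = -(((n + N : ℕ) : ℂ) • (f (y + ((n + N : ℕ) : ℂ)⁻¹ • v) -
        f y - fderiv ℂ f y (((n + N : ℕ) : ℂ)⁻¹ • v))) := by
      simp only [g, map_smul, smul_sub, smul_smul, mul_inv_cancel₀ hne, one_smul]
      abel
    rw [dist_eq_norm, h4, norm_neg, norm_smul, Complex.norm_natCast]
    refine lt_of_le_of_lt (mul_le_mul_of_nonneg_left h3 (hpos n).le) ?_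
    rw [norm_smul, norm_inv, Complex.norm_natCast]
    have h5 : ((n + N : ℕ) : ℝ) * (4 * C * ((((n + N : ℕ) : ℝ))⁻¹ * ‖v‖ / r) ^ 2) =
        4 * C * (‖v‖ / r) ^ 2 / ((n + N : ℕ) : ℝ) := by
      have := (hpos n).ne'
      field_simp
    rw [h5]
    exact hn

variable [FiniteDimensional ℂ E]

theorem differentiableAt_fderiv [CompleteSpace F] {f : E → F} {U : Set E} (hU : IsOpen U)
    (hf : DifferentiableOn ℂ f U) {x : E} (hx : x ∈ U) :
    DifferentiableAt ℂ (fderiv ℂ f) x := by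
  let b := Module.finBasis ℂ E
  have h1 : fderiv ℂ f = fun y => ∑ i, (LinearMap.toContinuousLinearMap (b.coord i)).smulRight
      (fderiv ℂ f y (b i)) := by
    funext y
    ext v
    conv_lhs => rw [← b.sum_repr v]
    rw [map_sum, ContinuousLinearMap.sum_apply]
    refine Finset.sum_congr rfl fun i _ => ?_
    rw [map_smul, ContinuousLinearMap.smulRight_apply]
    rfl
  rw [h1]
  refine DifferentiableAt.fun_sum fun i _ => ?_
  have h2 := differentiableAt_fderiv_apply hU hf hx (b i)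
  have h3 : (fun y => (LinearMap.toContinuousLinearMap (b.coord i)).smulRight
      (fderiv ℂ f y (b i))) = fun y => (ContinuousLinearMap.smulRightL ℂ E F
        (LinearMap.toContinuousLinearMap (b.coord i))) (fderiv ℂ f y (b i)) := rfl
  rw [h3]
  exact (ContinuousLinearMap.differentiableAt _).comp x h2

theorem differentiableOn_fderiv [CompleteSpace F] {f : E → F} {U : Set E} (hU : IsOpen U)
    (hf : DifferentiableOn ℂ f U) : DifferentiableOn ℂ (fderiv ℂ f) U :=
  fun _ hx => (differentiableAt_fderiv hU hf hx).differentiableWithinAt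

theorem contDiffOn_of_differentiableOn [CompleteSpace F] {f : E → F} {U : Set E} (hU : IsOpen U)
    (hf : DifferentiableOn ℂ f U) : ContDiffOn ℂ 1 f U := by
  rw [show (1 : WithTop ℕ∞) = 0 + 1 from rfl, contDiffOn_succ_iff_fderiv_of_isOpen hU]
  refine ⟨hf, fun h => absurd h (by simp), ?_⟩
  rw [contDiffOn_zero]
  exact (differentiableOn_fderiv hU hf).continuousOn

end H67.Tame
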