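import Mathlib
import Pool.Agent.H67.Tame.Defs
import Pool.Agent.H67.Tame.SCV

/-! Local holomorphic retractions onto a closed complex submanifold. -/

namespace H67.Tame

open Set Filter Topology Metric

variable {E : Type*} [NormedAddCommGroup E] [InnerProductSpace ℂ E] [FiniteDimensional ℂ E]

/-- A local holomorphic retraction onto `X`, defined on the open set `U`. -/
structure Retr (X : Set E) (ρ : E → E) (U : Set E) : Prop where
  op : IsOpen U
  diff : DifferentiableOn ℂ ρ U
  maps : ∀ y ∈ U, ρ y ∈ X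
  fix : ∀ x ∈ X, x ∈ U → ρ x = x
  tan : ∀ x ∈ X, x ∈ U → ∀ v, v ∈ tang X x ↔ fderiv ℂ ρ x v = v

/-- Closed sets with local holomorphic retractions. -/
structure Mfd (X : Set E) : Prop where
  closed : IsClosed X
  retr : ∀ x ∈ X, ∃ ρ U, x ∈ U ∧ Retr X ρ U

theorem surj_of_linearIndependent {m : ℕ} {l : Fin m → E →L[ℂ] ℂ} (h : LinearIndependent ℂ l) :
    Function.Surjective (ContinuousLinearMap.pi l) := by
  by_contra hns
  have h1 : LinearMap.range (ContinuousLinearMap.pi l : E →ₗ[ℂ] (Fin m → ℂ)) < ⊤ := by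
    rw [lt_top_iff_ne_top]
    intro h2
    exact hns (LinearMap.range_eq_top.1 h2)
  obtain ⟨φ, hφ, hle⟩ := Submodule.exists_le_ker_of_lt_top _ h1
  apply hφ
  have h3 : ∑ j, φ (Pi.single j 1) • l j = 0 := by
    ext v
    have h4 : φ (fun j => l j v) = 0 := hle ⟨v, rfl⟩
    rw [LinearMap.pi_apply_eq_sum_univ φ] at h4
    simp only [ContinuousLinearMap.sum_apply, ContinuousLinearMap.smul_apply,
      ContinuousLinearMap.zero_apply, smul_eq_mul] at h4 ⊢
    rw [← h4]
    refine Finset.sum_congr rfl fun j _ => ?_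
    have : (fun k => if j = k then (1 : ℂ) else 0) = Pi.single j 1 := by
      funext k
      simp [Pi.single_apply, eq_comm]
    rw [this, mul_comm]
  have h5 := (Fintype.linearIndependent_iff.1 h) _ h3
  refine LinearMap.pi_ext' fun j => ?_
  ext
  simpa using h5 j

theorem Submanifold.retr {X : Set E} {n : ℕ} (h : Submanifold X n) {x0 : E} (hx0 : x0 ∈ X) :
    (∃ ρ U, x0 ∈ U ∧ Retr X ρ U) ∧ Module.finrank ℂ (tang X x0) = n := by
  obtain ⟨m, f, hm, hf, hf0, hli, hloc⟩ := h.regular x0 hx0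
  let F : E → (Fin m → ℂ) := fun y j => f j y
  have hF : Differentiable ℂ F := differentiable_pi.2 hf
  have hFX : ∀ y ∈ X, F y = 0 := fun y hy => funext fun j => hf0 j y hy
  let A : E →L[ℂ] (Fin m → ℂ) := ContinuousLinearMap.pi fun j => fderiv ℂ (f j) x0
  have hFd : ∀ x, HasFDerivAt F (ContinuousLinearMap.pi fun j => fderiv ℂ (f j) x) x := fun x =>
    hasFDerivAt_pi.2 fun j => (hf j x).hasFDerivAt
  have hAs : Function.Surjective A := surj_of_linearIndependent hli
  obtain ⟨S', hS'⟩ := (A : E →ₗ[ℂ] (Fin m → ℂ)).exists_rightInverse_of_surjective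
    (LinearMap.range_eq_top.2 hAs)
  let S : (Fin m → ℂ) →L[ℂ] E := LinearMap.toContinuousLinearMap S'
  have hAS : ∀ w, A (S w) = w := fun w => LinearMap.congr_fun hS' w
  let P : E →L[ℂ] E := ContinuousLinearMap.id ℂ E - S.comp A
  have hPv : ∀ v, P v = v - S (A v) := fun v => rfl
  let π : E → E := fun y => y - S (A (y - x0))
  let Θ : E → E := fun y => y + S (F y) - S (A (y - x0))
  have hΘπ : ∀ y, Θ y = π y + S (F y) := fun y => by simp only [Θ, π]; abel
  have hπd : ∀ y, HasFDerivAt π P y := by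
    intro y
    exact (hasFDerivAt_id y).sub ((S.comp A).hasFDerivAt.comp y ((hasFDerivAt_id y).sub_const x0))
  have hΘd : ∀ y, HasFDerivAt Θ (P + S.comp (ContinuousLinearMap.pi fun j => fderiv ℂ (f j) y)) y := by
    intro y
    have h1 : Θ = fun y => π y + S (F y) := funext hΘπ
    rw [h1]
    exact (hπd y).add (S.hasFDerivAt.comp y (hFd y))
  have hΘ : Differentiable ℂ Θ := fun y => (hΘd y).differentiableAt
  have hF0 : F x0 = 0 := hFX x0 hx0
  have hπ0 : π x0 = x0 := by simp [π]
  have hΘ0 : Θ x0 = x0 := by rw [hΘπ, hπ0, hF0, map_zero, add_zero]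
  have hΘd0 : HasFDerivAt Θ ((ContinuousLinearEquiv.refl ℂ E : E ≃L[ℂ] E) : E →L[ℂ] E) x0 := by
    have h1 := hΘd x0
    have h2 : P + S.comp (ContinuousLinearMap.pi fun j => fderiv ℂ (f j) x0) =
        ((ContinuousLinearEquiv.refl ℂ E : E ≃L[ℂ] E) : E →L[ℂ] E) := by
      ext v
      show P v + S (A v) = v
      rw [hPv]; abel
    rwa [h2] at h1
  have hΘc : ContDiffAt ℂ 1 Θ x0 :=
    (contDiffOn_of_differentiableOn isOpen_univ hΘ.differentiableOn).contDiffAt univ_mem
  let e := hΘc.toOpenPartialHomeomorph Θ hΘd0 one_ne_zero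
  have hes : x0 ∈ e.source := hΘc.mem_toOpenPartialHomeomorph_source hΘd0 one_ne_zero
  have hecoe : ∀ y, e y = Θ y := fun y => rfl
  have hψc : ContDiffAt ℂ 1 e.symm x0 := by
    have := hΘc.to_localInverse hΘd0 one_ne_zero
    rwa [hΘ0] at this
  have hψd : ∀ᶠ z in 𝓝 x0, DifferentiableAt ℂ e.symm z := by
    have := hψc.eventually (by simp)
    filter_upwards [this] with z hz
    exact hz.differentiableAt one_ne_zero
  have hψ0 : e.symm x0 = x0 := by
    have := e.left_inv hes
    rwa [hecoe, hΘ0] at this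
  have hπc : Tendsto π (𝓝 x0) (𝓝 x0) := by
    have := (hπd x0).continuousAt.tendsto
    rwa [hπ0] at this
  have hΘcont : Tendsto Θ (𝓝 x0) (𝓝 x0) := by
    have := (hΘ x0).continuousAt.tendsto
    rwa [hΘ0] at this
  have het : x0 ∈ e.target := by
    have := e.map_source hes
    rwa [hecoe, hΘ0] at this
  have hψcont : Tendsto e.symm (𝓝 x0) (𝓝 x0) := by
    have := hψc.continuousAt.tendsto
    rwa [hψ0] at this
  have hev : ∀ᶠ y in 𝓝 x0, y ∈ e.source ∧ π y ∈ e.target ∧ DifferentiableAt ℂ e.symm (π y) ∧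
      DifferentiableAt ℂ e.symm (Θ y) ∧ ((∀ j, f j (e.symm (π y)) = 0) → e.symm (π y) ∈ X) := by
    have h1 := e.open_source.mem_nhds hes
    have h2 := hπc.eventually (e.open_target.mem_nhds het)
    have h3 := hπc.eventually hψd
    have h4 := hΘcont.eventually hψd
    have h5 := (hψcont.comp hπc).eventually hloc
    filter_upwards [h1, h2, h3, h4, h5] with y a1 a2 a3 a4 a5
    exact ⟨a1, a2, a3, a4, a5⟩
  obtain ⟨U, hUsub, hUo, hx0U⟩ := _root_.mem_nhds_iff.1 hev
  let ρ : E → E := fun y => e.symm (π y)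
  have hΘρ : ∀ y ∈ U, Θ (ρ y) = π y := by
    intro y hy
    have := e.right_inv (hUsub hy).2.1
    rwa [hecoe] at this
  have hFρ : ∀ y ∈ U, F (ρ y) = 0 := by
    intro y hy
    have h1 := congrArg A (hΘρ y hy)
    rw [hΘπ] at h1
    simp only [π, map_add, map_sub, hAS] at h1
    -- A (ρ y) - A (ρ y - x0) + F = A y - A (y - x0)
    have h2 : F (ρ y) = 0 := by
      have h3 : A (ρ y) - (A (ρ y) - A x0) + F (ρ y) = A y - (A y - A x0) := h1
      have h4 : A x0 + F (ρ y) = A x0 := by
        calc A x0 + F (ρ y) = A (ρ y) - (A (ρ y) - A x0) + F (ρ y) := by abel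
          _ = A y - (A y - A x0) := h3
          _ = A x0 := by abel
      exact left_eq_add.1 h4.symm
    exact h2
  have hρX : ∀ y ∈ U, ρ y ∈ X := by
    intro y hy
    exact (hUsub hy).2.2.2.2 fun j => congrFun (hFρ y hy) j
  have hρfix : ∀ x ∈ X, x ∈ U → ρ x = x := by
    intro x hx hxU
    have h1 : π x = Θ x := by rw [hΘπ, hFX x hx, map_zero, add_zero]
    show e.symm (π x) = x
    rw [h1, ← hecoe]
    exact e.left_inv (hUsub hxU).1
  have hρd : ∀ y ∈ U, DifferentiableAt ℂ ρ y := fun y hy =>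
    (hUsub hy).2.2.1.comp y (hπd y).differentiableAt
  have hker : ∀ x ∈ X, x ∈ U → ∀ v, (∀ j, fderiv ℂ (f j) x v = 0) → fderiv ℂ ρ x v = v := by
    intro x hx hxU v hv
    -- injectivity of the derivative of Θ at x
    have hinv : (fun y => e.symm (Θ y)) =ᶠ[𝓝 x] id := by
      filter_upwards [e.open_source.mem_nhds (hUsub hxU).1] with y hy
      exact e.left_inv hy
    have h1 : HasFDerivAt (fun y => e.symm (Θ y)) ((fderiv ℂ e.symm (Θ x)).comp
        (P + S.comp (ContinuousLinearMap.pi fun j => fderiv ℂ (f j) x))) x :=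
      (hUsub hxU).2.2.2.1.hasFDerivAt.comp x (hΘd x)
    have h2 := (h1.congr_of_eventuallyEq hinv.symm).unique (hasFDerivAt_id x)
    have hinj : ∀ a b : E, (P + S.comp (ContinuousLinearMap.pi fun j => fderiv ℂ (f j) x)) a =
        (P + S.comp (ContinuousLinearMap.pi fun j => fderiv ℂ (f j) x)) b → a = b := by
      intro a b hab
      have ha := DFunLike.congr_fun h2 a
      have hb := DFunLike.congr_fun h2 b
      simp only [ContinuousLinearMap.comp_apply, ContinuousLinearMap.id_apply] at ha hb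
      rw [← ha, ← hb, hab]
    apply hinj
    have h3 : HasFDerivAt (fun y => Θ (ρ y))
        ((P + S.comp (ContinuousLinearMap.pi fun j => fderiv ℂ (f j) x)).comp (fderiv ℂ ρ x)) x := by
      have h4 := hΘd (ρ x)
      rw [hρfix x hx hxU] at h4
      have h5 := (hρd x hxU).hasFDerivAt
      have h6 : HasFDerivAt Θ (P + S.comp (ContinuousLinearMap.pi fun j => fderiv ℂ (f j) x)) (ρ x) := by
        rw [hρfix x hx hxU]; exact h4
      exact h6.comp x h5
    have h7 : (fun y => Θ (ρ y)) =ᶠ[𝓝 x] π := by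
      filter_upwards [hUo.mem_nhds hxU] with y hy
      exact hΘρ y hy
    have h8 := (h3.congr_of_eventuallyEq h7.symm).unique (hπd x)
    have h9 := DFunLike.congr_fun h8 v
    rw [ContinuousLinearMap.comp_apply] at h9
    rw [h9]
    show P v = P v + S (fun j => fderiv ℂ (f j) x v)
    have h10 : (fun j => fderiv ℂ (f j) x v) = 0 := funext hv
    rw [h10, map_zero, add_zero]
  have hrange : ∀ x ∈ X, x ∈ U → ∀ v, fderiv ℂ ρ x v ∈ tang X x := by
    intro x hx hxU v g hg hg0
    have h1 : HasFDerivAt (fun y => g (ρ y)) ((fderiv ℂ g x).comp (fderiv ℂ ρ x)) x := by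
      have h2 : HasFDerivAt g (fderiv ℂ g x) (ρ x) := by
        rw [hρfix x hx hxU]; exact (hg x).hasFDerivAt
      exact h2.comp x (hρd x hxU).hasFDerivAt
    have h3 : (fun y => g (ρ y)) =ᶠ[𝓝 x] fun _ => 0 := by
      filter_upwards [hUo.mem_nhds hxU] with y hy
      exact hg0 _ (hρX y hy)
    have h4 := (h1.congr_of_eventuallyEq h3.symm).unique (hasFDerivAt_const (0 : ℂ) x)
    have h5 := DFunLike.congr_fun h4 v
    simpa using h5
  have htan : ∀ x ∈ X, x ∈ U → ∀ v, v ∈ tang X x ↔ fderiv ℂ ρ x v = v := by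
    intro x hx hxU v
    constructor
    · intro hv
      exact hker x hx hxU v fun j => hv (f j) (hf j) (hf0 j)
    · intro hv
      rw [← hv]
      exact hrange x hx hxU v
  refine ⟨⟨ρ, U, hx0U, hUo, fun y hy => (hρd y hy).differentiableWithinAt, hρX, hρfix, htan⟩, ?_⟩
  -- dimension
  have h1 : tang X x0 = LinearMap.ker (A : E →ₗ[ℂ] (Fin m → ℂ)) := by
    ext v
    rw [LinearMap.mem_ker]
    constructor
    · intro hv
      exact funext fun j => hv (f j) (hf j) (hf0 j)
    · intro hv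
      rw [htan x0 hx0 hx0U]
      exact hker x0 hx0 hx0U v fun j => congrFun hv j
  rw [h1]
  have h2 := LinearMap.finrank_range_add_finrank_ker (A : E →ₗ[ℂ] (Fin m → ℂ))
  rw [LinearMap.range_eq_top.2 hAs, finrank_top, Module.finrank_fin_fun] at h2
  omega

theorem Submanifold.mfd {X : Set E} {n : ℕ} (h : Submanifold X n) : Mfd X :=
  ⟨h.closed, fun _ hx => (h.retr hx).1⟩

end H67.Tame
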