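import Mathlib
import Pool.Agent.H67.Tame.Chart

/-! Calculus on a closed submanifold through local retractions. -/

namespace H67.Tame

open Set Filter Topology Metric

variable {E : Type*} [NormedAddCommGroup E] [InnerProductSpace ℂ E] [FiniteDimensional ℂ E]
variable {F : Type*} [NormedAddCommGroup F] [NormedSpace ℂ F]
variable {X : Set E}

theorem Retr.differentiableAt {ρ : E → E} {U : Set E} (h : Retr X ρ U) {x : E} (hx : x ∈ U) :
    DifferentiableAt ℂ ρ x := h.diff.differentiableAt (h.op.mem_nhds hx)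

theorem Retr.hasFDerivAt {ρ : E → E} {U : Set E} (h : Retr X ρ U) {x : E} (hx : x ∈ U)
    (hxX : x ∈ X) {f : E → F} {f' : E →L[ℂ] F} (hf : HasFDerivWithinAt f f' X x) :
    HasFDerivAt (fun y => f (ρ y)) (f'.comp (fderiv ℂ ρ x)) x := by
  have h1 := (h.differentiableAt hx).hasFDerivAt
  have h2 : HasFDerivWithinAt f f' X (ρ x) := by rwa [h.fix x hxX hx]
  have h3 := h2.comp (s := U) x h1.hasFDerivWithinAt (fun y hy => h.maps y hy)
  exact h3.hasFDerivAt (h.op.mem_nhds hx)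

theorem Retr.apply_mem {ρ : E → E} {U : Set E} (h : Retr X ρ U) {x : E} (hx : x ∈ U)
    (hxX : x ∈ X) (v : E) : fderiv ℂ ρ x v ∈ tang X x := by
  rw [h.tan x hxX hx]
  have h1 : HasFDerivAt (fun y => ρ (ρ y)) ((fderiv ℂ ρ x).comp (fderiv ℂ ρ x)) x := by
    have h2 : HasFDerivAt ρ (fderiv ℂ ρ x) (ρ x) := by
      rw [h.fix x hxX hx]; exact (h.differentiableAt hx).hasFDerivAt
    exact h2.comp x (h.differentiableAt hx).hasFDerivAt
  have h3 : (fun y => ρ (ρ y)) =ᶠ[𝓝 x] ρ := by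
    have h4 : ∀ᶠ y in 𝓝 x, ρ y ∈ U := by
      have h5 := (h.differentiableAt hx).continuousAt.tendsto
      rw [h.fix x hxX hx] at h5
      exact h5.eventually (h.op.mem_nhds hx)
    filter_upwards [h4, h.op.mem_nhds hx] with y hy hyU
    exact h.fix _ (h.maps y hyU) hy
  have h6 := (h1.congr_of_eventuallyEq h3.symm).unique (h.differentiableAt hx).hasFDerivAt
  exact DFunLike.congr_fun h6 v

/-- The derivative within `X` is unique on tangent vectors. -/
theorem Mfd.unique (hX : Mfd X) {x : E} (hx : x ∈ X) {f : E → F} {f' f'' : E →L[ℂ] F}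
    (h1 : HasFDerivWithinAt f f' X x) (h2 : HasFDerivWithinAt f f'' X x) {v : E}
    (hv : v ∈ tang X x) : f' v = f'' v := by
  obtain ⟨ρ, U, hxU, hρ⟩ := hX.retr x hx
  have h3 := (hρ.hasFDerivAt hxU hx h1).unique (hρ.hasFDerivAt hxU hx h2)
  have h4 := DFunLike.congr_fun h3 v
  rwa [ContinuousLinearMap.comp_apply, ContinuousLinearMap.comp_apply,
    (hρ.tan x hx hxU v).1 hv] at h4

theorem Mfd.fderivWithin_eq (hX : Mfd X) {x : E} (hx : x ∈ X) {f : E → F} {f' : E →L[ℂ] F}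
    (h1 : HasFDerivWithinAt f f' X x) {v : E} (hv : v ∈ tang X x) :
    fderivWithin ℂ f X x v = f' v :=
  hX.unique hx h1.differentiableWithinAt.hasFDerivWithinAt h1 hv

theorem Retr.fderiv_comp {ρ : E → E} {U : Set E} (h : Retr X ρ U) {x : E} (hx : x ∈ U)
    (hxX : x ∈ X) {f : E → F} (hf : DifferentiableWithinAt ℂ f X x) {v : E} (hv : v ∈ tang X x) :
    fderiv ℂ (fun y => f (ρ y)) x v = fderivWithin ℂ f X x v := by
  rw [(h.hasFDerivAt hx hxX hf.hasFDerivWithinAt).fderiv, ContinuousLinearMap.comp_apply,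
    (h.tan x hxX hx v).1 hv]

theorem Retr.comp_diff {ρ : E → E} {U : Set E} (h : Retr X ρ U) {f : E → F}
    (hf : DifferentiableOn ℂ f X) : DifferentiableOn ℂ (fun y => f (ρ y)) U :=
  hf.comp h.diff h.maps

/-- A function which agrees on `X` near `x` with `g ∘ ρ`-type holomorphic function. -/
theorem differentiableWithinAt_of_eqOn {x : E} {U : Set E} (hU : IsOpen U) (hx : x ∈ U)
    (hxX : x ∈ X) {f g : E → F} (hg : DifferentiableAt ℂ g x) (h : ∀ y ∈ X, y ∈ U → f y = g y) :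
    DifferentiableWithinAt ℂ f X x := by
  refine hg.differentiableWithinAt.congr_of_eventuallyEq ?_ (h x hxX hx)
  filter_upwards [self_mem_nhdsWithin, mem_nhdsWithin_of_mem_nhds (hU.mem_nhds hx)] with y h1 h2
  exact h y h1 h2

/-- Tangent estimate: `X` is close to its tangent space at `x`. -/
theorem Mfd.tangent_estimate (hX : Mfd X) {x : E} (hx : x ∈ X) :
    ∃ P : E →L[ℂ] E, (∀ w, P w ∈ tang X x) ∧ (∀ v ∈ tang X x, P v = v) ∧
      ∀ κ > 0, ∃ δ > 0, ∀ y ∈ X, ∀ z ∈ X, dist y x < δ → dist z x < δ →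
        ‖(y - z) - P (y - z)‖ ≤ κ * ‖y - z‖ := by
  obtain ⟨ρ, U, hxU, hρ⟩ := hX.retr x hx
  refine ⟨fderiv ℂ ρ x, hρ.apply_mem hxU hx, fun v hv => (hρ.tan x hx hxU v).1 hv, ?_⟩
  intro κ hκ
  have h1 : HasStrictFDerivAt ρ (fderiv ℂ ρ x) x :=
    ((contDiffOn_of_differentiableOn hρ.op hρ.diff).contDiffAt
      (hρ.op.mem_nhds hxU)).hasStrictFDerivAt one_ne_zero
  have h2 := h1.isLittleO.def hκ
  have h3 : ∀ᶠ p : E × E in 𝓝 (x, x), p.1 ∈ U ∧ p.2 ∈ U :=
    (continuous_fst.tendsto (x, x)).eventually (hρ.op.mem_nhds hxU) |>.and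
      ((continuous_snd.tendsto (x, x)).eventually (hρ.op.mem_nhds hxU))
  obtain ⟨δ, hδ, h4⟩ := Metric.eventually_nhds_iff.1 (h2.and h3)
  refine ⟨δ, hδ, fun y hy z hz hyx hzx => ?_⟩
  have h5 := h4 (y := (y, z)) (by rw [Prod.dist_eq]; exact max_lt hyx hzx)
  have h6 := h5.1
  simp only at h6
  rwa [hρ.fix y hy h5.2.1, hρ.fix z hz h5.2.2] at h6

/-- `X` is locally connected. -/
theorem Mfd.locally_connected (hX : Mfd X) {x : E} (hx : x ∈ X) {ε : ℝ} (hε : 0 < ε) :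
    ∃ W ⊆ X ∩ ball x ε, IsPreconnected W ∧ ∃ δ > 0, X ∩ ball x δ ⊆ W := by
  obtain ⟨ρ, U, hxU, hρ⟩ := hX.retr x hx
  have h1 := (hρ.differentiableAt hxU).continuousAt.tendsto
  rw [hρ.fix x hx hxU] at h1
  have h2 : ∀ᶠ y in 𝓝 x, ρ y ∈ ball x ε ∧ y ∈ U :=
    (h1.eventually (ball_mem_nhds x hε)).and (hρ.op.mem_nhds hxU)
  obtain ⟨δ, hδ, h3⟩ := Metric.eventually_nhds_iff_ball.1 h2
  refine ⟨ρ '' ball x δ, ?_, ?_, δ, hδ, ?_⟩
  · rintro _ ⟨y, hy, rfl⟩
    exact ⟨hρ.maps y (h3 y hy).2, (h3 y hy).1⟩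
  · let _ : NormedSpace ℝ E := NormedSpace.restrictScalars ℝ ℂ E
    refine (convex_ball x δ).isPreconnected.image _ ?_
    exact fun y hy => (hρ.differentiableAt (h3 y hy).2).continuousAt.continuousWithinAt
  · rintro y ⟨hyX, hy⟩
    exact ⟨y, hy, hρ.fix y hyX (h3 y hy).2⟩

/-- Cauchy estimate on `X`. -/
theorem Mfd.cauchy (hX : Mfd X) {K : Set E} (hK : IsCompact K) (hKX : K ⊆ X) :
    ∃ C > 0, ∃ K' ⊆ X, IsCompact K' ∧ K ⊆ K' ∧ ∀ f : E → F, DifferentiableOn ℂ f X → ∀ M : ℝ,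
      (∀ y ∈ K', ‖f y‖ ≤ M) → ∀ x ∈ K, ∀ v ∈ tang X x, ‖fderivWithin ℂ f X x v‖ ≤ C * M * ‖v‖ := by
  -- local statement, then compactness
  have key : ∃ C > 0, ∃ K' ⊆ X, IsCompact K' ∧ ∀ f : E → F, DifferentiableOn ℂ f X → ∀ M : ℝ,
      (∀ y ∈ K', ‖f y‖ ≤ M) → 0 ≤ M → ∀ x ∈ K, ∀ v ∈ tang X x,
      ‖fderivWithin ℂ f X x v‖ ≤ C * M * ‖v‖ := by
    refine hK.induction_on (p := fun s => ∃ C > 0, ∃ K' ⊆ X, IsCompact K' ∧ ∀ f : E → F,
      DifferentiableOn ℂ f X → ∀ M : ℝ, (∀ y ∈ K', ‖f y‖ ≤ M) → 0 ≤ M → ∀ x ∈ s, ∀ v ∈ tang X x,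
      ‖fderivWithin ℂ f X x v‖ ≤ C * M * ‖v‖) ?_ ?_ ?_ ?_
    · exact ⟨1, one_pos, ∅, empty_subset _, isCompact_empty, by simp⟩
    · rintro s t hst ⟨C, hC, K', hK', hK'c, h⟩
      exact ⟨C, hC, K', hK', hK'c, fun f hf M hM hM0 x hx => h f hf M hM hM0 x (hst hx)⟩
    · rintro s t ⟨C, hC, K', hK', hK'c, h⟩ ⟨C1, hC1, K1', hK1', hK1'c, h1⟩
      refine ⟨max C C1, lt_max_of_lt_left hC, K' ∪ K1', union_subset hK' hK1', hK'c.union hK1'c,
        fun f hf M hM hM0 x hx v hv => ?_⟩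
      rcases hx with hx | hx
      · refine (h f hf M (fun y hy => hM y (Or.inl hy)) hM0 x hx v hv).trans ?_
        gcongr
        exact le_max_left _ _
      · refine (h1 f hf M (fun y hy => hM y (Or.inr hy)) hM0 x hx v hv).trans ?_
        gcongr
        exact le_max_right _ _
    · intro x0 hx0
      obtain ⟨ρ, U, hxU, hρ⟩ := hX.retr x0 (hKX hx0)
      obtain ⟨r, hr, hrU⟩ := Metric.isOpen_iff.1 hρ.op x0 hxU
      have hr4 : 0 < r / 4 := by positivity
      have hcb : closedBall x0 (r / 2) ⊆ U := (closedBall_subset_ball (by linarith)).trans hrU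
      refine ⟨K ∩ ball x0 (r / 4), inter_mem_nhdsWithin _ (ball_mem_nhds x0 hr4), 8 / r,
        by positivity, ρ '' closedBall x0 (r / 2), ?_, ?_, ?_⟩
      · rintro _ ⟨y, hy, rfl⟩
        exact hρ.maps y (hcb hy)
      · exact (isCompact_closedBall _ _).image_of_continuousOn (hρ.diff.continuousOn.mono hcb)
      · intro f hf M hM hM0 x hx v hv
        have hxX : x ∈ X := hKX hx.1
        have hsub : ball x (r / 4) ⊆ closedBall x0 (r / 2) := by
          intro y hy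
          have h1 := mem_ball.1 hy
          have h2 := mem_ball.1 hx.2
          rw [mem_closedBall]
          calc dist y x0 ≤ dist y x + dist x x0 := dist_triangle _ _ _
            _ ≤ r / 2 := by linarith
        have hxU' : x ∈ U := hcb (hsub (mem_ball_self hr4))
        rw [← hρ.fderiv_comp hxU' hxX (hf x hxX) hv]
        have h1 := norm_fderiv_le ((hρ.comp_diff hf).mono (hsub.trans hcb)) hr4 (C := M)
          (fun y hy => hM _ ⟨y, hsub hy, rfl⟩)
        refine (ContinuousLinearMap.le_opNorm _ _).trans ?_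
        have h2 : 2 * M / (r / 4) = 8 / r * M := by field_simp; ring
        rw [h2] at h1
        gcongr
  obtain ⟨C, hC, K', hK', hK'c, h⟩ := key
  refine ⟨C, hC, K' ∪ K, union_subset hK' hKX, hK'c.union hK, subset_union_right, ?_⟩
  intro f hf M hM x hx v hv
  have hM0 : 0 ≤ M := (norm_nonneg _).trans (hM x (Or.inr hx))
  exact h f hf M (fun y hy => hM y (Or.inl hy)) hM0 x hx v hv

variable [CompleteSpace F]

/-- The derivative of a holomorphic function along a holomorphic vector field is holomorphic. -/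
theorem Mfd.diff_deriv (hX : Mfd X) {f : E → F} (hf : DifferentiableOn ℂ f X) {V : E → E}
    (hV : IsVF X V) : DifferentiableOn ℂ (fun x => fderivWithin ℂ f X x (V x)) X := by
  intro x hx
  obtain ⟨ρ, U, hxU, hρ⟩ := hX.retr x hx
  have h1 : DifferentiableAt ℂ (fderiv ℂ (fun y => f (ρ y))) x :=
    differentiableAt_fderiv hρ.op (hρ.comp_diff hf) hxU
  have h2 : DifferentiableWithinAt ℂ (fun y => fderiv ℂ (fun y => f (ρ y)) y (V y)) X x :=
    h1.differentiableWithinAt.clm_apply (hV.1 x hx)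
  refine h2.congr_of_eventuallyEq ?_ ?_
  · filter_upwards [self_mem_nhdsWithin, mem_nhdsWithin_of_mem_nhds (hρ.op.mem_nhds hxU)]
      with y hy hyU
    exact (hρ.fderiv_comp hyU hy (hf y hy) (hV.2 y hy)).symm
  · exact (hρ.fderiv_comp hxU hx (hf x hx) (hV.2 x hx)).symm

theorem Mfd.locallyLipschitz (hX : Mfd X) {f : E → F} (hf : DifferentiableOn ℂ f X) :
    LocallyLipschitzOn X f := by
  intro x hx
  obtain ⟨ρ, U, hxU, hρ⟩ := hX.retr x hx
  have h1 : ContDiffAt ℂ 1 (fun y => f (ρ y)) x :=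
    (contDiffOn_of_differentiableOn hρ.op (hρ.comp_diff hf)).contDiffAt (hρ.op.mem_nhds hxU)
  obtain ⟨K, t, ht, hL⟩ := h1.exists_lipschitzOnWith
  refine ⟨K, X ∩ (t ∩ U), ?_, ?_⟩
  · exact inter_mem_nhdsWithin _ (inter_mem ht (hρ.op.mem_nhds hxU))
  · intro y hy z hz
    have h2 := hL hy.2.1 hz.2.1
    simp only [hρ.fix y hy.1 hy.2.2, hρ.fix z hz.1 hz.2.2] at h2
    exact h2

theorem Mfd.lipschitz (hX : Mfd X) {f : E → F} (hf : DifferentiableOn ℂ f X) {K : Set E}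
    (hK : IsCompact K) (hKX : K ⊆ X) : ∃ C > 0, ∀ x ∈ K, ∀ y ∈ K, ‖f x - f y‖ ≤ C * ‖x - y‖ := by
  obtain ⟨C, hC⟩ := ((hX.locallyLipschitz hf).mono hKX).exists_lipschitzOnWith_of_compact hK
  refine ⟨C + 1, by positivity, fun x hx y hy => ?_⟩
  have h1 := hC.dist_le_mul x hx y hy
  rw [dist_eq_norm, dist_eq_norm] at h1
  refine h1.trans ?_
  have := norm_nonneg (x - y)
  nlinarith

/-- Local uniform limits of holomorphic maps on `X` are holomorphic. -/
theorem Mfd.limit_at (hX : Mfd X) {x : E} (hx : x ∈ X) {r : ℝ} (hr : 0 < r) {f : ℕ → E → F}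
    {g : E → F} (hf : ∀ n, DifferentiableOn ℂ (f n) (X ∩ ball x r))
    (h : TendstoUniformlyOn f g atTop (X ∩ ball x r)) : DifferentiableWithinAt ℂ g X x := by
  obtain ⟨ρ, U, hxU, hρ⟩ := hX.retr x hx
  have h1 := (hρ.differentiableAt hxU).continuousAt.tendsto
  rw [hρ.fix x hx hxU] at h1
  have h2 : ∀ᶠ y in 𝓝 x, ρ y ∈ ball x r ∧ y ∈ U :=
    (h1.eventually (ball_mem_nhds x hr)).and (hρ.op.mem_nhds hxU)
  obtain ⟨δ, hδ, h3⟩ := Metric.eventually_nhds_iff_ball.1 h2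
  have hmaps : MapsTo ρ (ball x δ) (X ∩ ball x r) := fun y hy =>
    ⟨hρ.maps y (h3 y hy).2, (h3 y hy).1⟩
  have h4 : DifferentiableAt ℂ (fun y => g (ρ y)) x := by
    refine differentiableAt_of_tendstoUniformlyOn (f := fun n y => f n (ρ y)) hδ (fun n => ?_) ?_
    · exact (hf n).comp (hρ.diff.mono fun y hy => (h3 y hy).2) hmaps
    · exact (h.comp ρ).mono hmaps
  refine differentiableWithinAt_of_eqOn (U := U) hρ.op hxU hx h4 fun y hy hyU => ?_
  simp only [hρ.fix y hy hyU]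

theorem Mfd.limit (hX : Mfd X) {f : ℕ → E → F} {g : E → F} (hf : ∀ n, DifferentiableOn ℂ (f n) X)
    (h : ∀ K ⊆ X, IsCompact K → TendstoUniformlyOn f g atTop K) : DifferentiableOn ℂ g X := by
  intro x hx
  refine hX.limit_at hx one_pos (fun n => (hf n).mono inter_subset_left) ?_
  exact (h (X ∩ closedBall x 1) inter_subset_left ((isCompact_closedBall x 1).inter_left
    hX.closed)).mono (inter_subset_inter_right _ ball_subset_closedBall)

/-- Chain rule along curves in `X`. -/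
theorem Mfd.curve {γ : ℝ → E} {w : E} {t : ℝ} (hγ : ∀ s, γ s ∈ X)
    (hd : HasDerivAt γ w t) : w ∈ tang X (γ t) ∧ ∀ (f : E → F),
      DifferentiableWithinAt ℂ f X (γ t) →
      HasDerivAt (fun s => f (γ s)) (fderivWithin ℂ f X (γ t) w) t := by
  constructor
  · intro g hg hg0
    have h1 : HasDerivAt (fun s => g (γ s)) (fderiv ℂ g (γ t) w) t := by
      have h2 : HasFDerivAt g ((fderiv ℂ g (γ t)).restrictScalars ℝ) (γ t) :=
        (hg (γ t)).hasFDerivAt.restrictScalars ℝ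
      exact h2.comp_hasDerivAt t hd
    have h3 : (fun s => g (γ s)) = fun _ => 0 := funext fun s => hg0 _ (hγ s)
    rw [h3] at h1
    exact h1.unique (hasDerivAt_const t 0)
  · intro f hf
    have h2 : HasFDerivWithinAt f ((fderivWithin ℂ f X (γ t)).restrictScalars ℝ) X (γ t) :=
      hf.hasFDerivWithinAt.restrictScalars ℝ
    have h3 := h2.comp_hasDerivWithinAt (s := univ) t hd.hasDerivWithinAt (fun s _ => hγ s)
    exact h3.hasDerivAt univ_mem

end H67.Tame
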