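import Mathlib
import Pool.Agent.H67.Tame.XCalc

/-! Holomorphically convex compact subsets. -/

namespace H67.Tame

open Set Filter Topology Metric

variable {E : Type*} [NormedAddCommGroup E] [InnerProductSpace ℂ E] [FiniteDimensional ℂ E]
variable {X : Set E}

/-- Compact subsets of `X` which are convex with respect to the holomorphic functions on `X`. -/
def Cvx (X K : Set E) : Prop :=
  K ⊆ X ∧ IsCompact K ∧ ∀ y ∈ X, y ∉ K →
    ∃ f : E → ℂ, DifferentiableOn ℂ f X ∧ (∀ x ∈ K, ‖f x‖ < 1) ∧ 1 < ‖f y‖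

theorem cvx_empty : Cvx X ∅ :=
  ⟨empty_subset _, isCompact_empty, fun _ _ _ => ⟨fun _ => 2, differentiableOn_const _, by simp,
    by simp⟩⟩

theorem Cvx.inter {K K' : Set E} (h : Cvx X K) (h' : Cvx X K') : Cvx X (K ∩ K') := by
  refine ⟨inter_subset_left.trans h.1, h.2.1.inter_right h'.2.1.isClosed, fun y hy hyK => ?_⟩
  by_cases hyK1 : y ∈ K
  · obtain ⟨f, hf, h1, h2⟩ := h'.2.2 y hy fun h => hyK ⟨hyK1, h⟩
    exact ⟨f, hf, fun x hx => h1 x hx.2, h2⟩
  · obtain ⟨f, hf, h1, h2⟩ := h.2.2 y hy hyK1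
    exact ⟨f, hf, fun x hx => h1 x hx.1, h2⟩

theorem diff_inner (a b : E) : Differentiable ℂ fun x : E => inner ℂ a (x - b) :=
  (innerSL ℂ a).differentiable.comp (differentiable_id.sub_const b)

theorem diffOn_div {f : E → ℂ} (hf : DifferentiableOn ℂ f X) (c : ℂ) :
    DifferentiableOn ℂ (fun x => f x / c) X := by
  simp only [div_eq_mul_inv]
  exact hf.mul_const _

theorem cvx_ball (hX : IsClosed X) (R : ℝ) : Cvx X (X ∩ closedBall 0 R) := by
  refine ⟨inter_subset_left, (isCompact_closedBall _ _).inter_left hX, fun y hy hyK => ?_⟩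
  have hyR : R < ‖y‖ := by
    by_contra h
    exact hyK ⟨hy, by simpa using not_lt.1 h⟩
  rcases lt_or_ge R 0 with hR | hR
  · refine ⟨fun _ => 2, differentiableOn_const _, fun x hx => ?_, by simp⟩
    have := hx.2
    rw [closedBall_eq_empty.2 hR] at this
    exact this.elim
  · have hy0 : 0 < ‖y‖ := hR.trans_lt hyR
    set c := (‖y‖ * R + ‖y‖ ^ 2) / 2 with hc
    have h1 : ‖y‖ * R < c := by rw [hc]; nlinarith
    have h2 : c < ‖y‖ ^ 2 := by rw [hc]; nlinarith
    have hc0 : 0 < c := lt_of_le_of_lt (by positivity) h1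
    refine ⟨fun x => inner ℂ y (x - 0) / c, diffOn_div (diff_inner y 0).differentiableOn _,
      fun x hx => ?_, ?_⟩
    · have h3 : ‖x‖ ≤ R := by simpa using hx.2
      rw [norm_div, sub_zero, div_lt_one (by simpa using hc0.ne')]
      calc ‖inner ℂ y x‖ ≤ ‖y‖ * ‖x‖ := norm_inner_le_norm _ _
        _ ≤ ‖y‖ * R := by gcongr
        _ < c := h1
        _ = ‖(c : ℂ)‖ := by rw [Complex.norm_real, Real.norm_of_nonneg hc0.le]
    · rw [norm_div, sub_zero, Complex.norm_real, Real.norm_of_nonneg hc0.le, one_lt_div hc0,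
        inner_self_eq_norm_sq_to_K]
      simpa using h2

theorem cvx_cofinal (hX : IsClosed X) {C : Set E} (hC : IsCompact C) (hCX : C ⊆ X) :
    ∃ K, Cvx X K ∧ C ⊆ K := by
  obtain ⟨R, hR⟩ := hC.isBounded.subset_closedBall 0
  exact ⟨_, cvx_ball hX R, subset_inter hCX hR⟩

theorem exists_bound_lt_one {K : Set E} (hK : IsCompact K) {f : E → ℂ} (hf : ContinuousOn f K)
    (h : ∀ x ∈ K, ‖f x‖ < 1) : ∃ q, 0 ≤ q ∧ q < 1 ∧ ∀ x ∈ K, ‖f x‖ ≤ q := by
  rcases K.eq_empty_or_nonempty with rfl | hne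
  · exact ⟨0, le_rfl, one_pos, by simp⟩
  · obtain ⟨x, hx, hmax⟩ := hK.exists_isMaxOn hne hf.norm
    exact ⟨‖f x‖, norm_nonneg _, h x hx, fun y hy => hmax hy⟩

theorem Cvx.insert {K : Set E} (h : Cvx X K) {p : E} (hp : p ∈ X) : Cvx X (insert p K) := by
  refine ⟨insert_subset hp h.1, h.2.1.insert p, fun y hy hyK => ?_⟩
  rw [mem_insert_iff, not_or] at hyK
  obtain ⟨f, hf, h1, h2⟩ := h.2.2 y hy hyK.2
  obtain ⟨q, hq0, hq1, hq⟩ := exists_bound_lt_one h.2.1 (hf.continuousOn.mono h.1) h1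
  let l : E → ℂ := fun x => inner ℂ (y - p) (x - p) / (inner ℂ (y - p) (y - p))
  have hl : Differentiable ℂ l := differentiableOn_univ.1 (diffOn_div (diff_inner (y - p) p).differentiableOn _)
  obtain ⟨L, hL⟩ := h.2.1.exists_bound_of_continuousOn hl.continuous.continuousOn
  have hL0 : ∀ x ∈ K, ‖l x‖ ≤ |L| + 1 := fun x hx => (hL x hx).trans (by
    have := le_abs_self L; linarith)
  have hlp : l p = 0 := by simp [l]
  have hly : l y = 1 := by
    have : inner ℂ (y - p) (y - p) ≠ 0 := by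
      rw [inner_self_ne_zero, sub_ne_zero]; exact hyK.1
    simp only [l]
    exact div_self this
  have hLpos : 0 < |L| + 1 := by positivity
  obtain ⟨m, hm⟩ := exists_pow_lt_of_lt_one (show 0 < 1 / (2 * (|L| + 1)) by positivity) hq1
  refine ⟨fun x => 2 * (f x ^ m * l x), ((hf.pow m).mul hl.differentiableOn).const_mul _, ?_, ?_⟩
  · intro x hx
    rcases hx with rfl | hx
    · simp [hlp]
    · rw [norm_mul, norm_mul, norm_pow]
      have h3 : ‖f x‖ ^ m ≤ q ^ m := pow_le_pow_left₀ (norm_nonneg _) (hq x hx) m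
      have h4 : ‖f x‖ ^ m * ‖l x‖ ≤ q ^ m * (|L| + 1) :=
        mul_le_mul h3 (hL0 x hx) (norm_nonneg _) (pow_nonneg hq0 m)
      have h5 : q ^ m * (|L| + 1) < 1 / (2 * (|L| + 1)) * (|L| + 1) :=
        mul_lt_mul_of_pos_right hm hLpos
      have h6 : 1 / (2 * (|L| + 1)) * (|L| + 1) = 1 / 2 := by field_simp
      have h7 : ‖(2 : ℂ)‖ = 2 := by simp
      rw [h7]
      linarith
  · show 1 < ‖2 * (f y ^ m * l y)‖
    rw [hly, mul_one, norm_mul, norm_pow]
    have h3 : 1 ≤ ‖f y‖ ^ m := one_le_pow₀ h2.le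
    have h7 : ‖(2 : ℂ)‖ = 2 := by simp
    rw [h7]
    linarith

theorem Cvx.nhd (hX : IsClosed X) {K : Set E} (h : Cvx X K) {U : Set E} (hU : IsOpen U)
    (hKU : K ⊆ U) : ∃ K', Cvx X K' ∧ (∀ x ∈ K, K' ∈ 𝓝[X] x) ∧ K' ⊆ U := by
  obtain ⟨R0, hR0⟩ := h.2.1.isBounded.subset_closedBall 0
  set R := R0 + 1
  have hKR : K ⊆ ball 0 R := hR0.trans (closedBall_subset_ball (by simp [R]))
  set C := (X ∩ closedBall 0 R) \ U with hC
  have hCc : IsCompact C := ((isCompact_closedBall _ _).inter_left hX).diff hU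
  have key : ∃ K', Cvx X K' ∧ (∀ x ∈ K, K' ∈ 𝓝[X] x) ∧ K' ⊆ closedBall 0 R ∧ Disjoint K' C := by
    refine hCc.induction_on (p := fun s => ∃ K', Cvx X K' ∧ (∀ x ∈ K, K' ∈ 𝓝[X] x) ∧
      K' ⊆ closedBall 0 R ∧ Disjoint K' s) ?_ ?_ ?_ ?_
    · refine ⟨X ∩ closedBall 0 R, cvx_ball hX R, fun x hx => ?_, inter_subset_right,
        disjoint_empty _⟩
      exact inter_mem self_mem_nhdsWithin (mem_nhdsWithin_of_mem_nhds
        (mem_of_superset (isOpen_ball.mem_nhds (hKR hx)) ball_subset_closedBall))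
    · rintro s t hst ⟨K', h1, h2, h3, h4⟩
      exact ⟨K', h1, h2, h3, h4.mono_right hst⟩
    · rintro s t ⟨K', h1, h2, h3, h4⟩ ⟨K1, h1', h2', h3', h4'⟩
      exact ⟨K' ∩ K1, h1.inter h1', fun x hx => inter_mem (h2 x hx) (h2' x hx),
        inter_subset_left.trans h3,
        disjoint_union_right.2 ⟨h4.mono_left inter_subset_left, h4'.mono_left inter_subset_right⟩⟩
    · intro y hy
      obtain ⟨f, hf, h1, h2⟩ := h.2.2 y hy.1.1 fun hyK => hy.2 (hKU hyK)
      refine ⟨X ∩ {z | 1 < ‖f z‖}, ?_, {x ∈ X ∩ closedBall 0 R | ‖f x‖ ≤ 1}, ?_, ?_, ?_, ?_⟩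
      · have h3 : X ∩ {z | 1 < ‖f z‖} ∈ 𝓝[X] y := inter_mem self_mem_nhdsWithin
          ((hf.continuousOn.norm y hy.1.1).eventually (lt_mem_nhds h2))
        exact nhdsWithin_mono y (fun z hz => hz.1.1) h3
      · refine ⟨fun x hx => hx.1.1, ?_, fun z hz hzK => ?_⟩
        · have h3 : IsClosed {x ∈ X ∩ closedBall 0 R | ‖f x‖ ≤ 1} := by
            have h4 : {x ∈ X ∩ closedBall 0 R | ‖f x‖ ≤ 1} =
                (X ∩ closedBall 0 R) ∩ (fun x => ‖f x‖) ⁻¹' Iic 1 := rfl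
            rw [h4]
            exact (hf.continuousOn.norm.mono inter_subset_left).preimage_isClosed_of_isClosed
              (hX.inter isClosed_closedBall) isClosed_Iic
          exact (isCompact_closedBall 0 R).of_isClosed_subset h3 fun x hx => hx.1.2
        · by_cases hzR : z ∈ closedBall 0 R
          · have h3 : 1 < ‖f z‖ := by
              by_contra hlt
              exact hzK ⟨⟨hz, hzR⟩, not_lt.1 hlt⟩
            set c := (1 + ‖f z‖) / 2 with hc
            have hc1 : 1 < c := by rw [hc]; linarith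
            have hc2 : c < ‖f z‖ := by rw [hc]; linarith
            have hc0 : 0 < c := by linarith
            refine ⟨fun x => f x / c, diffOn_div hf _, fun x hx => ?_, ?_⟩
            · rw [norm_div, Complex.norm_real, Real.norm_of_nonneg hc0.le, div_lt_one hc0]
              exact hx.2.trans_lt hc1
            · rw [norm_div, Complex.norm_real, Real.norm_of_nonneg hc0.le, one_lt_div hc0]
              exact hc2
          · obtain ⟨g, hg, hg1, hg2⟩ := (cvx_ball hX R).2.2 z hz fun h => hzR h.2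
            exact ⟨g, hg, fun x hx => hg1 x hx.1, hg2⟩
      · intro x hx
        have h3 : X ∩ {z | ‖f z‖ < 1} ∈ 𝓝[X] x := inter_mem self_mem_nhdsWithin
          ((hf.continuousOn.norm x (h.1 hx)).eventually (gt_mem_nhds (h1 x hx)))
        filter_upwards [h3, mem_nhdsWithin_of_mem_nhds (isOpen_ball.mem_nhds (hKR hx))] with z a b
        exact ⟨⟨a.1, ball_subset_closedBall b⟩, le_of_lt a.2⟩
      · exact fun x hx => hx.1.2
      · rw [Set.disjoint_left]
        rintro x hx ⟨-, hx2⟩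
        exact absurd hx.2 (not_le.2 hx2)
  obtain ⟨K', h1, h2, h3, h4⟩ := key
  refine ⟨K', h1, h2, fun x hx => ?_⟩
  by_contra hxU
  exact Set.disjoint_left.1 h4 hx ⟨⟨h1.1 hx, h3 hx⟩, hxU⟩

theorem Cvx.image {K : Set E} (h : Cvx X K) {g g' : E → E} (hg : DifferentiableOn ℂ g X)
    (hg' : DifferentiableOn ℂ g' X) (hm : MapsTo g X X) (hm' : MapsTo g' X X)
    (h1 : ∀ x ∈ X, g' (g x) = x) (h2 : ∀ x ∈ X, g (g' x) = x) : Cvx X (g '' K) := by
  refine ⟨?_, h.2.1.image_of_continuousOn (hg.continuousOn.mono h.1), fun y hy hyK => ?_⟩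
  · rintro _ ⟨x, hx, rfl⟩
    exact hm (h.1 hx)
  · have h3 : g' y ∉ K := fun h4 => hyK ⟨g' y, h4, h2 y hy⟩
    obtain ⟨f, hf, hf1, hf2⟩ := h.2.2 (g' y) (hm' hy) h3
    refine ⟨fun x => f (g' x), hf.comp hg' hm', ?_, hf2⟩
    rintro _ ⟨x, hx, rfl⟩
    show ‖f (g' (g x))‖ < 1
    rw [h1 x (h.1 hx)]
    exact hf1 x hx

theorem Cvx.sep {K : Set E} (h : Cvx X K) {p : E} (hp : p ∈ X) (hpK : p ∉ K) :
    ∃ f : E → ℂ, DifferentiableOn ℂ f X ∧ (∀ x ∈ K, ‖f x‖ < 1) ∧ f p = 1 := by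
  obtain ⟨f, hf, h1, h2⟩ := h.2.2 p hp hpK
  have h0 : f p ≠ 0 := by
    intro h0
    rw [h0, norm_zero] at h2
    linarith
  refine ⟨fun x => f x / f p, diffOn_div hf _, fun x hx => ?_, div_self h0⟩
  rw [norm_div, div_lt_one (by linarith)]
  exact (h1 x hx).trans h2

end H67.Tame
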