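import Mathlib
import Pool.Agent.H67.Tame.Hull

/-! Global holomorphic vector fields on a closed submanifold (Cramer's rule). -/

namespace H67.Tame

open Set Filter Topology Metric

variable {E : Type*} [NormedAddCommGroup E] [InnerProductSpace ℂ E] [FiniteDimensional ℂ E]
variable {X : Set E}

theorem differentiable_prod {ι : Type*} (s : Finset ι) {f : ι → E → ℂ}
    (hf : ∀ i ∈ s, Differentiable ℂ (f i)) : Differentiable ℂ fun x => ∏ i ∈ s, f i x := by
  classical
  induction s using Finset.induction_on with
  | empty => simp only [Finset.prod_empty]; exact differentiable_const _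
  | insert a s ha ih =>
    simp only [Finset.prod_insert ha]
    exact (hf a (Finset.mem_insert_self a s)).mul
      (ih fun i hi => hf i (Finset.mem_insert_of_mem hi))

theorem differentiable_det {m : ℕ} {M : E → Matrix (Fin m) (Fin m) ℂ}
    (hM : ∀ i j, Differentiable ℂ fun x => M x i j) : Differentiable ℂ fun x => (M x).det := by
  simp only [Matrix.det_apply]
  refine Differentiable.fun_sum fun σ _ => ?_
  refine Differentiable.const_smul ?_ _
  exact differentiable_prod _ fun i _ => hM _ _

/-- Every tangent vector extends to an entire vector field tangent to `X`. -/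
theorem Submanifold.field {n : ℕ} (h : Submanifold X n) {x0 : E} (hx0 : x0 ∈ X) {w : E}
    (hw : w ∈ tang X x0) : ∃ V : E → E, Differentiable ℂ V ∧ (∀ x ∈ X, V x ∈ tang X x) ∧
      V x0 = w := by
  classical
  obtain ⟨m, f, hm, hf, hf0, hli, hloc⟩ := h.regular x0 hx0
  let A : E →L[ℂ] (Fin m → ℂ) := ContinuousLinearMap.pi fun j => fderiv ℂ (f j) x0
  have hAs : Function.Surjective A := surj_of_linearIndependent hli
  obtain ⟨S', hS'⟩ := (A : E →ₗ[ℂ] (Fin m → ℂ)).exists_rightInverse_of_surjective
    (LinearMap.range_eq_top.2 hAs)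
  let S : (Fin m → ℂ) →L[ℂ] E := LinearMap.toContinuousLinearMap S'
  have hAS : ∀ w, A (S w) = w := fun w => LinearMap.congr_fun hS' w
  have hder : ∀ i (v : E), Differentiable ℂ fun x => fderiv ℂ (f i) x v := fun i v x =>
    differentiableAt_fderiv_apply isOpen_univ (hf i).differentiableOn (mem_univ x) v
  let M : E → Matrix (Fin m) (Fin m) ℂ := fun x => Matrix.of fun i j =>
    fderiv ℂ (f i) x (S (Pi.single j 1))
  let b : E → Fin m → ℂ := fun x i => fderiv ℂ (f i) x w
  let V : E → E := fun x => (M x).det • w - S (Matrix.cramer (M x) (b x))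
  have hMd : ∀ i j, Differentiable ℂ fun x => M x i j := fun i j => hder i _
  have hcr : Differentiable ℂ fun x => Matrix.cramer (M x) (b x) := by
    rw [differentiable_pi]
    intro j
    simp only [Matrix.cramer_apply]
    refine differentiable_det fun i k => ?_
    by_cases hk : k = j
    · subst hk
      simp only [Matrix.updateCol_self]
      exact hder i w
    · simp only [Matrix.updateCol_ne hk]
      exact hMd i k
  have hV : Differentiable ℂ V :=
    ((differentiable_det hMd).smul_const w).sub (S.differentiable.comp hcr)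
  have hSum : ∀ (i : Fin m) (x : E) (c : Fin m → ℂ),
      fderiv ℂ (f i) x (S c) = (M x).mulVec c i := by
    intro i x c
    have h1 : c = ∑ j, c j • (Pi.single j (1 : ℂ) : Fin m → ℂ) := by
      rw [← Finset.univ_sum_single c]
      refine Finset.sum_congr rfl fun j _ => ?_
      funext k
      simp [Pi.single_apply]
    conv_lhs => rw [h1]
    rw [map_sum, map_sum]
    simp only [Matrix.mulVec, dotProduct, M, Matrix.of_apply, map_smul, smul_eq_mul]
    refine Finset.sum_congr rfl fun j _ => ?_
    ring
  refine ⟨V, hV, fun x hx => ?_, ?_⟩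
  · by_cases hl : LinearIndependent ℂ (fun j => fderiv ℂ (f j) x)
    · -- kernel = tangent space
      let A' : E →L[ℂ] (Fin m → ℂ) := ContinuousLinearMap.pi fun j => fderiv ℂ (f j) x
      have hA's : Function.Surjective A' := surj_of_linearIndependent hl
      have hle : tang X x ≤ LinearMap.ker (A' : E →ₗ[ℂ] (Fin m → ℂ)) := by
        intro v hv
        rw [LinearMap.mem_ker]
        exact funext fun j => hv (f j) (hf j) (hf0 j)
      have hfr : Module.finrank ℂ (tang X x) =
          Module.finrank ℂ (LinearMap.ker (A' : E →ₗ[ℂ] (Fin m → ℂ))) := by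
        rw [(h.retr hx).2]
        have h2 := LinearMap.finrank_range_add_finrank_ker (A' : E →ₗ[ℂ] (Fin m → ℂ))
        rw [LinearMap.range_eq_top.2 hA's, finrank_top, Module.finrank_fin_fun] at h2
        omega
      rw [Submodule.eq_of_le_of_finrank_eq hle hfr, LinearMap.mem_ker]
      refine funext fun i => ?_
      show fderiv ℂ (f i) x (V x) = 0
      simp only [V, map_sub, map_smul, hSum, Matrix.mulVec_cramer]
      simp [b]
    · -- V x = 0
      obtain ⟨c, hc, i0, hci0⟩ := Fintype.not_linearIndependent_iff.1 hl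
      have hc0 : c ≠ 0 := fun h0 => hci0 (by rw [h0]; rfl)
      have hcv : ∀ v : E, ∑ i, c i * fderiv ℂ (f i) x v = 0 := by
        intro v
        have := DFunLike.congr_fun hc v
        simpa using this
      have hdet : (M x).det = 0 := by
        rw [← Matrix.exists_vecMul_eq_zero_iff]
        refine ⟨c, hc0, funext fun j => ?_⟩
        simp only [Matrix.vecMul, dotProduct, M, Matrix.of_apply, Pi.zero_apply]
        exact hcv _
      have hcram : Matrix.cramer (M x) (b x) = 0 := by
        funext j
        rw [Matrix.cramer_apply, Pi.zero_apply, ← Matrix.exists_vecMul_eq_zero_iff]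
        refine ⟨c, hc0, funext fun k => ?_⟩
        simp only [Matrix.vecMul, dotProduct, Pi.zero_apply]
        by_cases hk : k = j
        · subst hk
          simp only [Matrix.updateCol_self]
          exact hcv w
        · simp only [Matrix.updateCol_ne hk]
          exact hcv _
      have hVx : V x = 0 := by simp only [V, hdet, hcram, zero_smul, map_zero, sub_zero]
      rw [hVx]
      exact (tang X x).zero_mem
  · have hM1 : M x0 = 1 := by
      ext i j
      have h1 := congrFun (hAS (Pi.single j 1)) i
      have h2 : M x0 i j = (Pi.single j (1 : ℂ) : Fin m → ℂ) i := h1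
      rw [h2, Matrix.one_apply, Pi.single_apply]
    have hb0 : b x0 = 0 := funext fun i => hw (f i) (hf i) (hf0 i)
    simp only [V, hM1, hb0, Matrix.det_one, one_smul, map_zero, sub_zero]

theorem IsVF.smul {V : E → E} (hV : IsVF X V) {g : E → ℂ} (hg : DifferentiableOn ℂ g X) :
    IsVF X (fun x => g x • V x) :=
  ⟨hg.smul hV.1, fun x hx => (tang X x).smul_mem _ (hV.2 x hx)⟩

theorem IsVF.add {V W : E → E} (hV : IsVF X V) (hW : IsVF X W) : IsVF X (V + W) :=
  ⟨hV.1.add hW.1, fun x hx => (tang X x).add_mem (hV.2 x hx) (hW.2 x hx)⟩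

theorem IsVF.const_smul {V : E → E} (hV : IsVF X V) (c : ℝ) : IsVF X (c • V) := by
  refine ⟨hV.1.const_smul c, fun x hx => ?_⟩
  have h1 : (c • V) x = (c : ℂ) • V x := by
    show c • V x = (c : ℂ) • V x
    exact (Complex.coe_smul c (V x)).symm
  rw [h1]
  exact (tang X x).smul_mem _ (hV.2 x hx)

/-- Interpolation of tangent vectors at finitely many points. -/
theorem Submanifold.interp {n : ℕ} (h : Submanifold X n) {ι : Type*} [DecidableEq ι]
    (S : Finset ι) {q : ι → E}
    (hq : ∀ i ∈ S, q i ∈ X) (hinj : InjOn q S) {i0 : ι} (hi0 : i0 ∈ S) {w : E}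
    (hw : w ∈ tang X (q i0)) : ∃ V : E → E, IsVF X V ∧ V (q i0) = w ∧
      ∀ j ∈ S, j ≠ i0 → V (q j) = 0 := by
  obtain ⟨V0, hV0, hV0t, hV0w⟩ := h.field (hq i0 hi0) hw
  let l : ι → E → ℂ := fun j x =>
    inner ℂ (q i0 - q j) (x - q j) / inner ℂ (q i0 - q j) (q i0 - q j)
  let g : E → ℂ := fun x => ∏ j ∈ S.erase i0, l j x
  have hl : ∀ j, Differentiable ℂ (l j) := fun j => by
    have := diffOn_div (diff_inner (q i0 - q j) (q j)).differentiableOn
      (inner ℂ (q i0 - q j) (q i0 - q j)) (X := univ)
    exact differentiableOn_univ.1 this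
  have hg : Differentiable ℂ g := differentiable_prod _ fun j _ => hl j
  have hg0 : g (q i0) = 1 := by
    refine Finset.prod_eq_one fun j hj => ?_
    rw [Finset.mem_erase] at hj
    have h1 : q i0 ≠ q j := fun h2 => hj.1 (hinj hj.2 hi0 h2.symm)
    exact div_self (inner_self_ne_zero.2 (sub_ne_zero.2 h1))
  have hg1 : ∀ j ∈ S, j ≠ i0 → g (q j) = 0 := by
    intro j hj hji
    refine Finset.prod_eq_zero (Finset.mem_erase.2 ⟨hji, hj⟩) ?_
    simp [l]
  refine ⟨fun x => g x • V0 x, IsVF.smul ⟨hV0.differentiableOn, hV0t⟩ hg.differentiableOn, ?_, ?_⟩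
  · show g (q i0) • V0 (q i0) = w
    rw [hg0, one_smul, hV0w]
  · intro j hj hji
    show g (q j) • V0 (q j) = 0
    rw [hg1 j hj hji, zero_smul]

end H67.Tame
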