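import Mathlib
import Pool.Agent.H67.Tame.Fields

/-! Flows of complete holomorphic vector fields consist of holomorphic maps. -/

namespace H67.Tame

open Set Filter Topology Metric

variable {E : Type*} [NormedAddCommGroup E] [InnerProductSpace ℂ E] [FiniteDimensional ℂ E]
variable {F : Type*} [NormedAddCommGroup F] [NormedSpace ℂ F] [CompleteSpace F]
variable {X : Set E}

/-- Integral curves of `V` in `X`. -/
def Curve (X : Set E) (V : E → E) (γ : ℝ → E) : Prop :=
  (∀ t, γ t ∈ X) ∧ ∀ t, HasDerivAt γ (V (γ t)) t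

theorem Curve.continuous {V : E → E} {γ : ℝ → E} (h : Curve X V γ) : Continuous γ :=
  continuous_iff_continuousAt.2 fun t => (h.2 t).continuousAt

theorem Curve.shift {V : E → E} {γ : ℝ → E} (h : Curve X V γ) (s : ℝ) :
    Curve X V (fun t => γ (t + s)) :=
  ⟨fun t => h.1 _, fun t => (h.2 (t + s)).comp_add_const t s⟩

theorem Curve.neg {V : E → E} {γ : ℝ → E} (h : Curve X V γ) :
    Curve X (fun x => -V x) (fun t => γ (-t)) := by
  refine ⟨fun t => h.1 _, fun t => ?_⟩
  have h1 := HasDerivAt.scomp t (h.2 (-t)) (hasDerivAt_neg t)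
  rw [neg_smul, one_smul] at h1
  exact h1

theorem Curve.unique (hX : Mfd X) {V : E → E} (hV : DifferentiableOn ℂ V X) {γ γ' : ℝ → E}
    (h : Curve X V γ) (h' : Curve X V γ') (h0 : γ 0 = γ' 0) : γ = γ' := by
  funext t
  set b := |t| + 1 with hb
  have hb0 : 0 < b := by positivity
  have htb : t ∈ Icc (-b) b := by
    rw [mem_Icc, ← abs_le]; linarith [hb]
  set L : Set E := γ '' Icc (-b) b ∪ γ' '' Icc (-b) b with hL
  have hLc : IsCompact L :=
    (isCompact_Icc.image h.continuous).union (isCompact_Icc.image h'.continuous)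
  have hLX : L ⊆ X := by
    rintro _ (⟨s, -, rfl⟩ | ⟨s, -, rfl⟩)
    · exact h.1 s
    · exact h'.1 s
  obtain ⟨K, hK⟩ := ((hX.locallyLipschitz hV).mono hLX).exists_lipschitzOnWith_of_compact hLc
  exact ODE_solution_unique_of_mem_Icc (v := fun _ => V) (s := fun _ => L) (K := K) (t₀ := 0)
    (a := -b) (b := b) (f := γ) (g := γ')
    (fun _ _ => hK) ⟨by linarith, hb0⟩ h.continuous.continuousOn (fun s _ => h.2 s)
    (fun s hs => Or.inl ⟨s, Ioo_subset_Icc_self hs, rfl⟩) h'.continuous.continuousOn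
    (fun s _ => h'.2 s) (fun s hs => Or.inr ⟨s, Ioo_subset_Icc_self hs, rfl⟩) h0 htb

/-- Integral curves do not move fast. -/
theorem Curve.stay_pos {V : E → E} {γ : ℝ → E} (h : Curve X V γ) {a M : ℝ} (hM : 0 < M)
    (hb : ∀ y ∈ X, ‖y - γ 0‖ ≤ a → ‖V y‖ < M) {t : ℝ} (ht : 0 ≤ t) (hta : M * t ≤ a) :
    ‖γ t - γ 0‖ ≤ M * t := by
  refine image_norm_le_of_norm_deriv_right_lt_deriv_boundary (f := fun s => γ s - γ 0)
    (f' := fun s => V (γ s)) (a := 0) (b := t) (B := fun s => M * s) (B' := fun _ => M) ?_ ?_ ?_ ?_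
    ?_ ⟨ht, le_rfl⟩
  · exact (h.continuous.sub continuous_const).continuousOn
  · exact fun s _ => ((h.2 s).sub_const _).hasDerivWithinAt
  · simp
  · intro s
    simpa using (hasDerivAt_id s).const_mul M
  · intro s hs hsB
    refine hb _ (h.1 s) ?_
    rw [hsB]
    exact (mul_le_mul_of_nonneg_left hs.2.le hM.le).trans hta

theorem Curve.stay {V : E → E} {γ : ℝ → E} (h : Curve X V γ) {a M : ℝ} (hM : 0 < M)
    (hb : ∀ y ∈ X, ‖y - γ 0‖ ≤ a → ‖V y‖ < M) {t : ℝ} (hta : M * |t| ≤ a) :
    ‖γ t - γ 0‖ ≤ M * |t| := by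
  rcases le_total 0 t with ht | ht
  · rw [abs_of_nonneg ht] at hta ⊢
    exact h.stay_pos hM hb ht hta
  · rw [abs_of_nonpos ht] at hta ⊢
    have h1 := h.neg.stay_pos (a := a) (M := M) hM (fun y hy hya => by
      rw [norm_neg]
      simp only [neg_zero] at hya
      exact hb y hy hya) (t := -t) (by linarith) hta
    simpa using h1

/-- The flow of a vector field. -/
structure IsFlow (X : Set E) (V : E → E) (φ : ℝ → E → E) : Prop where
  maps : ∀ t, ∀ x ∈ X, φ t x ∈ X
  zero : ∀ x ∈ X, φ 0 x = x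
  add : ∀ s t, ∀ x ∈ X, φ (s + t) x = φ s (φ t x)
  deriv : ∀ x ∈ X, ∀ t, HasDerivAt (fun t => φ t x) (V (φ t x)) t
  diff : ∀ t, DifferentiableOn ℂ (φ t) X

theorem IsFlow.curve {V : E → E} {φ : ℝ → E → E} (h : IsFlow X V φ) {x : E} (hx : x ∈ X) :
    Curve X V (fun t => φ t x) := ⟨fun t => h.maps t x hx, h.deriv x hx⟩

/-- One Euler step. -/
noncomputable def euler (W : E → E) (h : ℝ) (y : E) : E := y + (h : ℂ) • W y

theorem norm_euler_sub {W : E → E} {h : ℝ} (y : E) : ‖euler W h y - y‖ = |h| * ‖W y‖ := by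
  rw [euler, add_sub_cancel_left, norm_smul, Complex.norm_real, Real.norm_eq_abs]

/-- Euler polygons stay in the ball. -/
theorem euler_mem {W : E → E} {x0 x : E} {R M h : ℝ} (hM : 0 ≤ M)
    (hW : ∀ y ∈ closedBall x0 R, ‖W y‖ ≤ M) (hh : 0 ≤ h) (hx : dist x x0 ≤ R / 4) :
    ∀ j : ℕ, j * h * M ≤ R / 4 → dist ((euler W h)^[j] x) x ≤ j * h * M ∧
      dist ((euler W h)^[j] x) x0 ≤ R / 2 := by
  intro j
  induction j with
  | zero =>
    intro hj
    have hR : 0 ≤ R / 4 := dist_nonneg.trans hx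
    simp only [Function.iterate_zero, id_eq, dist_self, Nat.cast_zero, zero_mul, le_refl,
      true_and]
    linarith
  | succ j ih =>
    intro hj
    have hR : 0 ≤ R / 4 := dist_nonneg.trans hx
    have hjj : (j : ℝ) * h * M ≤ ((j + 1 : ℕ) : ℝ) * h * M := by
      have : (j : ℝ) ≤ ((j + 1 : ℕ) : ℝ) := by push_cast; linarith
      gcongr
    obtain ⟨h1, h2⟩ := ih (hjj.trans hj)
    rw [Function.iterate_succ_apply']
    set z := (euler W h)^[j] x
    have hz : z ∈ closedBall x0 R := by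
      rw [mem_closedBall]; linarith
    have h3 : dist (euler W h z) z ≤ h * M := by
      rw [dist_eq_norm, norm_euler_sub, abs_of_nonneg hh]
      exact mul_le_mul_of_nonneg_left (hW z hz) hh
    have h4 : dist (euler W h z) x ≤ ((j + 1 : ℕ) : ℝ) * h * M := by
      calc dist (euler W h z) x ≤ dist (euler W h z) z + dist z x := dist_triangle _ _ _
        _ ≤ h * M + j * h * M := add_le_add h3 h1
        _ = ((j + 1 : ℕ) : ℝ) * h * M := by push_cast; ring
    refine ⟨h4, ?_⟩
    calc dist (euler W h z) x0 ≤ dist (euler W h z) x + dist x x0 := dist_triangle _ _ _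
      _ ≤ R / 4 + R / 4 := add_le_add (h4.trans hj) hx
      _ = R / 2 := by ring

/-- Euler polygons depend holomorphically on the starting point. -/
theorem euler_diff {W : E → E} {x0 : E} {R M h : ℝ} (hR : 0 < R) (hM : 0 ≤ M)
    (hW : ∀ y ∈ closedBall x0 R, ‖W y‖ ≤ M) (hWd : DifferentiableOn ℂ W (ball x0 R)) (hh : 0 ≤ h)
    (j : ℕ) (hj : j * h * M ≤ R / 4) :
    DifferentiableOn ℂ (fun x => (euler W h)^[j] x) (ball x0 (R / 4)) := by
  induction j with
  | zero =>
    simp only [Function.iterate_zero, id_eq]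
    exact differentiableOn_id
  | succ j ih =>
    have hjj : (j : ℝ) * h * M ≤ ((j + 1 : ℕ) : ℝ) * h * M := by
      have : (j : ℝ) ≤ ((j + 1 : ℕ) : ℝ) := by push_cast; linarith
      gcongr
    have h1 := ih (hjj.trans hj)
    simp only [Function.iterate_succ_apply']
    have h2 : DifferentiableOn ℂ (euler W h) (ball x0 R) :=
      differentiableOn_id.add (hWd.const_smul (h : ℂ))
    refine h2.comp h1 fun x hx => ?_
    have h3 := (euler_mem hM hW hh (mem_ball.1 hx).le j (hjj.trans hj)).2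
    rw [mem_ball]
    linarith

/-- Error of the Euler polygons. -/
theorem euler_error {V W : E → E} {x0 : E} {R M L h : ℝ} (hM : 0 < M) (hL : 0 ≤ L)
    (hW : ∀ y ∈ closedBall x0 R, ‖W y‖ < M)
    (hWL : ∀ y ∈ closedBall x0 R, ∀ z ∈ closedBall x0 R, ‖W y - W z‖ ≤ L * ‖y - z‖)
    (hVW : ∀ y ∈ X, y ∈ closedBall x0 R → V y = W y) {γ : ℝ → E} (hγ : Curve X V γ)
    (hx : dist (γ 0) x0 ≤ R / 4) (hh : 0 ≤ h) :
    ∀ j : ℕ, j * h * M ≤ R / 4 → ‖γ (j * h) - (euler W h)^[j] (γ 0)‖ ≤
      j * (L * M * h ^ 2) * (1 + L * h) ^ j := by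
  have hR : 0 ≤ R / 4 := dist_nonneg.trans hx
  have hstay : ∀ t, 0 ≤ t → M * t ≤ R / 4 → ‖γ t - γ 0‖ ≤ M * t ∧ γ t ∈ closedBall x0 R := by
    intro t ht htR
    have h1 := hγ.stay_pos (a := R / 4) hM (fun y hy hya => by
      have hyR : y ∈ closedBall x0 R := by
        rw [mem_closedBall]
        calc dist y x0 ≤ dist y (γ 0) + dist (γ 0) x0 := dist_triangle _ _ _
          _ ≤ R / 4 + R / 4 := add_le_add (by rwa [dist_eq_norm]) hx
          _ ≤ R := by linarith
      rw [hVW y hy hyR]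
      exact hW y hyR) ht htR
    refine ⟨h1, ?_⟩
    rw [mem_closedBall]
    calc dist (γ t) x0 ≤ dist (γ t) (γ 0) + dist (γ 0) x0 := dist_triangle _ _ _
      _ ≤ R / 4 + R / 4 := add_le_add (by rw [dist_eq_norm]; linarith) hx
      _ ≤ R := by linarith
  intro j
  induction j with
  | zero =>
    intro _
    simp
  | succ j ih =>
    intro hj
    have hjj : (j : ℝ) * h * M ≤ ((j + 1 : ℕ) : ℝ) * h * M := by
      have : (j : ℝ) ≤ ((j + 1 : ℕ) : ℝ) := by push_cast; linarith
      gcongr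
    have h1 := ih (hjj.trans hj)
    rw [Function.iterate_succ_apply']
    set z := (euler W h)^[j] (γ 0) with hz
    set s : ℝ := j * h with hs
    have hs0 : 0 ≤ s := by positivity
    have hsh : ((j + 1 : ℕ) : ℝ) * h = s + h := by push_cast; ring
    rw [hsh] at hj ⊢
    have hzR : z ∈ closedBall x0 R := by
      have := (euler_mem hM.le (fun y hy => (hW y hy).le) hh hx j (hjj.trans (by rw [hsh]; exact hj))).2
      rw [mem_closedBall]
      linarith
    have hγs := hstay s hs0 (by nlinarith)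
    -- increment of the curve
    have hinc : ‖γ (s + h) - γ s - (h : ℂ) • W (γ s)‖ ≤ L * M * h ^ 2 := by
      have hcs := hγ.shift s
      have hd : ∀ σ ∈ Icc 0 h, HasDerivWithinAt (fun σ => γ (σ + s) - (σ : ℂ) • W (γ s))
          (V (γ (σ + s)) - W (γ s)) (Icc 0 h) σ := by
        intro σ _
        have h2 : HasDerivAt (fun σ : ℝ => (σ : ℂ) • W (γ s)) ((1 : ℂ) • W (γ s)) σ :=
          (Complex.ofRealCLM.hasDerivAt (x := σ)).smul_const (W (γ s))
        rw [one_smul] at h2
        exact ((hcs.2 σ).sub h2).hasDerivWithinAt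
      have hb : ∀ σ ∈ Ico 0 h, ‖V (γ (σ + s)) - W (γ s)‖ ≤ L * M * h := by
        intro σ hσ
        have h3 : M * (σ + s) ≤ R / 4 := by
          have : M * (σ + s) ≤ M * (h + s) := by
            apply mul_le_mul_of_nonneg_left _ hM.le; linarith [hσ.2]
          linarith
        have h4 := hstay (σ + s) (by linarith [hσ.1]) h3
        rw [hVW _ (hγ.1 _) h4.2]
        refine (hWL _ h4.2 _ hγs.2).trans ?_
        have h5 := hcs.stay_pos (a := R / 4) (M := M) hM (fun y hy hya => by
          simp only [zero_add] at hya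
          have hyR : y ∈ closedBall x0 R := by
            rw [mem_closedBall]
            have h6 : dist (γ s) x0 ≤ R / 2 := by
              calc dist (γ s) x0 ≤ dist (γ s) (γ 0) + dist (γ 0) x0 := dist_triangle _ _ _
                _ ≤ R / 4 + R / 4 := add_le_add (by
                    rw [dist_eq_norm]
                    exact hγs.1.trans (by nlinarith)) hx
                _ = R / 2 := by ring
            calc dist y x0 ≤ dist y (γ s) + dist (γ s) x0 := dist_triangle _ _ _
              _ ≤ R / 4 + R / 2 := add_le_add (by rwa [dist_eq_norm]) h6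
              _ ≤ R := by linarith
          rw [hVW y hy hyR]
          exact hW y hyR) hσ.1 (by
            have : M * σ ≤ M * (σ + s) := by
              apply mul_le_mul_of_nonneg_left _ hM.le; linarith
            linarith)
        simp only [zero_add] at h5
        calc L * ‖γ (σ + s) - γ s‖ ≤ L * (M * σ) := by gcongr
          _ ≤ L * (M * h) := by
              apply mul_le_mul_of_nonneg_left _ hL
              exact mul_le_mul_of_nonneg_left hσ.2.le hM.le
          _ = L * M * h := by ring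
      have h6 := norm_image_sub_le_of_norm_deriv_le_segment' hd hb h ⟨hh, le_rfl⟩
      simp only [Complex.ofReal_zero, zero_smul, sub_zero, zero_add] at h6
      calc ‖γ (s + h) - γ s - (h : ℂ) • W (γ s)‖
          = ‖γ (h + s) - (h : ℂ) • W (γ s) - γ s‖ := by rw [add_comm s h]; congr 1; abel
        _ ≤ L * M * h * h := h6
        _ = L * M * h ^ 2 := by ring
    have hstep : ‖γ (s + h) - euler W h z‖ ≤ (1 + L * h) * ‖γ s - z‖ + L * M * h ^ 2 := by
      have h7 : γ (s + h) - euler W h z = (γ (s + h) - γ s - (h : ℂ) • W (γ s)) +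
          (γ s - z) + (h : ℂ) • (W (γ s) - W z) := by
        rw [euler, smul_sub]; abel
      rw [h7]
      refine (norm_add₃_le).trans ?_
      have h8 : ‖(h : ℂ) • (W (γ s) - W z)‖ ≤ h * (L * ‖γ s - z‖) := by
        rw [norm_smul, Complex.norm_real, Real.norm_of_nonneg hh]
        exact mul_le_mul_of_nonneg_left (hWL _ hγs.2 _ hzR) hh
      linarith
    have hc0 : 0 ≤ L * M * h ^ 2 := by positivity
    have h1L : (1 : ℝ) ≤ 1 + L * h := by
      have : 0 ≤ L * h := by positivity
      linarith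
    calc ‖γ (s + h) - euler W h z‖ ≤ (1 + L * h) * ‖γ s - z‖ + L * M * h ^ 2 := hstep
      _ ≤ (1 + L * h) * (j * (L * M * h ^ 2) * (1 + L * h) ^ j) + L * M * h ^ 2 := by gcongr
      _ = j * (L * M * h ^ 2) * (1 + L * h) ^ (j + 1) + L * M * h ^ 2 * 1 := by ring
      _ ≤ j * (L * M * h ^ 2) * (1 + L * h) ^ (j + 1) +
          L * M * h ^ 2 * (1 + L * h) ^ (j + 1) := by
          gcongr
          exact one_le_pow₀ h1L
      _ = ((j + 1 : ℕ) : ℝ) * (L * M * h ^ 2) * (1 + L * h) ^ (j + 1) := by push_cast; ring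

end H67.Tame
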