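import Mathlib
import Pool.Agent.H67.Tame.Flow

/-! Existence of the holomorphic flow of a complete vector field; first order estimates. -/

namespace H67.Tame

open Set Filter Topology Metric

variable {E : Type*} [NormedAddCommGroup E] [InnerProductSpace ℂ E] [FiniteDimensional ℂ E]
variable {F : Type*} [NormedAddCommGroup F] [NormedSpace ℂ F] [CompleteSpace F]
variable {X : Set E}

theorem local_hol_pos (hX : Mfd X) {V : E → E} (hV : DifferentiableOn ℂ V X) {Φ : ℝ → E → E}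
    (hΦ : ∀ x ∈ X, Curve X V fun t => Φ t x) (hΦ0 : ∀ x ∈ X, Φ 0 x = x) {x0 : E} (hx0 : x0 ∈ X) :
    ∃ r > 0, ∃ τ > 0, ∀ t, 0 ≤ t → t ≤ τ → ∀ x ∈ X, dist x x0 < r →
      DifferentiableWithinAt ℂ (Φ t) X x := by
  obtain ⟨ρ, U, hxU, hρ⟩ := hX.retr x0 hx0
  let W : E → E := fun y => V (ρ y)
  have hW : DifferentiableOn ℂ W U := hρ.comp_diff hV
  have h1 : ContDiffAt ℂ 1 W x0 :=
    (contDiffOn_of_differentiableOn hρ.op hW).contDiffAt (hρ.op.mem_nhds hxU)
  obtain ⟨L, t, ht, hL⟩ := h1.exists_lipschitzOnWith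
  set M := ‖W x0‖ + 1 with hMdef
  have hM : 0 < M := by positivity
  have h2 : ∀ᶠ y in 𝓝 x0, y ∈ U ∧ y ∈ t ∧ ‖W y‖ < M := by
    have h3 : ContinuousAt W x0 := (hW.differentiableAt (hρ.op.mem_nhds hxU)).continuousAt
    have h4 : ∀ᶠ y in 𝓝 x0, ‖W y‖ < M := h3.norm.eventually (gt_mem_nhds (by
      show ‖W x0‖ < M
      rw [hMdef]; linarith))
    filter_upwards [hρ.op.mem_nhds hxU, ht, h4] with y a b c
    exact ⟨a, b, c⟩
  obtain ⟨R, hR, h3⟩ := Metric.nhds_basis_closedBall.eventually_iff.1 h2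
  have hWM : ∀ y ∈ closedBall x0 R, ‖W y‖ < M := fun y hy => (h3 hy).2.2
  have hWL : ∀ y ∈ closedBall x0 R, ∀ z ∈ closedBall x0 R, ‖W y - W z‖ ≤ L * ‖y - z‖ := by
    intro y hy z hz
    have := hL.dist_le_mul y (h3 hy).2.1 z (h3 hz).2.1
    rwa [dist_eq_norm, dist_eq_norm] at this
  have hWd : DifferentiableOn ℂ W (ball x0 R) :=
    hW.mono fun y hy => (h3 (ball_subset_closedBall hy)).1
  have hVW : ∀ y ∈ X, y ∈ closedBall x0 R → V y = W y := by
    intro y hy hyR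
    show V y = V (ρ y)
    rw [hρ.fix y hy (h3 hyR).1]
  refine ⟨R / 4, by positivity, R / (4 * M), by positivity, fun t ht0 htτ x hx hxr => ?_⟩
  have htM : t * M ≤ R / 4 := by
    rw [le_div_iff₀ (by positivity)] at htτ
    linarith
  let f : ℕ → E → E := fun k x => (euler W (t / (k + 1 : ℕ)))^[k + 1] x
  have hkpos : ∀ k : ℕ, (0 : ℝ) < ((k + 1 : ℕ) : ℝ) := fun k => by positivity
  have hjh : ∀ k : ℕ, ((k + 1 : ℕ) : ℝ) * (t / (k + 1 : ℕ)) = t := fun k => by
    field_simp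
  have hh0 : ∀ k : ℕ, 0 ≤ t / ((k + 1 : ℕ) : ℝ) := fun k => by positivity
  set r' := R / 4 - dist x x0 with hr'
  have hr'pos : 0 < r' := by rw [hr']; linarith
  have hsub : ball x r' ⊆ ball x0 (R / 4) := by
    intro y hy
    rw [mem_ball] at *
    calc dist y x0 ≤ dist y x + dist x x0 := dist_triangle _ _ _
      _ < R / 4 := by rw [hr'] at hy; linarith
  refine hX.limit_at hx hr'pos (f := f) (fun k => ?_) ?_
  · refine (euler_diff hR hM.le (fun y hy => (hWM y hy).le) hWd (hh0 k) (k + 1) ?_).mono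
      (inter_subset_right.trans hsub)
    rw [hjh]; exact htM
  · rw [Metric.tendstoUniformlyOn_iff]
    intro ε hε
    have hlim : Tendsto (fun k : ℕ => L * M * t ^ 2 * Real.exp (L * t) / ((k + 1 : ℕ) : ℝ))
        atTop (𝓝 0) := by
      refine Tendsto.div_atTop tendsto_const_nhds ?_
      exact tendsto_natCast_atTop_atTop.comp (tendsto_add_atTop_nat 1)
    filter_upwards [hlim.eventually_lt_const hε] with k hk y hy
    have h4 := euler_error (γ := fun t => Φ t y) hM L.coe_nonneg hWM hWL hVW (hΦ y hy.1) (by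
      rw [hΦ0 y hy.1]; exact (mem_ball.1 (hsub hy.2)).le) (hh0 k) (k + 1) (by
      rw [hjh]; exact htM)
    simp only [hjh, hΦ0 y hy.1] at h4
    rw [dist_eq_norm]
    refine lt_of_le_of_lt (h4.trans ?_) hk
    have h5 : (1 + (L : ℝ) * (t / ((k + 1 : ℕ) : ℝ))) ^ (k + 1) ≤ Real.exp (L * t) := by
      have h6 : 1 + (L : ℝ) * (t / ((k + 1 : ℕ) : ℝ)) ≤ Real.exp (L * (t / ((k + 1 : ℕ) : ℝ))) := by
        rw [add_comm]; exact Real.add_one_le_exp _
      have h7 : 0 ≤ 1 + (L : ℝ) * (t / ((k + 1 : ℕ) : ℝ)) := by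
        have := mul_nonneg L.coe_nonneg (hh0 k)
        have h8 : (0 : ℝ) ≤ (L : ℝ) * (t / ((k + 1 : ℕ) : ℝ)) := this
        linarith
      calc (1 + (L : ℝ) * (t / ((k + 1 : ℕ) : ℝ))) ^ (k + 1)
          ≤ Real.exp (L * (t / ((k + 1 : ℕ) : ℝ))) ^ (k + 1) := pow_le_pow_left₀ h7 h6 _
        _ = Real.exp (L * t) := by
            rw [← Real.exp_nat_mul]
            congr 1
            calc ((k + 1 : ℕ) : ℝ) * (L * (t / ((k + 1 : ℕ) : ℝ)))
                = L * (((k + 1 : ℕ) : ℝ) * (t / ((k + 1 : ℕ) : ℝ))) := by ring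
              _ = L * t := by rw [hjh]
    have h6 : ((k + 1 : ℕ) : ℝ) * (L * M * (t / ((k + 1 : ℕ) : ℝ)) ^ 2) =
        L * M * t ^ 2 / ((k + 1 : ℕ) : ℝ) := by
      field_simp
    rw [h6]
    have h7 : 0 ≤ L * M * t ^ 2 / ((k + 1 : ℕ) : ℝ) := by positivity
    calc L * M * t ^ 2 / ((k + 1 : ℕ) : ℝ) * (1 + (L : ℝ) * (t / ((k + 1 : ℕ) : ℝ))) ^ (k + 1)
        ≤ L * M * t ^ 2 / ((k + 1 : ℕ) : ℝ) * Real.exp (L * t) := by gcongr
      _ = L * M * t ^ 2 * Real.exp (L * t) / ((k + 1 : ℕ) : ℝ) := by ring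

theorem diff_small (hX : Mfd X) {V : E → E} (hV : DifferentiableOn ℂ V X) {Φ : ℝ → E → E}
    (hΦ : ∀ x ∈ X, Curve X V fun t => Φ t x) (hΦ0 : ∀ x ∈ X, Φ 0 x = x) {K : Set E}
    (hK : IsCompact K) (hKX : K ⊆ X) : ∃ τ > 0, ∀ t, |t| ≤ τ → ∀ x ∈ K,
      DifferentiableWithinAt ℂ (Φ t) X x := by
  refine hK.induction_on (p := fun s => ∃ τ > 0, ∀ t, |t| ≤ τ → ∀ x ∈ s,
      DifferentiableWithinAt ℂ (Φ t) X x) ?_ ?_ ?_ ?_
  · exact ⟨1, one_pos, by simp⟩
  · rintro s t hst ⟨τ, hτ, h⟩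
    exact ⟨τ, hτ, fun u hu x hx => h u hu x (hst hx)⟩
  · rintro s t ⟨τ, hτ, h⟩ ⟨τ', hτ', h'⟩
    refine ⟨min τ τ', lt_min hτ hτ', fun u hu x hx => ?_⟩
    rcases hx with hx | hx
    · exact h u (hu.trans (min_le_left _ _)) x hx
    · exact h' u (hu.trans (min_le_right _ _)) x hx
  · intro x0 hx0
    obtain ⟨r, hr, τ, hτ, h⟩ := local_hol_pos hX hV hΦ hΦ0 (hKX hx0)
    have hnV : DifferentiableOn ℂ (fun x => -V x) X := hV.neg
    obtain ⟨r', hr', τ', hτ', h'⟩ := local_hol_pos hX hnV (Φ := fun t x => Φ (-t) x)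
      (fun x hx => (hΦ x hx).neg) (fun x hx => by rw [neg_zero]; exact hΦ0 x hx) (hKX hx0)
    refine ⟨K ∩ (ball x0 r ∩ ball x0 r'), inter_mem_nhdsWithin _
      (inter_mem (ball_mem_nhds _ hr) (ball_mem_nhds _ hr')), min τ τ', lt_min hτ hτ',
      fun u hu x hx => ?_⟩
    rcases le_total 0 u with hu0 | hu0
    · rw [abs_of_nonneg hu0] at hu
      exact h u hu0 (hu.trans (min_le_left _ _)) x (hKX hx.1) hx.2.1
    · rw [abs_of_nonpos hu0] at hu
      have := h' (-u) (by linarith) (hu.trans (min_le_right _ _)) x (hKX hx.1) hx.2.2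
      simpa using this

theorem exists_flow (hX : Mfd X) {V : E → E} (hV : IsVF X V) (hc : IsComplete X V) :
    ∃ φ, IsFlow X V φ := by
  classical
  have hc' : ∀ x : E, ∃ γ : ℝ → E, x ∈ X → γ 0 = x ∧ Curve X V γ := by
    intro x
    by_cases hx : x ∈ X
    · obtain ⟨γ, h0, h1, h2⟩ := hc x hx
      exact ⟨γ, fun _ => ⟨h0, h1, h2⟩⟩
    · exact ⟨fun _ => x, fun h => absurd h hx⟩
  choose γ hγ using hc'
  let Φ : ℝ → E → E := fun t x => γ x t
  have hΦ : ∀ x ∈ X, Curve X V fun t => Φ t x := fun x hx => (hγ x hx).2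
  have hΦ0 : ∀ x ∈ X, Φ 0 x = x := fun x hx => (hγ x hx).1
  have hmaps : ∀ t, ∀ x ∈ X, Φ t x ∈ X := fun t x hx => (hΦ x hx).1 t
  have hadd : ∀ s t, ∀ x ∈ X, Φ (s + t) x = Φ s (Φ t x) := by
    intro s t x hx
    have h1 : Curve X V fun s => Φ (s + t) x := (hΦ x hx).shift t
    have h2 : Curve X V fun s => Φ s (Φ t x) := hΦ _ (hmaps t x hx)
    have h3 := h1.unique hX hV.1 h2 (by
      show Φ (0 + t) x = Φ 0 (Φ t x)
      rw [zero_add, hΦ0 _ (hmaps t x hx)])
    exact congrFun h3 s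
  refine ⟨Φ, hmaps, hΦ0, hadd, fun x hx t => (hΦ x hx).2 t, ?_⟩
  intro T x hx
  -- uniform step along the compact trajectory
  have hLc : IsCompact ((fun t => Φ t x) '' Icc (-|T|) |T|) :=
    isCompact_Icc.image (hΦ x hx).continuous
  obtain ⟨τ, hτ, hsmall⟩ := diff_small hX hV.1 hΦ hΦ0 hLc (by
    rintro _ ⟨t, -, rfl⟩
    exact hmaps t x hx)
  obtain ⟨k, hk⟩ := exists_nat_gt (|T| / τ)
  have hk0 : (0 : ℝ) < k := lt_of_le_of_lt (by positivity) hk
  set σ := T / k with hσ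
  have hστ : |σ| ≤ τ := by
    rw [hσ, abs_div, abs_of_pos hk0, div_le_iff₀ hk0]
    rw [div_lt_iff₀ hτ] at hk
    linarith
  have hind : ∀ j : ℕ, j ≤ k → DifferentiableWithinAt ℂ (Φ (j * σ)) X x := by
    intro j
    induction j with
    | zero =>
      intro _
      refine (differentiableWithinAt_id (𝕜 := ℂ)).congr (fun y hy => ?_) ?_
      · rw [Nat.cast_zero, zero_mul, hΦ0 y hy, id]
      · rw [Nat.cast_zero, zero_mul, hΦ0 x hx, id]
    | succ j ih =>
      intro hj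
      have h1 := ih (by omega)
      have h2 : Φ (j * σ) x ∈ (fun t => Φ t x) '' Icc (-|T|) |T| := by
        refine ⟨j * σ, ?_, rfl⟩
        rw [mem_Icc, ← abs_le, hσ, abs_mul, abs_div, abs_of_pos hk0, Nat.abs_cast]
        have h3 : (j : ℝ) ≤ k := by exact_mod_cast (by omega : j ≤ k)
        calc (j : ℝ) * (|T| / k) ≤ k * (|T| / k) := by gcongr
          _ = |T| := by field_simp
      have h3 := hsmall σ hστ _ h2
      have h4 : DifferentiableWithinAt ℂ (fun y => Φ σ (Φ (j * σ) y)) X x :=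
        h3.comp x h1 (fun y hy => hmaps _ y hy)
      refine h4.congr (fun y hy => ?_) ?_
      · rw [← hadd _ _ y hy]; congr 1; push_cast; ring
      · rw [← hadd _ _ x hx]; congr 1; push_cast; ring
  have h5 := hind k le_rfl
  have h6 : (k : ℝ) * σ = T := by rw [hσ]; field_simp
  rwa [h6] at h5

/-- The compact neighbourhood of size `1` in `X`. -/
theorem compact_nhd (hX : IsClosed X) {K : Set E} (hK : IsCompact K) (a : ℝ) :
    IsCompact (X ∩ cthickening a K) := hK.cthickening.inter_left hX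

/-- First order estimate for the flow, uniformly on compact sets. -/
theorem IsFlow.estimate (hX : Mfd X) {V : E → E} (hV : IsVF X V) {φ : ℝ → E → E}
    (hφ : IsFlow X V φ) {K : Set E} (hK : IsCompact K) (hKX : K ⊆ X) {f : E → F}
    (hf : DifferentiableOn ℂ f X) : ∃ τ > 0, ∃ C > 0, ∀ t, |t| ≤ τ → ∀ x ∈ K,
      φ t x ∈ X ∩ cthickening 1 K ∧ ‖φ t x - x‖ ≤ C * |t| ∧ ‖f (φ t x) - f x‖ ≤ C * |t| ∧
      ‖f (φ t x) - f x - t • fderivWithin ℂ f X x (V x)‖ ≤ C * t ^ 2 := by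
  have hK1 := compact_nhd hX.closed hK 1
  have hKK1 : K ⊆ X ∩ cthickening 1 K := subset_inter hKX (self_subset_cthickening _)
  obtain ⟨M0, hM0⟩ := hK1.exists_bound_of_continuousOn (hV.1.continuousOn.mono inter_subset_left)
  set M := |M0| + 1 with hMdef
  have hM : 0 < M := by positivity
  have hMb : ∀ y ∈ X ∩ cthickening 1 K, ‖V y‖ < M := fun y hy => by
    have := hM0 y hy
    have h2 := le_abs_self M0
    rw [hMdef]; linarith
  let g : E → F := fun x => fderivWithin ℂ f X x (V x)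
  have hg : DifferentiableOn ℂ g X := hX.diff_deriv hf hV
  obtain ⟨L, hL, hgL⟩ := hX.lipschitz hg hK1 inter_subset_left
  obtain ⟨L', hL', hfL⟩ := hX.lipschitz hf hK1 inter_subset_left
  have hstay : ∀ x ∈ K, ∀ t, |t| ≤ 1 / M → ‖φ t x - x‖ ≤ M * |t| ∧ φ t x ∈ X ∩ cthickening 1 K := by
    intro x hx t ht
    have h1 := (hφ.curve (hKX hx)).stay (a := 1) hM (fun y hy hya => by
      refine hMb y ⟨hy, ?_⟩
      simp only [hφ.zero x (hKX hx)] at hya
      exact mem_cthickening_of_dist_le y x 1 K hx (by rwa [dist_eq_norm])) (t := t) (by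
        rw [le_div_iff₀ hM] at ht; linarith)
    simp only [hφ.zero x (hKX hx)] at h1
    refine ⟨h1, hφ.maps t x (hKX hx), mem_cthickening_of_dist_le _ x 1 K hx ?_⟩
    rw [dist_eq_norm]
    refine h1.trans ?_
    rw [le_div_iff₀ hM] at ht
    linarith
  refine ⟨1 / M, by positivity, max M (max (L' * M) (L * M)), lt_max_of_lt_left hM,
    fun t ht x hx => ?_⟩
  obtain ⟨h1, h2⟩ := hstay x hx t ht
  refine ⟨h2, h1.trans (by gcongr; exact le_max_left _ _), ?_, ?_⟩
  · calc ‖f (φ t x) - f x‖ ≤ L' * ‖φ t x - x‖ := hfL _ h2 _ (hKK1 hx)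
      _ ≤ L' * (M * |t|) := by gcongr
      _ = L' * M * |t| := by ring
      _ ≤ max M (max (L' * M) (L * M)) * |t| := by
          gcongr
          exact (le_max_left _ _).trans (le_max_right _ _)
  · have hd : ∀ s, HasDerivAt (fun s => f (φ s x) - s • g x) (g (φ s x) - g x) s := by
      intro s
      have h3 := (Mfd.curve (fun s => hφ.maps s x (hKX hx)) (hφ.deriv x (hKX hx) s)).2 f
        (hf _ (hφ.maps s x (hKX hx)))
      have h4 : HasDerivAt (fun s : ℝ => s • g x) ((1 : ℝ) • g x) s :=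
        (hasDerivAt_id s).smul_const (g x)
      rw [one_smul] at h4
      exact h3.sub h4
    have h5 := (convex_uIcc (0 : ℝ) t).norm_image_sub_le_of_norm_hasDerivWithin_le
      (f := fun s => f (φ s x) - s • g x) (f' := fun s => g (φ s x) - g x)
      (C := L * M * |t|) (x := 0) (y := t)
      (fun s _ => (hd s).hasDerivWithinAt) (fun s hs => ?_) left_mem_uIcc right_mem_uIcc
    · simp only [hφ.zero x (hKX hx), zero_smul, sub_zero, Real.norm_eq_abs] at h5
      have h6 : f (φ t x) - f x - t • g x = f (φ t x) - t • g x - f x := by abel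
      show ‖f (φ t x) - f x - t • g x‖ ≤ _
      rw [h6]
      refine h5.trans ?_
      calc L * M * |t| * |t| = L * M * t ^ 2 := by rw [mul_assoc, ← sq, sq_abs]
        _ ≤ max M (max (L' * M) (L * M)) * t ^ 2 := by
            gcongr
            exact (le_max_right _ _).trans (le_max_right _ _)
    · have hst : |s| ≤ |t| := by
        have := abs_sub_left_of_mem_uIcc hs
        simpa using this
      obtain ⟨h6, h7⟩ := hstay x hx s (hst.trans ht)
      calc ‖g (φ s x) - g x‖ ≤ L * ‖φ s x - x‖ := hgL _ h7 _ (hKK1 hx)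
        _ ≤ L * (M * |s|) := by gcongr
        _ ≤ L * (M * |t|) := by gcongr
        _ = L * M * |t| := by ring

end H67.Tame
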