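import Mathlib
import Pool.Agent.H67.Tame.Flow2

/-! Under the density property, every holomorphic vector field is a limit of finite sums of
complete ones. -/

namespace H67.Tame

open Set Filter Topology Metric

variable {E : Type*} [NormedAddCommGroup E] [InnerProductSpace ℂ E] [FiniteDimensional ℂ E]
variable {X : Set E}

/-- Lists of complete holomorphic vector fields. -/
def CList (X : Set E) (l : List (E → E)) : Prop := ∀ W ∈ l, IsVF X W ∧ IsComplete X W

/-- The locally uniform closure of the set of finite sums of complete fields. -/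
def Cl (X : Set E) (V : E → E) : Prop :=
  DifferentiableOn ℂ V X ∧ ∀ K ⊆ X, IsCompact K → ∀ ε > 0,
    ∃ l, CList X l ∧ ∀ x ∈ K, ‖l.sum x - V x‖ < ε

theorem CList.isVF {l : List (E → E)} (hl : CList X l) : IsVF X l.sum := by
  induction l with
  | nil =>
    rw [List.sum_nil]
    exact ⟨differentiableOn_const _, fun x _ => (tang X x).zero_mem⟩
  | cons W l ih =>
    rw [List.sum_cons]
    exact (hl W (List.mem_cons_self ..)).1.add (ih fun U hU => hl U (List.mem_cons_of_mem _ hU))

theorem Cl.isVF {V : E → E} (h : Cl X V) : IsVF X V := by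
  refine ⟨h.1, fun x hx => ?_⟩
  have hcl : IsClosed (tang X x : Set E) := Submodule.closed_of_finiteDimensional _
  have h1 : V x ∈ closure (tang X x : Set E) := by
    rw [Metric.mem_closure_iff]
    intro ε hε
    obtain ⟨l, hl, h2⟩ := h.2 {x} (singleton_subset_iff.2 hx) isCompact_singleton ε hε
    refine ⟨l.sum x, hl.isVF.2 x hx, ?_⟩
    rw [dist_comm, dist_eq_norm]
    exact h2 x rfl
  rwa [hcl.closure_eq] at h1

theorem Cl.of_approx {V : E → E} (hV : DifferentiableOn ℂ V X)
    (h : ∀ K ⊆ X, IsCompact K → ∀ ε > 0, ∃ U, Cl X U ∧ ∀ x ∈ K, ‖U x - V x‖ < ε) : Cl X V := by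
  refine ⟨hV, fun K hKX hK ε hε => ?_⟩
  obtain ⟨U, hU, h1⟩ := h K hKX hK (ε / 2) (half_pos hε)
  obtain ⟨l, hl, h2⟩ := hU.2 K hKX hK (ε / 2) (half_pos hε)
  refine ⟨l, hl, fun x hx => ?_⟩
  calc ‖l.sum x - V x‖ = ‖(l.sum x - U x) + (U x - V x)‖ := by congr 1; abel
    _ ≤ ‖l.sum x - U x‖ + ‖U x - V x‖ := norm_add_le _ _
    _ < ε := by linarith [h1 x hx, h2 x hx]

theorem Cl.congr {V W : E → E} (h : Cl X V) (hVW : ∀ x ∈ X, V x = W x) : Cl X W := by
  refine ⟨h.1.congr fun x hx => (hVW x hx).symm, fun K hKX hK ε hε => ?_⟩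
  obtain ⟨l, hl, h2⟩ := h.2 K hKX hK ε hε
  exact ⟨l, hl, fun x hx => by rw [← hVW x (hKX hx)]; exact h2 x hx⟩

theorem Cl.of_complete {V : E → E} (hV : IsVF X V) (hc : IsComplete X V) : Cl X V :=
  ⟨hV.1, fun K _ _ ε hε => ⟨[V], by simpa [CList] using ⟨hV, hc⟩, fun x _ => by simpa using hε⟩⟩

theorem Cl.add {V W : E → E} (hV : Cl X V) (hW : Cl X W) : Cl X (V + W) := by
  refine ⟨hV.1.add hW.1, fun K hKX hK ε hε => ?_⟩
  obtain ⟨l, hl, h1⟩ := hV.2 K hKX hK (ε / 2) (half_pos hε)
  obtain ⟨l', hl', h2⟩ := hW.2 K hKX hK (ε / 2) (half_pos hε)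
  refine ⟨l ++ l', fun U hU => ?_, fun x hx => ?_⟩
  · rcases List.mem_append.1 hU with h | h
    · exact hl U h
    · exact hl' U h
  · rw [List.sum_append]
    calc ‖(l.sum + l'.sum) x - (V + W) x‖ = ‖(l.sum x - V x) + (l'.sum x - W x)‖ := by
          congr 1; simp only [Pi.add_apply]; abel
      _ ≤ ‖l.sum x - V x‖ + ‖l'.sum x - W x‖ := norm_add_le _ _
      _ < ε := by linarith [h1 x hx, h2 x hx]

theorem IsComplete.smul {V : E → E} (h : IsComplete X V) (c : ℝ) : IsComplete X (c • V) := by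
  intro x hx
  obtain ⟨γ, h0, h1, h2⟩ := h x hx
  refine ⟨fun t => γ (c * t), by simp [h0], fun t => h1 _, fun t => ?_⟩
  have h3 : HasDerivAt (fun t : ℝ => c * t) c t := by
    simpa using (hasDerivAt_id t).const_mul c
  exact HasDerivAt.scomp t (h2 (c * t)) h3

theorem Cl.smul {V : E → E} (hV : Cl X V) (c : ℝ) : Cl X (c • V) := by
  refine ⟨hV.1.const_smul c, fun K hKX hK ε hε => ?_⟩
  have hc : 0 < |c| + 1 := by positivity
  obtain ⟨l, hl, h1⟩ := hV.2 K hKX hK (ε / (|c| + 1)) (by positivity)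
  refine ⟨l.map fun W => c • W, fun U hU => ?_, fun x hx => ?_⟩
  · obtain ⟨W, hW, rfl⟩ := List.mem_map.1 hU
    exact ⟨(hl W hW).1.const_smul c, (hl W hW).2.smul c⟩
  · have h2 : (l.map fun W => c • W).sum = c • l.sum := (List.smul_sum).symm
    rw [h2]
    have h3 : (c • l.sum) x - (c • V) x = c • (l.sum x - V x) := by
      simp only [Pi.smul_apply, smul_sub]
    rw [h3, norm_smul, Real.norm_eq_abs]
    have h4 := h1 x hx
    rw [lt_div_iff₀ hc] at h4
    have h5 := norm_nonneg (l.sum x - V x)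
    nlinarith [abs_nonneg c]

/-- The bracket at points of `X`. -/
theorem bracket_apply (V W : E → E) (x : E) : VectorField.lieBracketWithin ℂ V W X x =
    fderivWithin ℂ W X x (V x) - fderivWithin ℂ V X x (W x) := rfl

theorem diff_bracket (hX : Mfd X) {V W : E → E} (hV : IsVF X V) (hW : IsVF X W) :
    DifferentiableOn ℂ (VectorField.lieBracketWithin ℂ V W X) X := by
  have h1 := hX.diff_deriv hW.1 hV
  have h2 := hX.diff_deriv hV.1 hW
  exact h1.sub h2

theorem fderivWithin_add_apply (hX : Mfd X) {V W : E → E} (hV : DifferentiableOn ℂ V X)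
    (hW : DifferentiableOn ℂ W X) {x : E} (hx : x ∈ X) {v : E} (hv : v ∈ tang X x) :
    fderivWithin ℂ (V + W) X x v = fderivWithin ℂ V X x v + fderivWithin ℂ W X x v :=
  hX.fderivWithin_eq hx ((hV x hx).hasFDerivWithinAt.add (hW x hx).hasFDerivWithinAt) hv

theorem bracket_add_right (hX : Mfd X) {V W W' : E → E} (hV : IsVF X V) (hW : IsVF X W)
    (hW' : IsVF X W') {x : E} (hx : x ∈ X) :
    VectorField.lieBracketWithin ℂ V (W + W') X x = VectorField.lieBracketWithin ℂ V W X x +
      VectorField.lieBracketWithin ℂ V W' X x := by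
  simp only [bracket_apply]
  rw [fderivWithin_add_apply hX hW.1 hW'.1 hx (hV.2 x hx), Pi.add_apply, map_add]
  abel

theorem bracket_swap (V W : E → E) (x : E) :
    VectorField.lieBracketWithin ℂ V W X x = -VectorField.lieBracketWithin ℂ W V X x := by
  simp only [bracket_apply]
  abel

/-- Continuity of the bracket in its second argument. -/
theorem bracket_cont (hX : Mfd X) {V W : E → E} (hV : IsVF X V) (hW : IsVF X W) {K : Set E}
    (hK : IsCompact K) (hKX : K ⊆ X) : ∃ C > 0, ∃ K' ⊆ X, IsCompact K' ∧ ∀ W', IsVF X W' →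
      ∀ δ > 0, (∀ x ∈ K', ‖W' x - W x‖ < δ) → ∀ x ∈ K,
      ‖VectorField.lieBracketWithin ℂ V W' X x - VectorField.lieBracketWithin ℂ V W X x‖ ≤
        C * δ := by
  obtain ⟨C, hC, K', hK'X, hK', hKK', h1⟩ := hX.cauchy (F := E) hK hKX
  obtain ⟨M, hM⟩ := hK'.exists_bound_of_continuousOn (hV.1.continuousOn.mono hK'X)
  have hMp : ∀ x ∈ K', ‖V x‖ ≤ |M| := fun x hx => (hM x hx).trans (le_abs_self M)
  refine ⟨C * |M| + C * |M| + 1, by positivity, K', hK'X, hK', fun W' hW' δ hδ hd x hx => ?_⟩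
  have hxX := hKX hx
  have hxK' := hKK' hx
  have hsub : IsVF X (W' - W) := ⟨hW'.1.sub hW.1, fun y hy =>
    (tang X y).sub_mem (hW'.2 y hy) (hW.2 y hy)⟩
  have h2 : fderivWithin ℂ W' X x (V x) - fderivWithin ℂ W X x (V x) =
      fderivWithin ℂ (W' - W) X x (V x) :=
    (hX.fderivWithin_eq hxX ((hW'.1 x hxX).hasFDerivWithinAt.sub
      (hW.1 x hxX).hasFDerivWithinAt) (hV.2 x hxX)).symm
  have h3 := h1 (W' - W) hsub.1 δ (fun y hy => (hd y hy).le) x hx (V x) (hV.2 x hxX)
  have h4 := h1 V hV.1 |M| hMp x hx (W' x - W x) (hsub.2 x hxX)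
  have h5 : VectorField.lieBracketWithin ℂ V W' X x - VectorField.lieBracketWithin ℂ V W X x =
      (fderivWithin ℂ W' X x (V x) - fderivWithin ℂ W X x (V x)) -
        fderivWithin ℂ V X x (W' x - W x) := by
    simp only [bracket_apply, map_sub]
    abel
  rw [h5, h2]
  refine (norm_sub_le _ _).trans ?_
  have h6 : C * δ * ‖V x‖ ≤ C * δ * |M| := by gcongr; exact hMp x hxK'
  have h7 : C * |M| * ‖W' x - W x‖ ≤ C * |M| * δ := by gcongr; exact (hd x hxK').le
  nlinarith

/-- Push-forward of a complete field by the flow of a complete field. -/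
theorem push_complete (hX : Mfd X) {V W : E → E} {φ : ℝ → E → E} (hφ : IsFlow X V φ)
    (hW : IsVF X W) (hc : IsComplete X W) (t : ℝ) :
    IsVF X (fun x => fderivWithin ℂ (φ t) X (φ (-t) x) (W (φ (-t) x))) ∧
    IsComplete X (fun x => fderivWithin ℂ (φ t) X (φ (-t) x) (W (φ (-t) x))) := by
  have hinv : ∀ x ∈ X, φ (-t) (φ t x) = x := fun x hx => by
    rw [← hφ.add _ _ x hx, neg_add_cancel, hφ.zero x hx]
  have hinv' : ∀ x ∈ X, φ t (φ (-t) x) = x := fun x hx => by
    rw [← hφ.add _ _ x hx, add_neg_cancel, hφ.zero x hx]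
  have hcurve : ∀ x ∈ X, ∃ γ : ℝ → E, γ 0 = x ∧ (∀ s, γ s ∈ X) ∧ ∀ s, HasDerivAt γ
      (fderivWithin ℂ (φ t) X (φ (-t) (γ s)) (W (φ (-t) (γ s)))) s := by
    intro x hx
    obtain ⟨β, hβ0, hβX, hβd⟩ := hc (φ (-t) x) (hφ.maps _ x hx)
    refine ⟨fun s => φ t (β s), by simp only [hβ0, hinv' x hx], fun s => hφ.maps _ _ (hβX s),
      fun s => ?_⟩
    have h1 := (Mfd.curve (F := E) hβX (hβd s)).2 (φ t) (hφ.diff t _ (hβX s))
    simp only [hinv _ (hβX s)]
    exact h1
  refine ⟨⟨?_, fun x hx => ?_⟩, hcurve⟩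
  · have h1 := hX.diff_deriv (hφ.diff t) hW
    exact h1.comp (hφ.diff (-t)) (fun x hx => hφ.maps _ x hx)
  · obtain ⟨γ, h0, h1, h2⟩ := hcurve x hx
    have h3 := (Mfd.curve (F := E) h1 (h2 0)).1
    rwa [h0] at h3

theorem Cl.bracket_complete (hX : Mfd X) {V W : E → E} (hV : IsVF X V) (hVc : IsComplete X V)
    (hW : IsVF X W) (hWc : IsComplete X W) :
    Cl X (VectorField.lieBracketWithin ℂ V W X) := by
  obtain ⟨φ, hφ⟩ := exists_flow hX hV hVc
  refine ⟨diff_bracket hX hV hW, fun K hKX hK ε hε => ?_⟩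
  have hK1 := compact_nhd hX.closed hK 1
  have hKK1 : K ⊆ X ∩ cthickening 1 K := subset_inter hKX (self_subset_cthickening _)
  obtain ⟨Cc, hCc, K', hK'X, hK', hK1K', hcau⟩ := hX.cauchy (F := E) hK1 inter_subset_left
  -- estimates
  obtain ⟨τ1, hτ1, C1, hC1, e1⟩ := hφ.estimate hX hV hK' hK'X (f := fun x : E => x)
    differentiableOn_id
  obtain ⟨τ2, hτ2, C2, hC2, e2⟩ := hφ.estimate hX hV hK hKX (f := W) hW.1
  obtain ⟨τ3, hτ3, C3, hC3, e3⟩ := hφ.estimate hX hV hK hKX
    (f := fun x => fderivWithin ℂ V X x (W x)) (hX.diff_deriv hV.1 hW)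
  obtain ⟨M, hM⟩ := hK1.exists_bound_of_continuousOn (hW.1.continuousOn.mono inter_subset_left)
  set D := Cc * C1 * |M| + C2 + C3 with hD
  have hDpos : 0 < D := by positivity
  obtain ⟨t, ht, htb⟩ : ∃ t > 0, t < min (min τ1 τ2) (min τ3 (ε / D)) :=
    exists_between (lt_min (lt_min hτ1 hτ2) (lt_min hτ3 (by positivity)))
  have ht1 : t ≤ τ1 := (htb.le.trans (min_le_left _ _)).trans (min_le_left _ _)
  have ht2 : t ≤ τ2 := (htb.le.trans (min_le_left _ _)).trans (min_le_right _ _)
  have ht3 : t ≤ τ3 := (htb.le.trans (min_le_right _ _)).trans (min_le_left _ _)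
  have ht4 : t < ε / D := htb.trans_le ((min_le_right _ _).trans (min_le_right _ _))
  let P : E → E := fun x => fderivWithin ℂ (φ t) X (φ (-t) x) (W (φ (-t) x))
  have hP := push_complete hX hφ hW hWc t
  -- main expansion
  have hexp : ∀ x ∈ K, ‖P x - W x + t • VectorField.lieBracketWithin ℂ V W X x‖ ≤ D * t ^ 2 := by
    intro x hx
    have hxX := hKX hx
    have habs : |(-t)| ≤ τ2 := by rwa [abs_neg, abs_of_pos ht]
    have habs3 : |(-t)| ≤ τ3 := by rwa [abs_neg, abs_of_pos ht]
    obtain ⟨hyK1, -, -, h2⟩ := e2 (-t) habs x hx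
    obtain ⟨-, -, h3, -⟩ := e3 (-t) habs3 x hx
    set y := φ (-t) x with hy
    have hyX : y ∈ X := hyK1.1
    have hyW : ‖W y‖ ≤ |M| := (hM y hyK1).trans (le_abs_self M)
    -- derivative of the remainder
    let R : E → E := fun z => φ t z - z - t • V z
    have hRd : DifferentiableOn ℂ R X :=
      ((hφ.diff t).sub differentiableOn_id).sub (hV.1.const_smul t)
    have hRb : ∀ z ∈ K', ‖R z‖ ≤ C1 * t ^ 2 := by
      intro z hz
      obtain ⟨-, -, -, h4⟩ := e1 t (by rwa [abs_of_pos ht]) z hz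
      have h5 : fderivWithin ℂ (fun x : E => x) X z (V z) = V z := by
        have h6 : HasFDerivWithinAt (fun x : E => x) (ContinuousLinearMap.id ℂ E) X z :=
          hasFDerivWithinAt_id z X
        rw [hX.fderivWithin_eq (hK'X hz) h6 (hV.2 z (hK'X hz))]
        rfl
      rw [h5] at h4
      exact h4
    have hRder := hcau R hRd (C1 * t ^ 2) hRb y hyK1 (W y) (hW.2 y hyX)
    have hReq : fderivWithin ℂ R X y (W y) = fderivWithin ℂ (φ t) X y (W y) - W y -
        t • fderivWithin ℂ V X y (W y) := by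
      have h4 : HasFDerivWithinAt R (fderivWithin ℂ (φ t) X y - ContinuousLinearMap.id ℂ E -
          t • fderivWithin ℂ V X y) X y :=
        (((hφ.diff t) y hyX).hasFDerivWithinAt.sub (hasFDerivWithinAt_id y X)).sub
          ((hV.1 y hyX).hasFDerivWithinAt.const_smul t)
      rw [hX.fderivWithin_eq hyX h4 (hW.2 y hyX)]
      rfl
    rw [hReq] at hRder
    have hPx : P x = fderivWithin ℂ (φ t) X y (W y) := rfl
    have h7 : P x - W x + t • VectorField.lieBracketWithin ℂ V W X x =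
        (fderivWithin ℂ (φ t) X y (W y) - W y - t • fderivWithin ℂ V X y (W y)) +
        (W y - W x - (-t) • fderivWithin ℂ W X x (V x)) +
        t • (fderivWithin ℂ V X y (W y) - fderivWithin ℂ V X x (W x)) := by
      rw [hPx, bracket_apply]
      simp only [smul_sub, neg_smul]
      abel
    rw [h7]
    refine norm_add₃_le.trans ?_
    have h8 : ‖t • (fderivWithin ℂ V X y (W y) - fderivWithin ℂ V X x (W x))‖ ≤ C3 * t ^ 2 := by
      rw [norm_smul, Real.norm_of_nonneg ht.le]
      have h9 : ‖fderivWithin ℂ V X y (W y) - fderivWithin ℂ V X x (W x)‖ ≤ C3 * |(-t)| := h3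
      rw [abs_neg, abs_of_pos ht] at h9
      calc t * ‖fderivWithin ℂ V X y (W y) - fderivWithin ℂ V X x (W x)‖ ≤ t * (C3 * t) := by
            gcongr
        _ = C3 * t ^ 2 := by ring
    have h10 : Cc * (C1 * t ^ 2) * ‖W y‖ ≤ Cc * (C1 * t ^ 2) * |M| := by gcongr
    have h11 : ‖W y - W x - (-t) • fderivWithin ℂ W X x (V x)‖ ≤ C2 * t ^ 2 := by
      have : (-t) ^ 2 = t ^ 2 := by ring
      rw [this] at h2
      exact h2
    calc _ ≤ Cc * (C1 * t ^ 2) * |M| + C2 * t ^ 2 + C3 * t ^ 2 :=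
          add_le_add (add_le_add (hRder.trans h10) h11) h8
      _ = D * t ^ 2 := by rw [hD]; ring
  refine ⟨[(-(1 / t)) • P, (1 / t) • W], ?_, fun x hx => ?_⟩
  · intro U hU
    simp only [List.mem_cons, List.not_mem_nil, or_false] at hU
    rcases hU with rfl | rfl
    · exact ⟨hP.1.const_smul _, hP.2.smul _⟩
    · exact ⟨hW.const_smul _, hWc.smul _⟩
  · have h1 := hexp x hx
    have h2 : [(-(1 / t)) • P, (1 / t) • W].sum x - VectorField.lieBracketWithin ℂ V W X x =
        (-(1 / t)) • (P x - W x + t • VectorField.lieBracketWithin ℂ V W X x) := by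
      have h3 : -(1 / t) * t = -1 := by field_simp
      simp only [List.sum_cons, List.sum_nil, add_zero, Pi.add_apply, Pi.smul_apply]
      rw [smul_add, smul_sub, smul_smul, h3, neg_smul, neg_smul, neg_smul, one_smul]
      abel
    rw [h2, norm_smul, Real.norm_eq_abs, abs_neg, abs_of_pos (by positivity)]
    calc 1 / t * ‖P x - W x + t • VectorField.lieBracketWithin ℂ V W X x‖
        ≤ 1 / t * (D * t ^ 2) := by gcongr
      _ = D * t := by field_simp
      _ < ε := by rw [lt_div_iff₀ hDpos] at ht4; linarith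

theorem Cl.bracket_left (hX : Mfd X) {V W : E → E} (hV : IsVF X V) (hVc : IsComplete X V)
    (hW : Cl X W) : Cl X (VectorField.lieBracketWithin ℂ V W X) := by
  have hlist : ∀ l, CList X l → Cl X (VectorField.lieBracketWithin ℂ V l.sum X) := by
    intro l
    induction l with
    | nil =>
      intro _
      have h0 : Cl X (0 : E → E) := ⟨differentiableOn_const _, fun K _ _ ε hε =>
        ⟨[], by simp [CList], fun x _ => by simpa using hε⟩⟩
      refine h0.congr fun x hx => ?_
      rw [bracket_apply, List.sum_nil, Pi.zero_apply, map_zero, sub_zero]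
      have h1 : HasFDerivWithinAt (0 : E → E) (0 : E →L[ℂ] E) X x :=
        hasFDerivWithinAt_const (0 : E) x X
      rw [hX.fderivWithin_eq hx h1 (hV.2 x hx)]
      rfl
    | cons U l ih =>
      intro hl
      have hU := hl U (List.mem_cons_self ..)
      have hl' : CList X l := fun Z hZ => hl Z (List.mem_cons_of_mem _ hZ)
      refine ((Cl.bracket_complete hX hV hVc hU.1 hU.2).add (ih hl')).congr fun x hx => ?_
      rw [List.sum_cons, bracket_add_right hX hV hU.1 hl'.isVF hx, Pi.add_apply]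
  refine Cl.of_approx (diff_bracket hX hV hW.isVF) fun K hKX hK ε hε => ?_
  obtain ⟨C, hC, K', hK'X, hK', h1⟩ := bracket_cont hX hV hW.isVF hK hKX
  obtain ⟨l, hl, h2⟩ := hW.2 K' hK'X hK' (ε / (2 * C)) (by positivity)
  refine ⟨_, hlist l hl, fun x hx => ?_⟩
  have h3 := h1 l.sum hl.isVF (ε / (2 * C)) (by positivity) h2 x hx
  refine h3.trans_lt ?_
  have : C * (ε / (2 * C)) = ε / 2 := by field_simp
  rw [this]; linarith

theorem Cl.neg {V : E → E} (h : Cl X V) : Cl X (fun x => -V x) := by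
  refine (h.smul (-1)).congr fun x _ => ?_
  simp

theorem Cl.bracket (hX : Mfd X) {V W : E → E} (hV : Cl X V) (hW : Cl X W) :
    Cl X (VectorField.lieBracketWithin ℂ V W X) := by
  have hlist : ∀ l, CList X l → Cl X (VectorField.lieBracketWithin ℂ W l.sum X) := by
    intro l
    induction l with
    | nil =>
      intro _
      have h0 : Cl X (0 : E → E) := ⟨differentiableOn_const _, fun K _ _ ε hε =>
        ⟨[], by simp [CList], fun x _ => by simpa using hε⟩⟩
      refine h0.congr fun x hx => ?_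
      rw [bracket_apply, List.sum_nil, Pi.zero_apply, map_zero, sub_zero]
      have h1 : HasFDerivWithinAt (0 : E → E) (0 : E →L[ℂ] E) X x :=
        hasFDerivWithinAt_const (0 : E) x X
      rw [hX.fderivWithin_eq hx h1 (hW.isVF.2 x hx)]
      rfl
    | cons U l ih =>
      intro hl
      have hU := hl U (List.mem_cons_self ..)
      have hl' : CList X l := fun Z hZ => hl Z (List.mem_cons_of_mem _ hZ)
      have h1 := (Cl.bracket_left hX hU.1 hU.2 hW).neg
      refine (h1.add (ih hl')).congr fun x hx => ?_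
      rw [List.sum_cons, bracket_add_right hX hW.isVF hU.1 hl'.isVF hx, Pi.add_apply,
        ← bracket_swap]
  have hswap : Cl X (VectorField.lieBracketWithin ℂ W V X) := by
    refine Cl.of_approx (diff_bracket hX hW.isVF hV.isVF) fun K hKX hK ε hε => ?_
    obtain ⟨C, hC, K', hK'X, hK', h1⟩ := bracket_cont hX hW.isVF hV.isVF hK hKX
    obtain ⟨l, hl, h2⟩ := hV.2 K' hK'X hK' (ε / (2 * C)) (by positivity)
    refine ⟨_, hlist l hl, fun x hx => ?_⟩
    have h3 := h1 l.sum hl.isVF (ε / (2 * C)) (by positivity) h2 x hx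
    refine h3.trans_lt ?_
    have : C * (ε / (2 * C)) = ε / 2 := by field_simp
    rw [this]; linarith
  exact hswap.neg.congr fun x _ => (bracket_swap V W x).symm

theorem LieGen.cl (hX : Mfd X) {V : E → E} (h : LieGen X V) : Cl X V := by
  induction h with
  | complete V hV hc => exact Cl.of_complete hV hc
  | add V W _ _ h1 h2 => exact h1.add h2
  | smul c V _ h1 => exact h1.smul c
  | bracket V W _ _ h1 h2 => exact h1.bracket hX h2

theorem DensityProperty.cl (hX : Mfd X) (hD : DensityProperty X) {V : E → E} (hV : IsVF X V) :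
    Cl X V := by
  refine Cl.of_approx hV.1 fun K hKX hK ε hε => ?_
  obtain ⟨W, hW, h⟩ := hD V hV K hKX hK ε hε
  exact ⟨W, hW.cl hX, h⟩

end H67.Tame
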