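import Mathlib
import Pool.Agent.H67.Tame.Span

/-! Compositions of flows of finitely many complete fields: first order estimates. -/

namespace H67.Tame

open Set Filter Topology Metric

variable {E : Type*} [NormedAddCommGroup E] [InnerProductSpace ℂ E] [FiniteDimensional ℂ E]
variable {X : Set E}

/-- A pair of mutually inverse holomorphic maps of `X`. -/
structure Au (X : Set E) (g g' : E → E) : Prop where
  d : DifferentiableOn ℂ g X
  d' : DifferentiableOn ℂ g' X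
  m : ∀ x ∈ X, g x ∈ X
  m' : ∀ x ∈ X, g' x ∈ X
  l : ∀ x ∈ X, g' (g x) = x
  r : ∀ x ∈ X, g (g' x) = x

theorem Au.comp {g g' h h' : E → E} (hg : Au X g g') (hh : Au X h h') :
    Au X (fun x => g (h x)) (fun x => h' (g' x)) :=
  ⟨hg.d.comp hh.d hh.m, hh.d'.comp hg.d' hg.m', fun x hx => hg.m _ (hh.m x hx),
    fun x hx => hh.m' _ (hg.m' x hx), fun x hx => by
      show h' (g' (g (h x))) = x
      rw [hg.l _ (hh.m x hx), hh.l x hx], fun x hx => by
      show g (h (h' (g' x))) = x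
      rw [hh.r _ (hg.m' x hx), hg.r x hx]⟩

theorem Au.id : Au X (fun x => x) (fun x => x) :=
  ⟨differentiableOn_id, differentiableOn_id, fun _ h => h, fun _ h => h, fun _ _ => rfl,
    fun _ _ => rfl⟩

theorem Au.symm {g g' : E → E} (h : Au X g g') : Au X g' g := ⟨h.d', h.d, h.m', h.m, h.r, h.l⟩

theorem IsFlow.au {V : E → E} {φ : ℝ → E → E} (hφ : IsFlow X V φ) (t : ℝ) :
    Au X (φ t) (φ (-t)) :=
  ⟨hφ.diff t, hφ.diff (-t), hφ.maps t, hφ.maps (-t), fun x hx => by
    rw [← hφ.add _ _ x hx, neg_add_cancel, hφ.zero x hx], fun x hx => by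
    rw [← hφ.add _ _ x hx, add_neg_cancel, hφ.zero x hx]⟩

/-- Lipschitz estimates for the flow. -/
theorem IsFlow.estimate2 (hX : Mfd X) {V : E → E} (hV : IsVF X V) {φ : ℝ → E → E}
    (hφ : IsFlow X V φ) {K : Set E} (hK : IsCompact K) (hKX : K ⊆ X) :
    ∃ τ > 0, ∃ C > 0, (∀ t, |t| ≤ τ → ∀ x ∈ K, φ t x ∈ X ∩ cthickening 1 K ∧
      ‖φ t x - x‖ ≤ C * |t|) ∧
      (∀ t t' η, |t| ≤ η → |t'| ≤ η → η ≤ τ → ∀ x ∈ K,
        ‖φ t x - φ t' x - (t - t') • V x‖ ≤ C * η * |t - t'|) ∧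
      (∀ t, |t| ≤ τ → ∀ x ∈ K, ∀ y ∈ K, ‖(φ t x - φ t y) - (x - y)‖ ≤ C * |t| * ‖x - y‖) := by
  obtain ⟨τ, hτ, C, hC, h1⟩ := hφ.estimate hX hV hK hKX (f := fun x : E => x)
    differentiableOn_id
  have hK1 := compact_nhd hX.closed hK 1
  have hKK1 : K ⊆ X ∩ cthickening 1 K := subset_inter hKX (self_subset_cthickening _)
  obtain ⟨L, hL, hVL⟩ := hX.lipschitz hV.1 hK1 inter_subset_left
  set τ' := min τ (1 / L) with hτ'
  have hτ'pos : 0 < τ' := lt_min hτ (by positivity)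
  have hτ'1 : τ' ≤ τ := min_le_left _ _
  have hτ'2 : τ' ≤ 1 / L := min_le_right _ _
  refine ⟨τ', hτ'pos, max C (max (L * C) (3 * L)), lt_max_of_lt_left hC, ?_, ?_, ?_⟩
  · intro t ht x hx
    obtain ⟨h2, h3, -, -⟩ := h1 t (ht.trans hτ'1) x hx
    exact ⟨h2, h3.trans (by gcongr; exact le_max_left _ _)⟩
  · intro t t' η ht ht' hη x hx
    have hd : ∀ s, HasDerivAt (fun s => φ s x - s • V x) (V (φ s x) - V x) s := by
      intro s
      have h4 : HasDerivAt (fun s : ℝ => s • V x) ((1 : ℝ) • V x) s :=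
        (hasDerivAt_id s).smul_const (V x)
      rw [one_smul] at h4
      exact (hφ.deriv x (hKX hx) s).sub h4
    have h5 := (convex_uIcc t' t).norm_image_sub_le_of_norm_hasDerivWithin_le
      (f := fun s => φ s x - s • V x) (f' := fun s => V (φ s x) - V x)
      (C := L * C * η) (x := t') (y := t)
      (fun s _ => (hd s).hasDerivWithinAt) (fun s hs => ?_) left_mem_uIcc right_mem_uIcc
    · have h6 : φ t x - φ t' x - (t - t') • V x = φ t x - t • V x - (φ t' x - t' • V x) := by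
        rw [sub_smul]; abel
      rw [h6]
      refine h5.trans ?_
      rw [Real.norm_eq_abs]
      have hη0 : 0 ≤ η := (abs_nonneg t).trans ht
      have h7 : L * C ≤ max C (max (L * C) (3 * L)) := (le_max_left _ _).trans (le_max_right _ _)
      gcongr
    · have hs' : |s| ≤ η := by
        rw [abs_le] at ht ht' ⊢
        rcases mem_uIcc.1 hs with h | h <;> constructor <;> linarith [h.1, h.2]
      obtain ⟨h6, h7, -, -⟩ := h1 s (hs'.trans (hη.trans hτ'1)) x hx
      calc ‖V (φ s x) - V x‖ ≤ L * ‖φ s x - x‖ := hVL _ h6 _ (hKK1 hx)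
        _ ≤ L * (C * |s|) := by gcongr
        _ ≤ L * (C * η) := by gcongr
        _ = L * C * η := by ring
  · -- Lipschitz dependence on the initial point
    have hLip : LipschitzOnWith ⟨L, hL.le⟩ V (X ∩ cthickening 1 K) :=
      LipschitzOnWith.of_dist_le_mul fun y hy z hz => by
        rw [dist_eq_norm, dist_eq_norm]; exact hVL y hy z hz
    have hexp : Real.exp 1 ≤ 3 := Real.exp_one_lt_d9.le.trans (by norm_num)
    have hgr : ∀ t, |t| ≤ τ' → ∀ x ∈ K, ∀ y ∈ K, ‖φ t x - φ t y‖ ≤ 3 * ‖x - y‖ := by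
      intro t ht x hx y hy
      have hmem : ∀ s, |s| ≤ |t| → ∀ z ∈ K, φ s z ∈ X ∩ cthickening 1 K := fun s hs z hz =>
        (h1 s (hs.trans (ht.trans hτ'1)) z hz).1
      have hbound : ‖x - y‖ * Real.exp (L * |t|) ≤ 3 * ‖x - y‖ := by
        have h2 : L * |t| ≤ 1 := by
          have := ht.trans hτ'2
          rw [le_div_iff₀ hL] at this
          linarith
        have h3 : Real.exp (L * |t|) ≤ 3 := (Real.exp_le_exp.2 h2).trans hexp
        nlinarith [norm_nonneg (x - y)]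
      rcases le_total 0 t with ht0 | ht0
      · have h2 := dist_le_of_trajectories_ODE_of_mem (v := fun _ => V)
          (s := fun _ => X ∩ cthickening 1 K) (K := ⟨L, hL.le⟩) (f := fun s => φ s x)
          (g := fun s => φ s y) (a := 0) (b := t) (δ := ‖x - y‖)
          (fun _ _ => hLip) (hφ.curve (hKX hx)).continuous.continuousOn
          (fun s _ => (hφ.deriv x (hKX hx) s).hasDerivWithinAt)
          (fun s hs => hmem s (by rw [abs_of_nonneg hs.1, abs_of_nonneg ht0]; exact hs.2.le) x hx)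
          (hφ.curve (hKX hy)).continuous.continuousOn
          (fun s _ => (hφ.deriv y (hKX hy) s).hasDerivWithinAt)
          (fun s hs => hmem s (by rw [abs_of_nonneg hs.1, abs_of_nonneg ht0]; exact hs.2.le) y hy)
          (by rw [hφ.zero x (hKX hx), hφ.zero y (hKX hy), dist_eq_norm]) t ⟨ht0, le_rfl⟩
        rw [dist_eq_norm, sub_zero] at h2
        refine h2.trans ?_
        rw [abs_of_nonneg ht0] at hbound
        exact hbound
      · have hLip' : LipschitzOnWith ⟨L, hL.le⟩ (fun z => -V z) (X ∩ cthickening 1 K) :=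
          LipschitzOnWith.of_dist_le_mul fun y hy z hz => by
            rw [dist_eq_norm, dist_eq_norm, neg_sub_neg, norm_sub_rev]; exact hVL y hy z hz
        have h2 := dist_le_of_trajectories_ODE_of_mem (v := fun _ z => -V z)
          (s := fun _ => X ∩ cthickening 1 K) (K := ⟨L, hL.le⟩) (f := fun s => φ (-s) x)
          (g := fun s => φ (-s) y) (a := 0) (b := -t) (δ := ‖x - y‖)
          (fun _ _ => hLip') (hφ.curve (hKX hx)).neg.continuous.continuousOn
          (fun s _ => ((hφ.curve (hKX hx)).neg.2 s).hasDerivWithinAt)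
          (fun s hs => hmem (-s) (by
            rw [abs_neg, abs_of_nonneg hs.1, abs_of_nonpos ht0]; exact hs.2.le) x hx)
          (hφ.curve (hKX hy)).neg.continuous.continuousOn
          (fun s _ => ((hφ.curve (hKX hy)).neg.2 s).hasDerivWithinAt)
          (fun s hs => hmem (-s) (by
            rw [abs_neg, abs_of_nonneg hs.1, abs_of_nonpos ht0]; exact hs.2.le) y hy)
          (by rw [neg_zero, hφ.zero x (hKX hx), hφ.zero y (hKX hy), dist_eq_norm]) (-t)
          ⟨by linarith, le_rfl⟩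
        rw [dist_eq_norm, sub_zero, neg_neg] at h2
        refine h2.trans ?_
        rw [abs_of_nonpos ht0] at hbound
        exact hbound
    intro t ht x hx y hy
    have hd : ∀ s, HasDerivAt (fun s => φ s x - φ s y) (V (φ s x) - V (φ s y)) s := fun s =>
      (hφ.deriv x (hKX hx) s).sub (hφ.deriv y (hKX hy) s)
    have h5 := (convex_uIcc (0 : ℝ) t).norm_image_sub_le_of_norm_hasDerivWithin_le
      (f := fun s => φ s x - φ s y) (f' := fun s => V (φ s x) - V (φ s y))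
      (C := 3 * L * ‖x - y‖) (x := 0) (y := t)
      (fun s _ => (hd s).hasDerivWithinAt) (fun s hs => ?_) left_mem_uIcc right_mem_uIcc
    · simp only [hφ.zero x (hKX hx), hφ.zero y (hKX hy), sub_zero, Real.norm_eq_abs] at h5
      refine h5.trans ?_
      calc 3 * L * ‖x - y‖ * |t| = 3 * L * |t| * ‖x - y‖ := by ring
        _ ≤ max C (max (L * C) (3 * L)) * |t| * ‖x - y‖ := by
            gcongr
            exact (le_max_right _ _).trans (le_max_right _ _)
    · have hst : |s| ≤ |t| := by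
        have := abs_sub_left_of_mem_uIcc hs
        simpa using this
      have hm : ∀ z ∈ K, φ s z ∈ X ∩ cthickening 1 K := fun z hz =>
        (h1 s (hst.trans (ht.trans hτ'1)) z hz).1
      calc ‖V (φ s x) - V (φ s y)‖ ≤ L * ‖φ s x - φ s y‖ := hVL _ (hm x hx) _ (hm y hy)
        _ ≤ L * (3 * ‖x - y‖) := by
            gcongr
            exact hgr s (hst.trans ht) x hx y hy
        _ = 3 * L * ‖x - y‖ := by ring

/-- Estimates for a family of automorphisms `g c`, `c : ι → ℝ`, tangent to `∑ c j • V j`. -/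
structure ProdEst {ι : Type*} (X : Set E) (V : ι → E → E) (s : Finset ι)
    (g g' : (ι → ℝ) → E → E) (K : Set E) (τ C : ℝ) : Prop where
  τpos : 0 < τ
  Cpos : 0 < C
  size : ∀ (d : ι → ℝ) (Δ : ℝ), (∀ j ∈ s, |d j| ≤ Δ) → 0 ≤ Δ → ∀ x ∈ K,
    ‖∑ j ∈ s, d j • V j x‖ ≤ C * Δ
  lip : ∀ (d : ι → ℝ) (Δ : ℝ), (∀ j ∈ s, |d j| ≤ Δ) → 0 ≤ Δ → ∀ x ∈ K, ∀ y ∈ K,
    ‖∑ j ∈ s, d j • (V j x - V j y)‖ ≤ C * Δ * ‖x - y‖
  fwd : ∀ (c c' : ι → ℝ) (η Δ : ℝ), (∀ j ∈ s, |c j| ≤ η) → (∀ j ∈ s, |c' j| ≤ η) →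
    (∀ j ∈ s, |c j - c' j| ≤ Δ) → 0 ≤ η → η ≤ τ → 0 ≤ Δ → ∀ x ∈ K,
    ‖g c x - g c' x - ∑ j ∈ s, (c j - c' j) • V j x‖ ≤ C * η * Δ
  bwd : ∀ (c : ι → ℝ) (η : ℝ), (∀ j ∈ s, |c j| ≤ η) → 0 ≤ η → η ≤ τ → ∀ x ∈ K,
    ‖g' c x - x + ∑ j ∈ s, c j • V j x‖ ≤ C * η ^ 2

theorem ProdEst.move {ι : Type*} {V : ι → E → E} {s : Finset ι} {g g' : (ι → ℝ) → E → E}
    {K : Set E} {τ C : ℝ} (h : ProdEst X V s g g' K τ C) (h0 : ∀ x ∈ K, g 0 x = x)
    {c : ι → ℝ} {η : ℝ} (hc : ∀ j ∈ s, |c j| ≤ η) (hη : 0 ≤ η) (hητ : η ≤ τ) {x : E}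
    (hx : x ∈ K) : ‖g c x - x‖ ≤ C * η * (1 + η) := by
  have h1 := h.fwd c 0 η η hc (fun j _ => by simpa using hη) (fun j hj => by simpa using hc j hj)
    hη hητ hη x hx
  have h2 := h.size c η hc hη x hx
  simp only [Pi.zero_apply, sub_zero, h0 x hx] at h1
  calc ‖g c x - x‖ = ‖(g c x - x - ∑ j ∈ s, c j • V j x) + ∑ j ∈ s, c j • V j x‖ := by
        congr 1; abel
    _ ≤ C * η * η + C * η := (norm_add_le _ _).trans (add_le_add h1 h2)
    _ = C * η * (1 + η) := by ring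

end H67.Tame
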