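import Mathlib

/-!
Abstract part of `weakly tame => tame`: groups of homeomorphisms of a proper metric space.
-/

namespace H67.Tame

open Set Filter Topology

variable {X : Type*} [MetricSpace X]

/-- `g` and its inverse move the points of `K` by less than `ε`. -/
def Near (K : Set X) (ε : ℝ) (g : X ≃ₜ X) : Prop :=
  ∀ x ∈ K, dist (g x) x < ε ∧ dist (g.symm x) x < ε

/-- The transitivity package: a group `G` of homeomorphisms, a family `𝒦` of compact sets. -/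
structure Trans (G : Subgroup (X ≃ₜ X)) (𝒦 : Set (Set X)) : Prop where
  compact : ∀ K ∈ 𝒦, IsCompact K
  empty : ∅ ∈ 𝒦
  cofinal : ∀ C, IsCompact C → ∃ K ∈ 𝒦, C ⊆ K
  nhd : ∀ K ∈ 𝒦, ∀ U, IsOpen U → K ⊆ U → ∃ K' ∈ 𝒦, K ⊆ interior K' ∧ K' ⊆ U
  image : ∀ g ∈ G, ∀ K ∈ 𝒦, g '' K ∈ 𝒦
  insert : ∀ K ∈ 𝒦, ∀ x, insert x K ∈ 𝒦
  fp : ∀ K ∈ 𝒦, ∀ ε > 0, ∀ (S : Finset ℕ) (a b : ℕ → X), InjOn a S → InjOn b S →
    (∀ i ∈ S, a i ∉ K ∧ b i ∉ K) → ∃ g ∈ G, Near K ε g ∧ ∀ i ∈ S, g (a i) = b i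
  lt : ∀ K, IsCompact K → ∀ ε > 0, ∀ (S : Finset ℕ) (q : ℕ → X), InjOn q S →
    ∃ δ > 0, ∀ r : ℕ → X, (∀ i ∈ S, dist (r i) (q i) < δ) →
      ∃ g ∈ G, Near K ε g ∧ ∀ i ∈ S, g (r i) = q i
  closed : ∀ (g : ℕ → X ≃ₜ X) (A : X ≃ₜ X), (∀ n, g n ∈ G) →
    (∀ K, IsCompact K → TendstoUniformlyOn (fun n x => g n x) A atTop K) →
    (∀ K, IsCompact K → TendstoUniformlyOn (fun n x => (g n).symm x) A.symm atTop K) → A ∈ G

/-- Sequence form of weak tameness. -/
def WT (G : Subgroup (X ≃ₜ X)) (x : ℕ → X) : Prop :=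
  ∀ L : ℕ → Set X, (∀ n, IsCompact (L n)) → ∃ g ∈ G, ∀ n, g (x n) ∉ L n

theorem Near.mono {K K' : Set X} {ε ε' : ℝ} {g : X ≃ₜ X} (h : Near K ε g) (hK : K' ⊆ K)
    (hε : ε ≤ ε') : Near K' ε' g := fun x hx =>
  ⟨(h x (hK hx)).1.trans_le hε, (h x (hK hx)).2.trans_le hε⟩

theorem uc {Y Z : Type*} [MetricSpace Y] [MetricSpace Z] {f : Y → Z} (hf : Continuous f)
    {K : Set Y} (hK : IsCompact K) {ε : ℝ} (hε : 0 < ε) :
    ∃ δ > 0, ∀ x ∈ K, ∀ y, dist y x < δ → dist (f y) (f x) < ε := by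
  have h := hK.uniformContinuousAt_of_continuousAt f (fun a _ => hf.continuousAt)
    (Metric.dist_mem_uniformity hε)
  obtain ⟨δ, hδ, h2⟩ := Metric.mem_uniformity_dist.1 h
  refine ⟨δ, hδ, fun x hx y hy => ?_⟩
  have := h2 (a := x) (b := y) (by rwa [dist_comm]) hx
  rw [dist_comm]; exact this

/-- Countability: `G` is covered by countably many translates of a neighbourhood of the identity. -/
theorem cover [ProperSpace X] (G : Subgroup (X ≃ₜ X)) {K : Set X} (hK : IsCompact K) {ε : ℝ}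
    (hε : 0 < ε) :
    ∃ g : ℕ → X ≃ₜ X, (∀ n, g n ∈ G) ∧ ∀ Φ ∈ G, ∃ n, Near K ε ((g n)⁻¹ * Φ) := by
  classical
  let T : G → C(X, X) × C(X, X) := fun Φ => (⟨Φ.1, Φ.1.continuous⟩, ⟨Φ.1.symm, Φ.1.symm.continuous⟩)
  let _ : TopologicalSpace G := TopologicalSpace.induced T inferInstance
  have : SecondCountableTopology G := TopologicalSpace.secondCountableTopology_induced _ _ T
  have hN : ∀ Φ : G, {Ψ : G | Near K ε (Φ.1⁻¹ * Ψ.1)} ∈ 𝓝 Φ := by
    intro Φ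
    rw [nhds_induced]
    obtain ⟨δ, hδ, h1⟩ := uc Φ.1.symm.continuous (hK.image Φ.1.continuous) hε
    have hA : {a : C(X, X) | ∀ x ∈ K, dist (a x) (Φ.1 x) < δ} ∈ 𝓝 (T Φ).1 := by
      have := (ContinuousMap.hasBasis_compactConvergenceUniformity (α := X) (β := X)).mem_of_mem
        (i := (K, {p : X × X | dist p.1 p.2 < δ})) ⟨hK, Metric.dist_mem_uniformity hδ⟩
      have h3 := UniformSpace.ball_mem_nhds (T Φ).1 this
      filter_upwards [h3] with a ha x hx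
      have := ha x hx
      rw [dist_comm]; exact this
    have hB : {b : C(X, X) | ∀ y ∈ Φ.1 '' K, dist (b y) (Φ.1.symm y) < ε} ∈ 𝓝 (T Φ).2 := by
      have := (ContinuousMap.hasBasis_compactConvergenceUniformity (α := X) (β := X)).mem_of_mem
        (i := (Φ.1 '' K, {p : X × X | dist p.1 p.2 < ε}))
        ⟨hK.image Φ.1.continuous, Metric.dist_mem_uniformity hε⟩
      have h3 := UniformSpace.ball_mem_nhds (T Φ).2 this
      filter_upwards [h3] with a ha x hx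
      have := ha x hx
      rw [dist_comm]; exact this
    refine ⟨_, prod_mem_nhds hA hB, ?_⟩
    rintro Ψ ⟨hΨ1, hΨ2⟩ x hx
    constructor
    · have := h1 (Φ.1 x) ⟨x, hx, rfl⟩ (Ψ.1 x) (hΨ1 x hx)
      simpa [Homeomorph.mul_apply, Homeomorph.inv_apply] using this
    · have := hΨ2 (Φ.1 x) ⟨x, hx, rfl⟩
      have e : (Φ.1⁻¹ * Ψ.1).symm x = Ψ.1.symm (Φ.1 x) := rfl
      rw [e]
      simpa [T] using this
  obtain ⟨s, hs, hcov⟩ := TopologicalSpace.countable_cover_nhds hN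
  have hne : s.Nonempty := by
    by_contra h
    rw [Set.not_nonempty_iff_eq_empty] at h
    rw [h] at hcov
    simp only [mem_empty_iff_false, iUnion_of_empty, iUnion_empty] at hcov
    exact (hcov.symm.subset (mem_univ (1 : G))).elim
  obtain ⟨g, rfl⟩ := hs.exists_eq_range hne
  refine ⟨fun n => (g n).1, fun n => (g n).2, fun Φ hΦ => ?_⟩
  have := hcov.symm.subset (mem_univ (⟨Φ, hΦ⟩ : G))
  simp only [mem_range, iUnion_exists, iUnion_iUnion_eq', mem_iUnion, mem_setOf_eq] at this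
  exact this

/-- Key lemma: weak tameness is realised by automorphisms close to the identity on a given
compact set, up to finitely many points (their number does not depend on the target). -/
theorem near_wt [ProperSpace X] {G : Subgroup (X ≃ₜ X)} {x : ℕ → X} (hx : WT G x) {K : Set X}
    (hK : IsCompact K) {ε : ℝ} (hε : 0 < ε) :
    ∃ N : ℕ, ∀ M, IsCompact M → ∃ v ∈ G, Near K ε v ∧ ∀ i ≥ N, v (x i) ∉ M := by
  classical
  by_contra hcon
  push Not at hcon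
  choose M hM hbad using hcon
  obtain ⟨g, hgG, hg⟩ := cover G hK hε
  let L : ℕ → Set X := fun i => ⋃ j ∈ Finset.range (i + 1), ⋃ n ∈ Finset.range (i + 1), g j '' M n
  have hL : ∀ i, IsCompact (L i) := fun i =>
    (Finset.range (i + 1)).isCompact_biUnion fun j _ =>
      (Finset.range (i + 1)).isCompact_biUnion fun n _ => (hM n).image (g j).continuous
  obtain ⟨Φ, hΦ, hΦL⟩ := hx L hL
  obtain ⟨j, hj⟩ := hg Φ hΦ
  obtain ⟨i, hij, hi⟩ := hbad j ((g j)⁻¹ * Φ) (G.mul_mem (G.inv_mem (hgG j)) hΦ) hj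
  apply hΦL i
  simp only [L, mem_iUnion, Finset.mem_range]
  refine ⟨j, by omega, j, by omega, ((g j)⁻¹ * Φ) (x i), hi, ?_⟩
  simp [Homeomorph.mul_apply, Homeomorph.inv_apply]

end H67.Tame
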