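import Mathlib
import Pool.Agent.H67.Tame.Abs2

/-! Abstract part, continued: the inductive step. -/

namespace H67.Tame

open Set Filter Topology

variable {X : Type*} [MetricSpace X] [ProperSpace X]

theorem Near.mul {K K' : Set X} {ε ε' : ℝ} {g h : X ≃ₜ X} (hg : Near K' ε g) (hh : Near K' ε' h)
    (hKK : K ⊆ K') (hr : ∀ x ∈ K, ∀ y, dist y x < max ε ε' → y ∈ K') :
    Near K (ε + ε') (g * h) := by
  intro x hx
  constructor
  · have h1 := (hh x (hKK hx)).1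
    have h2 : h x ∈ K' := hr x hx _ (h1.trans_le (le_max_right _ _))
    have h3 := (hg _ h2).1
    calc dist ((g * h) x) x ≤ dist (g (h x)) (h x) + dist (h x) x := dist_triangle _ _ _
      _ < ε + ε' := by linarith
  · have h1 := (hg x (hKK hx)).2
    have h2 : g.symm x ∈ K' := hr x hx _ (h1.trans_le (le_max_left _ _))
    have h3 := (hh _ h2).2
    have e1 : (g * h).symm x = h.symm (g.symm x) := rfl
    rw [e1]
    calc dist (h.symm (g.symm x)) x
        ≤ dist (h.symm (g.symm x)) (g.symm x) + dist (g.symm x) x := dist_triangle _ _ _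
      _ < ε + ε' := by linarith

theorem insert_finset {G : Subgroup (X ≃ₜ X)} {𝒦 : Set (Set X)} (hT : Trans G 𝒦)
    {K : Set X} (hK : K ∈ 𝒦) (s : Finset ℕ) (q : ℕ → X) : K ∪ q '' s ∈ 𝒦 := by
  classical
  induction s using Finset.induction_on with
  | empty => simpa using hK
  | insert a s _ ih =>
    have h1 : K ∪ q '' (insert a s : Finset ℕ) = insert (q a) (K ∪ q '' s) := by
      ext y
      simp only [Finset.coe_insert, image_insert_eq, mem_union, mem_insert_iff]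
      tauto
    rw [h1]
    exact hT.insert _ ih _

/-- One half of the second stage: `A₁` is composed with an automorphism which is close to the
identity on `P`, fixes the matched points and sends the others out of `M`. -/
theorem half {G : Subgroup (X ≃ₜ X)} {𝒦 : Set (Set X)} (hT : Trans G 𝒦) {y : ℕ → X}
    (hy : WT G y) (hinj : Function.Injective y) {P M M' : Set X} (hP : P ∈ 𝒦)
    (hM' : IsCompact M') (I : Finset ℕ)
    (hI : ∀ i ∉ I, y i ∉ P) (hIP : ∀ i ∈ I, y i ∈ P) {ε : ℝ} (hε : 0 < ε)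
    (hr : ∀ x ∈ M, ∀ y, dist y x < ε → y ∈ M') :
    ∃ v ∈ G, ∃ e ∈ G, Near P ε v ∧ Near M' ε e ∧ (∀ i ∈ I, e (v (y i)) = y i) ∧
      ∀ i ∉ I, e (v (y i)) ∉ M := by
  obtain ⟨δ, hδ, hlt⟩ := hT.lt M' hM' ε hε I y hinj.injOn
  obtain ⟨v, hv, hvn, hvo⟩ := push hT hy hinj hP I hI hM' (lt_min hε hδ)
  obtain ⟨e, he, hen, heq⟩ := hlt (fun i => v (y i))
    (fun i hi => ((hvn _ (hIP i hi)).1).trans_le (min_le_right _ _))
  refine ⟨v, hv, e, he, hvn.mono le_rfl (min_le_left _ _), hen, heq, fun i hi hmem => ?_⟩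
  have h1 := ((hen _ (?_ : e (v (y i)) ∈ M')).2)
  · rw [Homeomorph.symm_apply_apply] at h1
    exact hvo i hi (hr _ hmem _ h1)
  · exact hr _ hmem _ (by rw [dist_self]; exact hε)

theorem exists_chain {G : Subgroup (X ≃ₜ X)} {𝒦 : Set (Set X)} (hT : Trans G 𝒦) {K U : Set X}
    (hK : K ∈ 𝒦) (hU : IsOpen U) (h : K ⊆ U) :
    ∃ K' ∈ 𝒦, ∃ r > 0, K ⊆ K' ∧ K' ⊆ U ∧ ∀ x ∈ K, ∀ y, dist y x < r → y ∈ K' := by
  obtain ⟨K', hK', h1, h2⟩ := hT.nhd K hK U hU h
  obtain ⟨r, hr, h3⟩ := exists_r (hT.compact K hK) isOpen_interior h1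
  exact ⟨K', hK', r, hr, h1.trans interior_subset, h2, fun x hx y hy => interior_subset (h3 x hx y hy)⟩

theorem step {G : Subgroup (X ≃ₜ X)} {𝒦 : Set (Set X)} (hT : Trans G 𝒦) {x z : ℕ → X}
    (hx : WT G x) (hz : WT G z) (hxi : Function.Injective x) (hzi : Function.Injective z)
    {A B : X ≃ₜ X} (hA : A ∈ G) (hB : B ∈ G) {K : Set X} (hK : K ∈ 𝒦) {I : Finset ℕ}
    (hm : ∀ i ∈ I, A (x i) = B (z i)) (hu : ∀ i ∉ I, A (x i) ∉ K ∧ B (z i) ∉ K)
    {ε : ℝ} (hε : 0 < ε) {C : Set X} (hC : IsCompact C) :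
    ∃ A' ∈ G, ∃ B' ∈ G, ∃ K' ∈ 𝒦, ∃ I' : Finset ℕ, I ⊆ I' ∧ (∀ i ∈ I', A' (x i) = B' (z i)) ∧
      (∀ i ∉ I', A' (x i) ∉ K' ∧ B' (z i) ∉ K') ∧ C ⊆ K' ∧ A' '' C ⊆ K' ∧ B' '' C ⊆ K' ∧
      Near K ε (A' * A⁻¹) ∧ Near K ε (B' * B⁻¹) := by
  classical
  -- the closed set of unmatched points
  have hAx : WT G (fun n => A (x n)) := hx.mul hA
  have hBz : WT G (fun n => B (z n)) := hz.mul hB
  have hAxi : Function.Injective fun n => A (x n) := A.injective.comp hxi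
  have hBzi : Function.Injective fun n => B (z n) := B.injective.comp hzi
  set D : Set X := (fun n => A (x n)) '' {i | i ∉ I} ∪ (fun n => B (z n)) '' {i | i ∉ I} with hD
  have hDc : IsClosed D :=
    (isClosed_tail (fun K hK => hAx.disc hK) _).union (isClosed_tail (fun K hK => hBz.disc hK) _)
  have hKD : K ⊆ Dᶜ := by
    rintro y hy (⟨i, hi, rfl⟩ | ⟨i, hi, rfl⟩)
    · exact (hu i hi).1 hy
    · exact (hu i hi).2 hy
  obtain ⟨K1, hK1, r0, hr0, h01, h1D, hr01⟩ := exists_chain hT hK hDc.isOpen_compl hKD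
  obtain ⟨K2, hK2, r1, hr1, h12, h2D, hr12⟩ := exists_chain hT hK1 hDc.isOpen_compl h1D
  obtain ⟨K3, hK3, r2, hr2, h23, h3D, hr23⟩ := exists_chain hT hK2 hDc.isOpen_compl h2D
  obtain ⟨ε1, hε1, hε1ε, hε1r0, hε1r1, hε1r2⟩ : ∃ ε1 > 0, 4 * ε1 ≤ min ε 1 ∧ 4 * ε1 ≤ r0 ∧
      4 * ε1 ≤ r1 ∧ 4 * ε1 ≤ r2 := by
    have h1 : 0 < min (min ε 1) (min r0 (min r1 r2)) :=
      lt_min (lt_min hε one_pos) (lt_min hr0 (lt_min hr1 hr2))
    refine ⟨min (min ε 1) (min r0 (min r1 r2)) / 4, by positivity, ?_, ?_, ?_, ?_⟩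
    · have := min_le_left (min ε 1) (min r0 (min r1 r2)); linarith
    · have := (min_le_right (min ε 1) (min r0 (min r1 r2))).trans (min_le_left _ _); linarith
    · have := ((min_le_right (min ε 1) (min r0 (min r1 r2))).trans (min_le_right _ _)).trans
        (min_le_left _ _)
      linarith
    · have := ((min_le_right (min ε 1) (min r0 (min r1 r2))).trans (min_le_right _ _)).trans
        (min_le_right _ _)
      linarith
  have hε1ε' : 4 * ε1 ≤ ε := hε1ε.trans (min_le_left _ _)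
  have hε11 : 4 * ε1 ≤ 1 := hε1ε.trans (min_le_right _ _)
  -- the set `Q`
  have hK3c := hT.compact K3 hK3
  obtain ⟨Q, hQ, hCQ⟩ := hT.cofinal (C ∪ (A.symm '' K3 ∪ B.symm '' K3))
    (hC.union ((hK3c.image A.symm.continuous).union (hK3c.image B.symm.continuous)))
  have hQc := hT.compact Q hQ
  set J : Finset ℕ := I ∪ ((hx.disc hQc).toFinset ∪ (hz.disc hQc).toFinset) with hJ
  have hIJ : I ⊆ J := Finset.subset_union_left
  have hJx : ∀ i ∉ J, x i ∉ Q := by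
    intro i hi hmem
    apply hi
    simp [hJ, hmem]
  have hJz : ∀ i ∉ J, z i ∉ Q := by
    intro i hi hmem
    apply hi
    simp [hJ, hmem]
  -- matching move
  obtain ⟨δ, hδ, hlt⟩ := hT.lt K3 hK3c ε1 hε1 J (fun i => B (z i)) hBzi.injOn
  obtain ⟨e, heG, hen, heq⟩ := hT.fp (K3 ∪ (fun i => B (z i)) '' I)
    (insert_finset hT hK3 I _) (min ε1 δ) (lt_min hε1 hδ) (J \ I) (fun i => A (x i))
    (fun i => B (z i)) hAxi.injOn hBzi.injOn (by
      intro i hi
      rw [Finset.mem_sdiff] at hi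
      constructor
      · rintro (h | ⟨j, hj, hji⟩)
        · exact h3D h (Or.inl ⟨i, hi.2, rfl⟩)
        · have h4 : A (x j) = A (x i) := by rw [hm j hj]; exact hji
          exact hi.2 (hAxi h4 ▸ hj)
      · rintro (h | ⟨j, hj, hji⟩)
        · exact h3D h (Or.inr ⟨i, hi.2, rfl⟩)
        · exact hi.2 (hBzi hji ▸ hj))
  obtain ⟨e', he'G, he'n, he'q⟩ := hlt (fun i => e (A (x i))) (by
    intro i hi
    by_cases hiI : i ∈ I
    · have h4 := (hen (B (z i)) (Or.inr ⟨i, hiI, rfl⟩)).1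
      have h5 : A (x i) = B (z i) := hm i hiI
      simp only [h5]
      exact h4.trans_le (min_le_right _ _)
    · have h4 : e (A (x i)) = B (z i) := heq i (Finset.mem_sdiff.2 ⟨hi, hiI⟩)
      simp only [h4, dist_self]
      exact hδ)
  have hen3 : Near K3 ε1 e := hen.mono subset_union_left (min_le_left _ _)
  set A1 : X ≃ₜ X := e' * e * A with hA1
  have hA1G : A1 ∈ G := G.mul_mem (G.mul_mem he'G heG) hA
  have hA1q : ∀ i ∈ J, A1 (x i) = B (z i) := fun i hi => he'q i hi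
  have hee : Near K2 (ε1 + ε1) (e' * e) := he'n.mul hen3 h23 (by
    intro x hx y hy
    rw [max_self] at hy
    exact hr23 x hx y (by linarith))
  -- the sets `P_A`, `P_B`
  set PA : Set X := A1 '' (Q ∪ x '' J) with hPA
  set PB : Set X := B '' (Q ∪ z '' J) with hPB
  have hPA𝒦 : PA ∈ 𝒦 := hT.image A1 hA1G _ (insert_finset hT hQ J x)
  have hPB𝒦 : PB ∈ 𝒦 := hT.image B hB _ (insert_finset hT hQ J z)
  have hK2PA : K2 ⊆ PA := by
    intro y hy
    have h4 := (hee y hy).2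
    have h5 : (e' * e).symm y ∈ K3 := hr23 y hy _ (by linarith)
    refine ⟨A.symm ((e' * e).symm y), Or.inl (hCQ (Or.inr (Or.inl ⟨_, h5, rfl⟩))), ?_⟩
    have h6 : ∀ w, A1 w = (e' * e) (A w) := fun w => rfl
    rw [h6, Homeomorph.apply_symm_apply, Homeomorph.apply_symm_apply]
  have hK2PB : K2 ⊆ PB := by
    intro y hy
    refine ⟨B.symm y, Or.inl (hCQ (Or.inr (Or.inr ⟨y, h23 hy, rfl⟩))), ?_⟩
    rw [Homeomorph.apply_symm_apply]
  have hPAo : ∀ i ∉ J, A1 (x i) ∉ PA := by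
    rintro i hi ⟨w, hw, hwi⟩
    rw [A1.injective.eq_iff] at hwi
    subst hwi
    rcases hw with hw | ⟨j, hj, hji⟩
    · exact hJx i hi hw
    · exact hi (hxi hji ▸ hj)
  have hPBo : ∀ i ∉ J, B (z i) ∉ PB := by
    rintro i hi ⟨w, hw, hwi⟩
    rw [B.injective.eq_iff] at hwi
    subst hwi
    rcases hw with hw | ⟨j, hj, hji⟩
    · exact hJz i hi hw
    · exact hi (hzi hji ▸ hj)
  have hPAi : ∀ i ∈ J, A1 (x i) ∈ PA := fun i hi => ⟨x i, Or.inr ⟨i, hi, rfl⟩, rfl⟩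
  have hPBi : ∀ i ∈ J, B (z i) ∈ PB := fun i hi => ⟨z i, Or.inr ⟨i, hi, rfl⟩, rfl⟩
  have hPAc := hT.compact _ hPA𝒦
  have hPBc := hT.compact _ hPB𝒦
  obtain ⟨M, hM, hMsub⟩ := hT.cofinal (C ∪ Metric.cthickening 1 (PA ∪ PB))
    (hC.union (hPAc.union hPBc).cthickening)
  obtain ⟨M', hM', r3, hr3, hMM', -, hrM⟩ := exists_chain hT hM isOpen_univ (subset_univ _)
  have hM'c := hT.compact _ hM'
  obtain ⟨ε2, hε2, hε21, hε23⟩ : ∃ ε2 > 0, ε2 ≤ ε1 ∧ ε2 ≤ r3 :=
    ⟨min ε1 r3, lt_min hε1 hr3, min_le_left _ _, min_le_right _ _⟩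
  have hPM : PA ∪ PB ⊆ M := (Metric.self_subset_cthickening _).trans (subset_union_right.trans hMsub)
  have hPAM : PA ⊆ M := subset_union_left.trans hPM
  have hPBM : PB ⊆ M := subset_union_right.trans hPM
  obtain ⟨vA, hvA, eA, heA, hvAn, heAn, hfixA, houtA⟩ := half hT (hx.mul hA1G)
    (A1.injective.comp hxi) (M := M) hPA𝒦 hM'c J hPAo hPAi hε2
    (fun x hx y hy => hrM x hx y (hy.trans_le hε23))
  obtain ⟨vB, hvB, eB, heB, hvBn, heBn, hfixB, houtB⟩ := half hT hBz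
    hBzi (M := M) hPB𝒦 hM'c J hPBo hPBi hε2
    (fun x hx y hy => hrM x hx y (hy.trans_le hε23))
  have hthick : ∀ (P : Set X), P ⊆ PA ∪ PB → P ⊆ M → ∀ v e : X ≃ₜ X, Near P ε2 v → Near M' ε2 e →
      ∀ y ∈ P, e (v y) ∈ M := by
    intro P hP hPM v e hv he y hy
    have h4 := (hv y hy).1
    have h5 : v y ∈ M' := hrM y (hPM hy) _ (h4.trans_le hε23)
    have h6 := (he _ h5).1
    apply hMsub
    right
    refine Metric.mem_cthickening_of_dist_le _ y 1 _ (hP hy) ?_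
    calc dist (e (v y)) y ≤ dist (e (v y)) (v y) + dist (v y) y := dist_triangle _ _ _
      _ ≤ 1 := by linarith
  have hCQ' : C ⊆ Q := subset_union_left.trans hCQ
  refine ⟨eA * vA * A1, G.mul_mem (G.mul_mem heA hvA) hA1G, eB * vB * B,
    G.mul_mem (G.mul_mem heB hvB) hB, M, hM, J, hIJ, ?_, ?_, subset_union_left.trans hMsub,
    ?_, ?_, ?_, ?_⟩
  · intro i hi
    have h4 := hfixA i hi
    have h5 := hfixB i hi
    calc (eA * vA * A1) (x i) = eA (vA (A1 (x i))) := rfl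
      _ = A1 (x i) := h4
      _ = B (z i) := hA1q i hi
      _ = eB (vB (B (z i))) := h5.symm
      _ = (eB * vB * B) (z i) := rfl
  · intro i hi
    exact ⟨houtA i hi, houtB i hi⟩
  · rintro _ ⟨c, hc, rfl⟩
    exact hthick PA subset_union_left hPAM vA eA hvAn heAn (A1 c) ⟨c, Or.inl (hCQ' hc), rfl⟩
  · rintro _ ⟨c, hc, rfl⟩
    exact hthick PB subset_union_right hPBM vB eB hvBn heBn (B c) ⟨c, Or.inl (hCQ' hc), rfl⟩
  · have h4 : Near K1 (ε2 + ε2) (eA * vA) :=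
      (heAn.mono (hK2PA.trans (hPAM.trans hMM')) le_rfl).mul (hvAn.mono hK2PA le_rfl) h12 (by
        intro x hx y hy
        rw [max_self] at hy
        exact hr12 x hx y (by linarith))
    have h5 : Near K1 (ε1 + ε1) (e' * e) := hee.mono h12 le_rfl
    have h6 : Near K (ε2 + ε2 + (ε1 + ε1)) (eA * vA * (e' * e)) := h4.mul h5 h01 (by
        intro x hx y hy
        have h7 : max (ε2 + ε2) (ε1 + ε1) ≤ ε1 + ε1 := max_le (by linarith) le_rfl
        exact hr01 x hx y (by linarith))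
    have h7 : eA * vA * A1 * A⁻¹ = eA * vA * (e' * e) := by
      rw [hA1]; group
    rw [h7]
    exact h6.mono le_rfl (by linarith)
  · have h4 : Near K1 (ε2 + ε2) (eB * vB) :=
      (heBn.mono (hK2PB.trans (hPBM.trans hMM')) le_rfl).mul (hvBn.mono hK2PB le_rfl) h12 (by
        intro x hx y hy
        rw [max_self] at hy
        exact hr12 x hx y (by linarith))
    have h7 : eB * vB * B * B⁻¹ = eB * vB := by group
    rw [h7]
    exact h4.mono h01 (by linarith)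

end H67.Tame
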