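import Mathlib
import Pool.Agent.H67.Tame.Abs3

/-! Abstract part, end: two weakly tame sequences are equivalent. -/

namespace H67.Tame

open Set Filter Topology

variable {X : Type*} [MetricSpace X] [ProperSpace X]

/-- A sequence of continuous maps whose successive distances decay geometrically on compacts
converges uniformly on compacts. -/
theorem lim_maps {a : ℕ → X → X} (ha : ∀ n, Continuous (a n)) (x0 : X)
    (h : ∀ m : ℕ, ∃ N, ∀ n ≥ N, ∀ x ∈ Metric.closedBall x0 (m : ℝ),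
      dist (a (n + 1) x) (a n x) ≤ (1 / 2) ^ n) :
    ∃ A : X → X, Continuous A ∧ ∀ K, IsCompact K → TendstoUniformlyOn a A atTop K := by
  have key : ∀ m : ℕ, ∃ N, ∀ n ≥ N, ∀ x ∈ Metric.closedBall x0 (m : ℝ), ∀ k : ℕ,
      dist (a (n + k) x) (a (n + (k + 1)) x) ≤ (1 / 2) ^ n * (1 / 2) ^ k := by
    intro m
    obtain ⟨N, hN⟩ := h m
    refine ⟨N, fun n hn x hx k => ?_⟩
    have := hN (n + k) (by omega) x hx
    rw [dist_comm, ← pow_add]
    exact this
  have hlim : ∀ x, ∃ p, Tendsto (fun n => a n x) atTop (𝓝 p) := by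
    intro x
    obtain ⟨m, hm⟩ := exists_nat_ge (dist x x0)
    obtain ⟨N, hN⟩ := key m
    have h1 := hN N le_rfl x hm
    have h2 : CauchySeq fun k => a (N + k) x :=
      cauchySeq_of_le_geometric (1 / 2) ((1 / 2) ^ N) (by norm_num) h1
    obtain ⟨p, hp⟩ := cauchySeq_tendsto_of_complete h2
    refine ⟨p, ?_⟩
    have h3 : (fun k => a (N + k) x) = fun k => (fun n => a n x) (k + N) := by
      funext k; rw [add_comm]
    rw [h3] at hp
    exact (tendsto_add_atTop_iff_nat N).1 hp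
  choose A hA using hlim
  have hunif : ∀ K, IsCompact K → TendstoUniformlyOn a A atTop K := by
    intro K hK
    obtain ⟨R, hR⟩ := hK.isBounded.subset_closedBall x0
    obtain ⟨m, hm⟩ := exists_nat_ge R
    obtain ⟨N, hN⟩ := key m
    rw [Metric.tendstoUniformlyOn_iff]
    intro ε hε
    have h4 : Tendsto (fun n : ℕ => (1 / 2 : ℝ) ^ n / (1 - 1 / 2)) atTop (𝓝 (0 / (1 - 1 / 2))) :=
      (tendsto_pow_atTop_nhds_zero_of_lt_one (by norm_num) (by norm_num)).div_const _
    rw [zero_div] at h4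
    filter_upwards [h4.eventually_lt_const hε, eventually_ge_atTop N] with n hn hnN x hx
    have hx' : x ∈ Metric.closedBall x0 (m : ℝ) :=
      Metric.closedBall_subset_closedBall hm (hR hx)
    have h5 := hN n hnN x hx'
    have h6 : Tendsto (fun k => a (n + k) x) atTop (𝓝 (A x)) := by
      have h3 : (fun k => a (n + k) x) = fun k => (fun n => a n x) (k + n) := by
        funext k; rw [add_comm]
      rw [h3]
      exact (tendsto_add_atTop_iff_nat n).2 (hA x)
    have h7 := dist_le_of_le_geometric_of_tendsto₀ (1 / 2) ((1 / 2) ^ n) (by norm_num) h5 h6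
    rw [dist_comm]
    exact lt_of_le_of_lt h7 hn
  refine ⟨A, ?_, hunif⟩
  have := tendstoLocallyUniformly_iff_forall_isCompact.2 hunif
  exact this.continuous (Frequently.of_forall ha)

theorem lim_homeo {g : ℕ → X ≃ₜ X} (x0 : X)
    (h : ∀ m : ℕ, ∃ N, ∀ n ≥ N, ∀ x ∈ Metric.closedBall x0 (m : ℝ),
      dist (g (n + 1) x) (g n x) ≤ (1 / 2) ^ n)
    (h' : ∀ m : ℕ, ∃ N, ∀ n ≥ N, ∀ x ∈ Metric.closedBall x0 (m : ℝ),
      dist ((g (n + 1)).symm x) ((g n).symm x) ≤ (1 / 2) ^ n) :
    ∃ A : X ≃ₜ X, (∀ K, IsCompact K → TendstoUniformlyOn (fun n x => g n x) A atTop K) ∧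
      (∀ K, IsCompact K → TendstoUniformlyOn (fun n x => (g n).symm x) A.symm atTop K) := by
  obtain ⟨A, hAc, hA⟩ := lim_maps (a := fun n x => g n x) (fun n => (g n).continuous) x0 h
  obtain ⟨B, hBc, hB⟩ := lim_maps (a := fun n x => (g n).symm x)
    (fun n => (g n).symm.continuous) x0 h'
  have hA' := tendstoLocallyUniformly_iff_forall_isCompact.2 hA
  have hB' := tendstoLocallyUniformly_iff_forall_isCompact.2 hB
  have hAB : ∀ y, A (B y) = y := by
    intro y
    have h1 : Tendsto (fun n => (g n).symm y) atTop (𝓝 (B y)) :=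
      (hB {y} isCompact_singleton).tendsto_at (mem_singleton y)
    have h2 := hA'.tendsto_comp hAc.continuousAt h1
    simp only [Homeomorph.apply_symm_apply] at h2
    exact tendsto_nhds_unique h2 tendsto_const_nhds
  have hBA : ∀ y, B (A y) = y := by
    intro y
    have h1 : Tendsto (fun n => g n y) atTop (𝓝 (A y)) :=
      (hA {y} isCompact_singleton).tendsto_at (mem_singleton y)
    have h2 := hB'.tendsto_comp hBc.continuousAt h1
    simp only [Homeomorph.symm_apply_apply] at h2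
    exact tendsto_nhds_unique h2 tendsto_const_nhds
  exact ⟨⟨⟨A, B, hBA, hAB⟩, hAc, hBc⟩, hA, hB⟩

/-- A state of the induction. -/
structure St (G : Subgroup (X ≃ₜ X)) (𝒦 : Set (Set X)) (x z : ℕ → X) where
  A : X ≃ₜ X
  B : X ≃ₜ X
  K : Set X
  I : Finset ℕ
  hA : A ∈ G
  hB : B ∈ G
  hK : K ∈ 𝒦
  hm : ∀ i ∈ I, A (x i) = B (z i)
  hu : ∀ i ∉ I, A (x i) ∉ K ∧ B (z i) ∉ K

/-- The relation between a state and its successor. -/
structure Rel {G : Subgroup (X ≃ₜ X)} {𝒦 : Set (Set X)} {x z : ℕ → X} (C : Set X) (η : ℝ)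
    (s t : St G 𝒦 x z) : Prop where
  hI : s.I ⊆ t.I
  hC : C ⊆ t.K
  hAC : t.A '' C ⊆ t.K
  hBC : t.B '' C ⊆ t.K
  hA : ∀ y, s.A y ∈ s.K → dist (t.A y) (s.A y) ≤ η
  hB : ∀ y, s.B y ∈ s.K → dist (t.B y) (s.B y) ≤ η
  hA' : ∀ y ∈ s.K, dist (t.A.symm y) (s.A.symm y) ≤ η
  hB' : ∀ y ∈ s.K, dist (t.B.symm y) (s.B.symm y) ≤ η

theorem step' {G : Subgroup (X ≃ₜ X)} {𝒦 : Set (Set X)} (hT : Trans G 𝒦) {x z : ℕ → X}
    (hx : WT G x) (hz : WT G z) (hxi : Function.Injective x) (hzi : Function.Injective z)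
    (s : St G 𝒦 x z) {C : Set X} (hC : IsCompact C) {η : ℝ} (hη : 0 < η) :
    ∃ t : St G 𝒦 x z, Rel C η s t := by
  obtain ⟨δ1, hδ1, h1⟩ := uc s.A.symm.continuous (hT.compact _ s.hK) hη
  obtain ⟨δ2, hδ2, h2⟩ := uc s.B.symm.continuous (hT.compact _ s.hK) hη
  obtain ⟨A', hA', B', hB', K', hK', I', hII', hm', hu', hCK, hAC, hBC, hnA, hnB⟩ :=
    step hT hx hz hxi hzi s.hA s.hB s.hK s.hm s.hu (lt_min hη (lt_min hδ1 hδ2)) hC
  refine ⟨⟨A', B', K', I', hA', hB', hK', hm', hu'⟩, hII', hCK, hAC, hBC, ?_, ?_, ?_, ?_⟩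
  · intro y hy
    have h3 := (hnA _ hy).1
    have e1 : (A' * s.A⁻¹) (s.A y) = A' y := by
      show A' (s.A.symm (s.A y)) = A' y
      rw [Homeomorph.symm_apply_apply]
    rw [e1] at h3
    exact (h3.trans_le (min_le_left _ _)).le
  · intro y hy
    have h3 := (hnB _ hy).1
    have e1 : (B' * s.B⁻¹) (s.B y) = B' y := by
      show B' (s.B.symm (s.B y)) = B' y
      rw [Homeomorph.symm_apply_apply]
    rw [e1] at h3
    exact (h3.trans_le (min_le_left _ _)).le
  · intro y hy
    have h3 := (hnA _ hy).2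
    have e1 : (A' * s.A⁻¹).symm y = s.A (A'.symm y) := rfl
    rw [e1] at h3
    have h4 := h1 y hy _ (h3.trans_le ((min_le_right _ _).trans (min_le_left _ _)))
    rw [Homeomorph.symm_apply_apply] at h4
    exact h4.le
  · intro y hy
    have h3 := (hnB _ hy).2
    have e1 : (B' * s.B⁻¹).symm y = s.B (B'.symm y) := rfl
    rw [e1] at h3
    have h4 := h2 y hy _ (h3.trans_le ((min_le_right _ _).trans (min_le_right _ _)))
    rw [Homeomorph.symm_apply_apply] at h4
    exact h4.le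

/-- Main abstract theorem: any two weakly tame injective sequences are equivalent under `G`. -/
theorem equivalent {G : Subgroup (X ≃ₜ X)} {𝒦 : Set (Set X)} (hT : Trans G 𝒦) {x z : ℕ → X}
    (hx : WT G x) (hz : WT G z) (hxi : Function.Injective x) (hzi : Function.Injective z) :
    ∃ F ∈ G, ∀ n, F (x n) = z n := by
  classical
  set x0 := x 0
  let s0 : St G 𝒦 x z := ⟨1, 1, ∅, ∅, G.one_mem, G.one_mem, hT.empty, by simp, by simp⟩
  choose nxt hnxt using fun (n : ℕ) (s : St G 𝒦 x z) =>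
    step' hT hx hz hxi hzi s (isCompact_closedBall x0 (n : ℝ)) (η := (1 / 2) ^ n) (by positivity)
  let s : ℕ → St G 𝒦 x z := fun n => Nat.rec s0 nxt n
  have hs : ∀ n, s (n + 1) = nxt n (s n) := fun n => rfl
  have hrel : ∀ n : ℕ, Rel (Metric.closedBall x0 (n : ℝ)) ((1 / 2) ^ n) (s n) (s (n + 1)) := by
    intro n; rw [hs]; exact hnxt n (s n)
  have hball : ∀ m n : ℕ, m + 1 ≤ n → Metric.closedBall x0 (m : ℝ) ⊆
      Metric.closedBall x0 ((n - 1 : ℕ) : ℝ) := by
    intro m n hmn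
    apply Metric.closedBall_subset_closedBall
    exact_mod_cast (by omega : m ≤ n - 1)
  have hpred : ∀ n, 1 ≤ n → Rel (Metric.closedBall x0 ((n - 1 : ℕ) : ℝ)) ((1 / 2) ^ (n - 1))
      (s (n - 1)) (s n) := by
    intro n hn
    have := hrel (n - 1)
    rwa [Nat.sub_add_cancel hn] at this
  obtain ⟨A, hA1, hA2⟩ := lim_homeo (g := fun n => (s n).A) x0
    (fun m => ⟨m + 1, fun n hn y hy => (hrel n).hA y
      ((hpred n (by omega)).hAC ⟨y, hball m n hn hy, rfl⟩)⟩)
    (fun m => ⟨m + 1, fun n hn y hy => (hrel n).hA' y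
      ((hpred n (by omega)).hC (hball m n hn hy))⟩)
  obtain ⟨B, hB1, hB2⟩ := lim_homeo (g := fun n => (s n).B) x0
    (fun m => ⟨m + 1, fun n hn y hy => (hrel n).hB y
      ((hpred n (by omega)).hBC ⟨y, hball m n hn hy, rfl⟩)⟩)
    (fun m => ⟨m + 1, fun n hn y hy => (hrel n).hB' y
      ((hpred n (by omega)).hC (hball m n hn hy))⟩)
  have hAG : A ∈ G := hT.closed _ A (fun n => (s n).hA) hA1 hA2
  have hBG : B ∈ G := hT.closed _ B (fun n => (s n).hB) hB1 hB2
  have hAB : ∀ i, A (x i) = B (z i) := by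
    intro i
    obtain ⟨m, hm⟩ := exists_nat_ge (dist (x i) x0)
    have hin : ∀ n, m + 1 ≤ n → (s n).A (x i) = (s n).B (z i) := by
      intro n hn
      apply (s n).hm
      by_contra hni
      exact ((s n).hu i hni).1 ((hpred n (by omega)).hAC ⟨x i, hball m n hn hm, rfl⟩)
    have h1 : Tendsto (fun n => (s n).A (x i)) atTop (𝓝 (A (x i))) :=
      (hA1 {x i} isCompact_singleton).tendsto_at (mem_singleton _)
    have h2 : Tendsto (fun n => (s n).B (z i)) atTop (𝓝 (B (z i))) :=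
      (hB1 {z i} isCompact_singleton).tendsto_at (mem_singleton _)
    refine tendsto_nhds_unique h1 (h2.congr' ?_)
    filter_upwards [eventually_ge_atTop (m + 1)] with n hn
    exact (hin n hn).symm
  refine ⟨B⁻¹ * A, G.mul_mem (G.inv_mem hBG) hAG, fun n => ?_⟩
  show B.symm (A (x n)) = z n
  rw [hAB n, Homeomorph.symm_apply_apply]

/-- An exhaustion function. -/
def IsExhaustion (ρ : X → ℝ) : Prop :=
  Continuous ρ ∧ ∀ c : ℝ, IsCompact (closure {x | ρ x < c})

/-- Weakly tame sets (for the group `G`). -/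
def WeaklyTame (G : Subgroup (X ≃ₜ X)) (D : Set X) : Prop :=
  D.Infinite ∧ IsDiscrete D ∧ ∀ ρ : X → ℝ, IsExhaustion ρ → ∀ ζ : D → ℝ,
    ∃ Φ ∈ G, ∀ x : D, ζ x ≤ ρ (Φ x)

/-- Tame sets (for the group `G`). -/
def Tame (G : Subgroup (X ≃ₜ X)) (D : Set X) : Prop :=
  D.Infinite ∧ IsDiscrete D ∧ IsClosed D ∧ ∀ f : D → D, Function.Injective f →
    ∃ F ∈ G, ∀ x : D, F x = f x

theorem tame_of_weaklyTame {G : Subgroup (X ≃ₜ X)} {𝒦 : Set (Set X)} (hT : Trans G 𝒦)
    {D : Set X} (hD : WeaklyTame G D) : Tame G D := by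
  classical
  obtain ⟨hinf, hdis, hwt⟩ := hD
  have hdt : DiscreteTopology D := hdis.to_subtype
  have hsc : SecondCountableTopology D := inferInstance
  have hcount : Countable D := TopologicalSpace.separableSpace_iff_countable.1 inferInstance
  have : Infinite D := hinf.to_subtype
  obtain ⟨e⟩ : Nonempty (ℕ ≃ D) := by
    obtain ⟨h⟩ := nonempty_denumerable D
    exact ⟨(Denumerable.eqv D).symm⟩
  let x0 : X := e 0
  have hseq : ∀ σ : ℕ → ℕ, Function.Injective σ → WT G (fun n => (e (σ n) : X)) := by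
    intro σ hσ L hL
    have hbd : ∀ n, ∃ R : ℝ, L n ⊆ Metric.closedBall x0 R := fun n =>
      (hL n).isBounded.subset_closedBall x0
    choose R hR using hbd
    obtain ⟨Φ, hΦ, h⟩ := hwt (fun y => dist y x0) ⟨continuous_id.dist continuous_const, fun c =>
      (isCompact_closedBall x0 c).of_isClosed_subset isClosed_closure
        (closure_minimal (fun y (hy : dist y x0 < c) => hy.le) Metric.isClosed_closedBall)⟩
      (fun d => if h : ∃ n, e (σ n) = d then R h.choose + 1 else 0)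
    refine ⟨Φ, hΦ, fun n hn => ?_⟩
    have h1 := h (e (σ n))
    have h2 : ∃ k, e (σ k) = e (σ n) := ⟨n, rfl⟩
    have h3 : h2.choose = n := hσ (e.injective h2.choose_spec)
    rw [dif_pos h2, h3] at h1
    have h4 := hR n hn
    rw [Metric.mem_closedBall] at h4
    linarith
  have hid := hseq id Function.injective_id
  refine ⟨hinf, hdis, ?_, fun f hf => ?_⟩
  · have h1 := isClosed_tail (fun K hK => hid.disc hK) univ
    have h2 : (fun n => (e (id n) : X)) '' univ = D := by
      ext y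
      constructor
      · rintro ⟨n, -, rfl⟩
        exact (e n).2
      · intro hy
        exact ⟨e.symm ⟨y, hy⟩, trivial, by simp⟩
    rwa [h2] at h1
  · have h1 := hseq (fun n => e.symm (f (e n)))
      (fun a b hab => e.injective (hf (e.symm.injective hab)))
    obtain ⟨F, hF, h2⟩ := equivalent hT hid h1
      (fun a b hab => e.injective (Subtype.ext hab))
      (fun a b hab => e.injective (hf (e.symm.injective (e.injective (Subtype.ext hab)))))
    refine ⟨F, hF, fun y => ?_⟩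
    have h3 := h2 (e.symm y)
    simpa using h3

end H67.Tame
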