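import Mathlib
import Pool.Agent.H67.Tame.Abs4

/-! Abstract part: bijections between weakly tame sets extend. -/

namespace H67.Tame

open Set Filter Topology

variable {X : Type*} [MetricSpace X] [ProperSpace X]

theorem WeaklyTame.exists_enum {G : Subgroup (X ≃ₜ X)} {D : Set X} (hD : WeaklyTame G D) :
    Nonempty (ℕ ≃ D) := by
  obtain ⟨hinf, hdis, -⟩ := hD
  have hdt : DiscreteTopology D := hdis.to_subtype
  have hsc : SecondCountableTopology D := inferInstance
  have hcount : Countable D := TopologicalSpace.separableSpace_iff_countable.1 inferInstance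
  have : Infinite D := hinf.to_subtype
  obtain ⟨h⟩ := nonempty_denumerable D
  exact ⟨(Denumerable.eqv D).symm⟩

theorem WeaklyTame.seq {G : Subgroup (X ≃ₜ X)} {D : Set X} (hD : WeaklyTame G D) (e : ℕ ≃ D) :
    WT G (fun n => (e n : X)) := by
  classical
  obtain ⟨-, -, hwt⟩ := hD
  intro L hL
  let x0 : X := e 0
  have hbd : ∀ n, ∃ R : ℝ, L n ⊆ Metric.closedBall x0 R := fun n =>
    (hL n).isBounded.subset_closedBall x0
  choose R hR using hbd
  obtain ⟨Φ, hΦ, h⟩ := hwt (fun y => dist y x0) ⟨continuous_id.dist continuous_const, fun c =>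
    (isCompact_closedBall x0 c).of_isClosed_subset isClosed_closure
      (closure_minimal (fun y (hy : dist y x0 < c) => hy.le) Metric.isClosed_closedBall)⟩
    (fun d => R (e.symm d) + 1)
  refine ⟨Φ, hΦ, fun n hn => ?_⟩
  have h1 := h (e n)
  rw [Equiv.symm_apply_apply] at h1
  have h4 := hR n hn
  rw [Metric.mem_closedBall] at h4
  linarith

/-- Every bijection between two weakly tame sets is the restriction of an element of the group. -/
theorem extend_of_weaklyTame {G : Subgroup (X ≃ₜ X)} {𝒦 : Set (Set X)} (hT : Trans G 𝒦)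
    {D D' : Set X} (hD : WeaklyTame G D) (hD' : WeaklyTame G D') (f : D ≃ D') :
    ∃ F ∈ G, ∀ x : D, F x = f x := by
  obtain ⟨e⟩ := hD.exists_enum
  obtain ⟨F, hF, h⟩ := equivalent hT (hD.seq e) (hD'.seq (e.trans f))
    (fun a b hab => e.injective (Subtype.ext hab))
    (fun a b hab => (e.trans f).injective (Subtype.ext hab))
  refine ⟨F, hF, fun x => ?_⟩
  have h1 := h (e.symm x)
  simpa using h1

end H67.Tame
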