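import Mathlib
import Pool.Agent.H67.Tame.XCalc

/-! Local connectedness of the superlevel sets of the norm on `X` at a boundary point. -/

namespace H67.Tame

open Set Filter Topology Metric

variable {E : Type*} [NormedAddCommGroup E] [InnerProductSpace ℂ E] [FiniteDimensional ℂ E]
variable {X : Set E}

theorem exists_ker (T : Submodule ℂ E) (hT : 2 ≤ Module.finrank ℂ T) (L : E →L[ℂ] ℂ) :
    ∃ v ∈ T, v ≠ 0 ∧ L v = 0 := by
  let L' : T →ₗ[ℂ] ℂ := (L : E →ₗ[ℂ] ℂ).domRestrict T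
  have h1 := LinearMap.finrank_range_add_finrank_ker L'
  have h2 : Module.finrank ℂ (LinearMap.range L') ≤ 1 := by
    have := Submodule.finrank_le (LinearMap.range L')
    rwa [Module.finrank_self] at this
  have h3 : 0 < Module.finrank ℂ (LinearMap.ker L') := by omega
  obtain ⟨⟨w, hw⟩, hw0⟩ := Module.finrank_pos_iff_exists_ne_zero.1 h3
  refine ⟨w, w.2, fun h => hw0 ?_, LinearMap.mem_ker.1 hw⟩
  exact Subtype.ext (Subtype.ext h)

theorem exists_isotropic (T : Submodule ℂ E) (hT : 2 ≤ Module.finrank ℂ T)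
    (B : E →L[ℂ] E →L[ℂ] ℂ) : ∃ v ∈ T, v ≠ 0 ∧ B v v = 0 := by
  have h1 : 1 < Module.finrank ℂ T := by omega
  have h2 : 0 < Module.finrank ℂ T := by omega
  obtain ⟨v2, hv2⟩ := Module.finrank_pos_iff_exists_ne_zero.1 h2
  obtain ⟨v1, hv1⟩ := exists_linearIndependent_pair_of_one_lt_finrank h1 hv2
  by_cases h : B v2 v2 = 0
  · exact ⟨v2, v2.2, fun h0 => hv2 (Subtype.ext h0), h⟩
  · obtain ⟨l, hl⟩ := exists_quadratic_eq_zero (a := B v2 v2) (b := B v1 v2 + B v2 v1)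
      (c := B v1 v1) h (IsAlgClosed.exists_eq_mul_self _)
    refine ⟨(v1 : E) + l • (v2 : E), T.add_mem v1.2 (T.smul_mem l v2.2), fun h0 => ?_, ?_⟩
    · have h3 : l • v2 + (1 : ℂ) • v1 = 0 := by
        rw [one_smul, add_comm]
        exact Subtype.ext h0
      have h4 := (LinearIndependent.pair_iff.1 hv1) l 1 h3
      exact one_ne_zero h4.2
    · simp only [map_add, map_smul, ContinuousLinearMap.add_apply, ContinuousLinearMap.smul_apply,
        smul_eq_mul]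
      rw [← hl]
      ring

/-- A function whose derivative vanishes to first order is `o(ζ²)`. -/
theorem small_of_deriv {H g : ℂ → ℂ} {r0 : ℝ} (hr0 : 0 < r0)
    (hH : ∀ ζ ∈ ball (0 : ℂ) r0, HasDerivAt H (g ζ) ζ) (hH0 : H 0 = 0) (hg0 : g 0 = 0)
    (hg : HasDerivAt g 0 0) {ε : ℝ} (hε : 0 < ε) :
    ∃ r > 0, ∀ ζ : ℂ, ‖ζ‖ < r → ‖H ζ‖ ≤ ε * ‖ζ‖ ^ 2 := by
  have h1 := hg.isLittleO.def hε
  simp only [sub_zero, hg0, smul_zero] at h1
  obtain ⟨r, hr, h2⟩ := Metric.eventually_nhds_iff_ball.1 h1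
  refine ⟨min r r0, lt_min hr hr0, fun ζ hζ => ?_⟩
  have hconv : Convex ℝ (closedBall (0 : ℂ) ‖ζ‖) := convex_closedBall _ _
  have hsub : closedBall (0 : ℂ) ‖ζ‖ ⊆ ball 0 (min r r0) := closedBall_subset_ball hζ
  have h3 := hconv.norm_image_sub_le_of_norm_hasDerivWithin_le (f := H) (f' := g)
    (C := ε * ‖ζ‖) (x := 0) (y := ζ)
    (fun x hx => (hH x (ball_subset_ball (min_le_right _ _) (hsub hx))).hasDerivWithinAt)
    (fun x hx => (h2 x (ball_subset_ball (min_le_left _ _) (hsub hx))).trans (by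
      have : ‖x‖ ≤ ‖ζ‖ := by simpa using hx
      gcongr))
    (mem_closedBall_self (norm_nonneg _)) (by simp)
  rw [hH0, sub_zero, sub_zero] at h3
  calc ‖H ζ‖ ≤ ε * ‖ζ‖ * ‖ζ‖ := h3
    _ = ε * ‖ζ‖ ^ 2 := by ring

/-- A small disc through `p` in `X` whose boundary lies outside the ball of radius `‖p‖`. -/
theorem exists_disc {ρ : E → E} {U : Set E} (hρ : Retr X ρ U) {p : E} (hp : p ∈ X) (hpU : p ∈ U)
    (hdim : 2 ≤ Module.finrank ℂ (tang X p)) :
    ∃ v u : E, ∃ r > 0, (∀ ζ : ℂ, ‖ζ‖ ≤ r → p + (ζ • v + ζ ^ 2 • u) ∈ U) ∧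
      ∀ ζ : ℂ, ‖ζ‖ = r → ‖p‖ < ‖ρ (p + (ζ • v + ζ ^ 2 • u))‖ := by
  let h : E → ℂ := fun y => inner ℂ p (ρ (p + y) - p)
  let U' : Set E := {y | p + y ∈ U}
  have hU' : IsOpen U' := hρ.op.preimage (continuous_const.add continuous_id)
  have h0U' : (0 : E) ∈ U' := by show p + 0 ∈ U; rwa [add_zero]
  have hshift : ∀ y, DifferentiableAt ℂ (fun y : E => p + y) y := fun y =>
    differentiableAt_id.const_add p
  have hd : DifferentiableOn ℂ h U' := by
    intro y hy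
    have h1 : DifferentiableAt ℂ (fun y => ρ (p + y)) y :=
      (hρ.differentiableAt hy).comp y (hshift y)
    exact ((innerSL ℂ p).differentiableAt.comp y (h1.sub_const p)).differentiableWithinAt
  have hh0 : h 0 = 0 := by simp only [h, add_zero]; rw [hρ.fix p hp hpU]; simp
  set L := fderiv ℂ h 0 with hL
  set B := fderiv ℂ (fderiv ℂ h) 0 with hB
  obtain ⟨v, hvT, hv0, u, hLv, hBv⟩ : ∃ v ∈ tang X p, v ≠ 0 ∧ ∃ u, L v = 0 ∧
      B v v + L ((2 : ℂ) • u) = 0 := by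
    by_cases hL0 : L = 0
    · obtain ⟨v, hv, hv0, hBv⟩ := exists_isotropic (tang X p) hdim B
      exact ⟨v, hv, hv0, 0, by rw [hL0]; rfl, by rw [hBv, smul_zero, map_zero, add_zero]⟩
    · obtain ⟨w, hw⟩ : ∃ w, L w ≠ 0 := by
        by_contra hcon
        push Not at hcon
        exact hL0 (ContinuousLinearMap.ext hcon)
      obtain ⟨v, hv, hv0, hLv⟩ := exists_ker (tang X p) hdim L
      refine ⟨v, hv, hv0, (-(B v v) / (2 * L w)) • w, hLv, ?_⟩
      rw [map_smul, map_smul, smul_eq_mul, smul_eq_mul]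
      field_simp
      ring
  let d : ℂ → E := fun ζ => ζ • v + ζ ^ 2 • u
  have hdd : ∀ ζ, HasDerivAt d (v + (2 * ζ) • u) ζ := by
    intro ζ
    have h1 : HasDerivAt (fun ζ : ℂ => ζ • v) ((1 : ℂ) • v) ζ := (hasDerivAt_id ζ).smul_const v
    have h2 : HasDerivAt (fun ζ : ℂ => ζ ^ 2 • u) ((2 * ζ) • u) ζ := by
      have := (hasDerivAt_pow 2 ζ).smul_const u
      simpa using this
    rw [one_smul] at h1
    exact h1.add h2
  have hd0 : d 0 = 0 := by simp [d]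
  have hdc : Continuous d := continuous_iff_continuousAt.2 fun ζ => (hdd ζ).continuousAt
  obtain ⟨r0, hr0, hr0U⟩ : ∃ r0 > 0, ∀ ζ ∈ ball (0 : ℂ) r0, d ζ ∈ U' := by
    have h1 : ∀ᶠ ζ in 𝓝 (0 : ℂ), d ζ ∈ U' := by
      have h2 := hdc.tendsto 0
      rw [hd0] at h2
      exact h2.eventually (hU'.mem_nhds h0U')
    exact Metric.eventually_nhds_iff_ball.1 h1
  let g : ℂ → ℂ := fun ζ => fderiv ℂ h (d ζ) (v + (2 * ζ) • u)
  have hH : ∀ ζ ∈ ball (0 : ℂ) r0, HasDerivAt (fun ζ => h (d ζ)) (g ζ) ζ := by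
    intro ζ hζ
    have h1 : HasFDerivAt h (fderiv ℂ h (d ζ)) (d ζ) :=
      (hd.differentiableAt (hU'.mem_nhds (hr0U ζ hζ))).hasFDerivAt
    exact h1.comp_hasDerivAt ζ (hdd ζ)
  have hg0 : g 0 = 0 := by simp only [g, hd0, mul_zero, zero_smul, add_zero]; exact hLv
  have hg : HasDerivAt g 0 0 := by
    have h1 : HasFDerivAt (fderiv ℂ h) B (d 0) := by
      rw [hd0]
      exact (differentiableAt_fderiv hU' hd h0U').hasFDerivAt
    have h2 : HasDerivAt (fun ζ => fderiv ℂ h (d ζ)) (B (v + (2 * (0 : ℂ)) • u)) 0 :=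
      h1.comp_hasDerivAt (0 : ℂ) (hdd 0)
    have h3 : HasDerivAt (fun ζ : ℂ => v + (2 * ζ) • u) ((2 : ℂ) • u) 0 := by
      have h4 : HasDerivAt (fun ζ : ℂ => 2 * ζ) 2 0 := by
        simpa using (hasDerivAt_id (0 : ℂ)).const_mul 2
      exact (h4.smul_const u).const_add v
    have h5 := h2.clm_apply h3
    simp only [mul_zero, zero_smul, add_zero, hd0] at h5
    rw [← hL, hBv] at h5
    exact h5
  have hvpos : 0 < ‖v‖ := norm_pos_iff.2 hv0
  obtain ⟨r1, hr1, h1⟩ := small_of_deriv hr0 hH (by rw [hd0, hh0]) hg0 hg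
    (show 0 < ‖v‖ ^ 2 / 16 by positivity)
  -- lower bound for the displacement
  have hρd : HasDerivAt (fun ζ => ρ (p + d ζ)) v 0 := by
    have h2 : HasFDerivAt ρ (fderiv ℂ ρ p) (p + d 0) := by
      rw [hd0, add_zero]; exact (hρ.differentiableAt hpU).hasFDerivAt
    have h3 := h2.comp_hasDerivAt (0 : ℂ) ((hdd 0).const_add p)
    have h4 : fderiv ℂ ρ p (v + (2 * (0 : ℂ)) • u) = v := by
      rw [mul_zero, zero_smul, add_zero]
      exact (hρ.tan p hp hpU v).1 hvT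
    rw [h4] at h3
    exact h3
  have hρ0 : ρ (p + d 0) = p := by rw [hd0, add_zero]; exact hρ.fix p hp hpU
  obtain ⟨r2, hr2, h2⟩ : ∃ r2 > 0, ∀ ζ ∈ ball (0 : ℂ) r2, ‖v‖ / 2 * ‖ζ‖ ≤ ‖ρ (p + d ζ) - p‖ := by
    have h3 := hρd.isLittleO.def (show 0 < ‖v‖ / 2 by positivity)
    obtain ⟨r2, hr2, h4⟩ := Metric.eventually_nhds_iff_ball.1 h3
    refine ⟨r2, hr2, fun ζ hζ => ?_⟩
    have h5 := h4 ζ hζ
    rw [hρ0, sub_zero] at h5
    have h6 : ‖ζ • v‖ ≤ ‖ρ (p + d ζ) - p‖ + ‖ρ (p + d ζ) - p - ζ • v‖ := by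
      have : ζ • v = (ρ (p + d ζ) - p) - (ρ (p + d ζ) - p - ζ • v) := by abel
      calc ‖ζ • v‖ = ‖(ρ (p + d ζ) - p) - (ρ (p + d ζ) - p - ζ • v)‖ := by rw [← this]
        _ ≤ _ := norm_sub_le _ _
    rw [norm_smul] at h6
    nlinarith
  obtain ⟨r, hr, hrr⟩ : ∃ r > 0, r < min r0 (min r1 r2) :=
    exists_between (lt_min hr0 (lt_min hr1 hr2))
  have hrr0 : r < r0 := hrr.trans_le (min_le_left _ _)
  have hrr1 : r < r1 := hrr.trans_le ((min_le_right _ _).trans (min_le_left _ _))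
  have hrr2 : r < r2 := hrr.trans_le ((min_le_right _ _).trans (min_le_right _ _))
  refine ⟨v, u, r, hr, fun ζ hζ => hr0U ζ (by simpa using hζ.trans_lt hrr0), fun ζ hζ => ?_⟩
  have h3 := h1 ζ (by rw [hζ]; exact hrr1)
  have h4 := h2 ζ (by simpa [hζ] using hrr2)
  rw [hζ] at h3 h4
  have h5 : ‖ρ (p + d ζ)‖ ^ 2 = ‖p‖ ^ 2 + 2 * (h (d ζ)).re + ‖ρ (p + d ζ) - p‖ ^ 2 := by
    have h6 : ρ (p + d ζ) = p + (ρ (p + d ζ) - p) := by abel
    conv_lhs => rw [h6]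
    rw [@norm_add_sq ℂ]
    rfl
  have h6 : |(h (d ζ)).re| ≤ ‖v‖ ^ 2 / 16 * r ^ 2 := (Complex.abs_re_le_norm _).trans h3
  have h7 := abs_le.1 h6
  have h8 : (‖v‖ / 2 * r) ^ 2 ≤ ‖ρ (p + d ζ) - p‖ ^ 2 := by gcongr
  have h9 : 0 < ‖v‖ ^ 2 * r ^ 2 := by positivity
  have h10 : ‖p‖ ^ 2 < ‖ρ (p + d ζ)‖ ^ 2 := by
    rw [h5]
    nlinarith [h7.1]
  exact lt_of_pow_lt_pow_left₀ 2 (norm_nonneg _) h10

/-- Local connectedness of `X ∩ {‖z‖ > ‖p‖}` at `p`. -/
theorem Mfd.LL (hX : Mfd X) {p : E} (hp : p ∈ X) (hdim : 2 ≤ Module.finrank ℂ (tang X p)) :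
    ∃ η > 0, ∀ a ∈ X, ∀ b ∈ X, dist a p < η → dist b p < η → ‖p‖ < ‖a‖ → ‖p‖ < ‖b‖ →
      ∃ C ⊆ X, IsPreconnected C ∧ a ∈ C ∧ b ∈ C ∧ ∀ z ∈ C, ‖p‖ < ‖z‖ := by
  obtain ⟨ρ, U, hpU, hρ⟩ := hX.retr p hp
  obtain ⟨v, u, r, hr, hU, hcirc⟩ := exists_disc hρ hp hpU hdim
  let d : ℂ → E := fun ζ => ζ • v + ζ ^ 2 • u
  have hd : Differentiable ℂ d := by
    intro ζ
    exact (differentiableAt_id.smul_const v).add ((differentiableAt_id.pow 2).smul_const u)
  have hdc : Continuous d := hd.continuous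
  have hd0 : d 0 = 0 := by simp [d]
  -- uniformity in the centre
  obtain ⟨η1, hη1, h1⟩ : ∃ η1 > 0, ∀ x, dist x p < η1 → ∀ ζ ∈ closedBall (0 : ℂ) r,
      x + d ζ ∈ U := by
    have hK : IsCompact ((fun ζ => p + d ζ) '' closedBall (0 : ℂ) r) :=
      (isCompact_closedBall _ _).image (continuous_const.add hdc)
    obtain ⟨δ, hδ, h2⟩ := hK.exists_thickening_subset_open hρ.op (by
      rintro _ ⟨ζ, hζ, rfl⟩
      exact hU ζ (by simpa using hζ))
    refine ⟨δ, hδ, fun x hx ζ hζ => h2 (mem_thickening_iff.2 ⟨_, ⟨ζ, hζ, rfl⟩, ?_⟩)⟩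
    simpa using hx
  obtain ⟨η2, hη2, h2⟩ : ∃ η2 > 0, ∀ x, dist x p < η2 → ∀ ζ ∈ sphere (0 : ℂ) r,
      ‖p‖ < ‖ρ (x + d ζ)‖ := by
    have hK : IsCompact ((fun ζ => p + d ζ) '' sphere (0 : ℂ) r) :=
      (isCompact_sphere _ _).image (continuous_const.add hdc)
    have hO : IsOpen (U ∩ (fun y => ‖ρ y‖) ⁻¹' Ioi ‖p‖) :=
      (hρ.diff.continuousOn.norm).isOpen_inter_preimage hρ.op isOpen_Ioi
    obtain ⟨δ, hδ, h3⟩ := hK.exists_thickening_subset_open hO (by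
      rintro _ ⟨ζ, hζ, rfl⟩
      have hζ' : ‖ζ‖ = r := by simpa using hζ
      exact ⟨hU ζ hζ'.le, hcirc ζ hζ'⟩)
    refine ⟨δ, hδ, fun x hx ζ hζ => (h3 (mem_thickening_iff.2 ⟨_, ⟨ζ, hζ, rfl⟩, ?_⟩)).2⟩
    simpa using hx
  set η := min η1 η2 with hη
  have hηpos : 0 < η := lt_min hη1 hη2
  -- the circle family
  let S : Set E := (fun q : E × ℂ => ρ (q.1 + d q.2)) '' (ball p η ×ˢ sphere (0 : ℂ) r)
  have hSX : S ⊆ X := by
    rintro _ ⟨⟨x, ζ⟩, ⟨hx, hζ⟩, rfl⟩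
    exact hρ.maps _ (h1 x ((mem_ball.1 hx).trans_le (min_le_left _ _)) ζ
      (sphere_subset_closedBall hζ))
  have hSn : ∀ z ∈ S, ‖p‖ < ‖z‖ := by
    rintro _ ⟨⟨x, ζ⟩, ⟨hx, hζ⟩, rfl⟩
    exact h2 x ((mem_ball.1 hx).trans_le (min_le_right _ _)) ζ hζ
  have hSc : IsPreconnected S := by
    let _ : NormedSpace ℝ E := NormedSpace.restrictScalars ℝ ℂ E
    refine ((convex_ball p η).isPreconnected.prod (isPreconnected_sphere (by simp) 0 r)).image _ ?_
    rintro ⟨x, ζ⟩ ⟨hx, hζ⟩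
    have h3 : x + d ζ ∈ U := h1 x ((mem_ball.1 hx).trans_le (min_le_left _ _)) ζ
      (sphere_subset_closedBall hζ)
    have h4 : ContinuousAt ρ (x + d ζ) := (hρ.differentiableAt h3).continuousAt
    have h5 : ContinuousAt (fun q : E × ℂ => q.1 + d q.2) (x, ζ) :=
      (continuous_fst.add (hdc.comp continuous_snd)).continuousAt
    exact (ContinuousAt.comp (f := fun q : E × ℂ => q.1 + d q.2) h4 h5).continuousWithinAt
  -- connecting a point to the circle family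
  have hmain : ∀ a ∈ X, dist a p < η → ‖p‖ < ‖a‖ → ∃ C ⊆ X, IsPreconnected C ∧ a ∈ C ∧
      (∀ z ∈ C, ‖p‖ < ‖z‖) ∧ (C ∩ S).Nonempty := by
    intro a ha hap hpa
    let G : ℂ → E := fun ζ => ρ (a + d ζ)
    have haU : ∀ ζ ∈ closedBall (0 : ℂ) r, a + d ζ ∈ U :=
      h1 a (hap.trans_le (min_le_left _ _))
    have hG0 : G 0 = a := by
      have h3 := haU 0 (mem_closedBall_self hr.le)
      show ρ (a + d 0) = a
      rw [hd0, add_zero] at h3 ⊢
      exact hρ.fix a ha h3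
    have hGd : ∀ ζ ∈ closedBall (0 : ℂ) r, DifferentiableAt ℂ G ζ := fun ζ hζ =>
      (hρ.differentiableAt (haU ζ hζ)).comp ζ ((hd ζ).const_add a)
    let O : Set ℂ := ball (0 : ℂ) r ∩ {ζ | ‖p‖ < ‖G ζ‖}
    have hO : IsOpen O := by
      have h3 : ContinuousOn (fun ζ => ‖G ζ‖) (ball (0 : ℂ) r) := fun ζ hζ =>
        (hGd ζ (ball_subset_closedBall hζ)).continuousAt.norm.continuousWithinAt
      exact h3.isOpen_inter_preimage isOpen_ball isOpen_Ioi
    have h0O : (0 : ℂ) ∈ O := ⟨mem_ball_self hr, by show ‖p‖ < ‖G 0‖; rw [hG0]; exact hpa⟩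
    set D := connectedComponentIn O 0 with hD
    have hDO : D ⊆ O := connectedComponentIn_subset _ _
    have hDo : IsOpen D := hO.connectedComponentIn
    have hDc : IsPreconnected D := isPreconnected_connectedComponentIn
    have h0D : (0 : ℂ) ∈ D := mem_connectedComponentIn h0O
    have hDb : Bornology.IsBounded D := isBounded_ball.subset (hDO.trans inter_subset_left)
    have hDcl : closure D ⊆ closedBall (0 : ℂ) r :=
      closure_minimal ((hDO.trans inter_subset_left).trans ball_subset_closedBall)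
        isClosed_closedBall
    obtain ⟨z, hz, hzmax⟩ := Complex.exists_mem_frontier_isMaxOn_norm hDb ⟨0, h0D⟩
      (f := G) (DifferentiableOn.diffContOnCl fun ζ hζ =>
        (hGd ζ (hDcl hζ)).differentiableWithinAt)
    have hzn : ‖p‖ < ‖G z‖ := by
      have h3 := hzmax (subset_closure h0D)
      have h4 : ‖G 0‖ ≤ ‖G z‖ := h3
      rw [hG0] at h4
      exact hpa.trans_le h4
    have hzcl : z ∈ closure D := frontier_subset_closure hz
    have hzr : z ∈ sphere (0 : ℂ) r := by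
      have h3 : ‖z‖ ≤ r := by simpa using hDcl hzcl
      rcases h3.lt_or_eq with h4 | h4
      · exfalso
        have hzO : z ∈ O := ⟨by simpa using h4, hzn⟩
        have h5 : IsPreconnected (insert z D) :=
          hDc.subset_closure (subset_insert _ _) (insert_subset hzcl subset_closure)
        have h6 : insert z D ⊆ D := h5.subset_connectedComponentIn (mem_insert_of_mem _ h0D)
          (insert_subset hzO hDO)
        have h7 : z ∈ D := h6 (mem_insert _ _)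
        rw [frontier, hDo.interior_eq] at hz
        exact hz.2 h7
      · simpa using h4
    have h5 : IsPreconnected (insert z D) :=
      hDc.subset_closure (subset_insert _ _) (insert_subset hzcl subset_closure)
    have hsub : insert z D ⊆ closedBall (0 : ℂ) r :=
      insert_subset (sphere_subset_closedBall hzr) (subset_closure.trans hDcl)
    refine ⟨G '' insert z D, ?_, ?_, ⟨0, mem_insert_of_mem _ h0D, hG0⟩, ?_, ?_⟩
    · rintro _ ⟨ζ, hζ, rfl⟩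
      exact hρ.maps _ (haU ζ (hsub hζ))
    · exact h5.image _ fun ζ hζ => (hGd ζ (hsub hζ)).continuousAt.continuousWithinAt
    · rintro _ ⟨ζ, hζ, rfl⟩
      rcases hζ with rfl | hζ
      · exact hzn
      · exact (hDO hζ).2
    · exact ⟨G z, ⟨z, mem_insert _ _, rfl⟩, ⟨(a, z), ⟨hap, hzr⟩, rfl⟩⟩
  refine ⟨η, hηpos, fun a ha b hb hap hbp hpa hpb => ?_⟩
  obtain ⟨Ca, hCaX, hCac, haC, hCan, ⟨z1, hz1, hz1S⟩⟩ := hmain a ha hap hpa
  obtain ⟨Cb, hCbX, hCbc, hbC, hCbn, ⟨z2, hz2, hz2S⟩⟩ := hmain b hb hbp hpb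
  refine ⟨(Ca ∪ S) ∪ Cb, union_subset (union_subset hCaX hSX) hCbX, ?_, Or.inl (Or.inl haC),
    Or.inr hbC, ?_⟩
  · exact (hCac.union z1 hz1 hz1S hSc).union z2 (Or.inr hz2S) hz2 hCbc
  · rintro z ((hz | hz) | hz)
    · exact hCan z hz
    · exact hSn z hz
    · exact hCbn z hz

end H67.Tame
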