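import Mathlib

/-! Topological lemma: superlevel sets of an exhaustion without local maxima, which are locally
connected at their boundary points, are connected. -/

namespace H67.Tame

open Set Filter Topology

variable {Y : Type*} [MetricSpace Y]

/-- `{N > c}` is separated by the open sets `A`, `B`. -/
structure Sep (N : Y → ℝ) (c : ℝ) (A B : Set Y) : Prop where
  oA : IsOpen A
  oB : IsOpen B
  disj : Disjoint A B
  union : A ∪ B = {y | c < N y}
  neA : A.Nonempty
  neB : B.Nonempty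

theorem Sep.symm {N : Y → ℝ} {c : ℝ} {A B : Set Y} (h : Sep N c A B) : Sep N c B A :=
  ⟨h.oB, h.oA, h.disj.symm, by rw [union_comm]; exact h.union, h.neB, h.neA⟩

theorem Sep.subA {N : Y → ℝ} {c : ℝ} {A B : Set Y} (h : Sep N c A B) {y : Y} (hy : y ∈ A) :
    c < N y := h.union.subset (Or.inl hy)

theorem Sep.mem_of_closure {N : Y → ℝ} {c : ℝ} {A B : Set Y} (h : Sep N c A B) {y : Y}
    (hy : y ∈ closure A) (hc : c < N y) : y ∈ A := by
  rcases h.union.symm.subset hc with h1 | h1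
  · exact h1
  · exact absurd (h.disj.closure_left h.oB) (Set.not_disjoint_iff.2 ⟨y, hy, h1⟩)

variable {N : Y → ℝ} (hN : Continuous N) (hcomp : ∀ c, IsCompact {y | N y ≤ c})
  (hmax : ∀ y, ¬ IsLocalMax N y)

include hN hcomp hmax in
theorem Sep.nonempty_above {c c' : ℝ} (hc : c ≤ c') {A B : Set Y} (h : Sep N c A B) :
    (A ∩ {y | c' < N y}).Nonempty := by
  by_contra hne
  rw [not_nonempty_iff_eq_empty] at hne
  have hA : A ⊆ {y | N y ≤ c'} := by
    intro y hy
    by_contra hlt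
    have : y ∈ A ∩ {y | c' < N y} := ⟨hy, show c' < N y from lt_of_not_ge hlt⟩
    rw [hne] at this
    exact this
  have hcl : closure A ⊆ {y | N y ≤ c'} := closure_minimal hA (isClosed_le hN continuous_const)
  have hclc : IsCompact (closure A) := (hcomp c').of_isClosed_subset isClosed_closure hcl
  obtain ⟨q, hq, hqmax⟩ := hclc.exists_isMaxOn h.neA.closure hN.continuousOn
  obtain ⟨a, ha⟩ := h.neA
  have hqA : q ∈ A := h.mem_of_closure hq (lt_of_lt_of_le (h.subA ha) (hqmax (subset_closure ha)))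
  apply hmax q
  filter_upwards [h.oA.mem_nhds hqA] with y hy
  exact hqmax (subset_closure hy)

include hN hcomp hmax in
theorem Sep.raise {c c' : ℝ} (hc : c ≤ c') {A B : Set Y} (h : Sep N c A B) :
    Sep N c' (A ∩ {y | c' < N y}) (B ∩ {y | c' < N y}) := by
  have ho : IsOpen {y | c' < N y} := isOpen_lt continuous_const hN
  refine ⟨h.oA.inter ho, h.oB.inter ho, h.disj.mono inter_subset_left inter_subset_left, ?_,
    h.nonempty_above hN hcomp hmax hc, h.symm.nonempty_above hN hcomp hmax hc⟩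
  rw [← union_inter_distrib_right, h.union]
  ext y
  exact ⟨fun hy => hy.2, fun hy => ⟨lt_of_le_of_lt hc hy, hy⟩⟩

include hN hcomp hmax in
theorem Sep.slice [PreconnectedSpace Y] {c d : ℝ} (hc : c < d) {A B : Set Y} (h : Sep N c A B) :
    (A ∩ {y | N y = d}).Nonempty := by
  by_contra hne
  rw [not_nonempty_iff_eq_empty] at hne
  have hcl : IsClopen (A ∩ {y | d < N y}) := by
    constructor
    · apply isClosed_of_closure_subset
      intro y hy
      have h1 : y ∈ closure A := closure_mono inter_subset_left hy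
      have h2 : d ≤ N y := by
        have h3 : closure (A ∩ {y | d < N y}) ⊆ {y | d ≤ N y} :=
          closure_minimal (fun z hz => show d ≤ N z from le_of_lt hz.2)
            (isClosed_le continuous_const hN)
        exact h3 hy
      have h3 : y ∈ A := h.mem_of_closure h1 (lt_of_lt_of_le hc h2)
      refine ⟨h3, lt_of_le_of_ne h2 fun h4 => ?_⟩
      have : y ∈ A ∩ {y | N y = d} := ⟨h3, h4.symm⟩
      rw [hne] at this
      exact this
    · exact h.oA.inter (isOpen_lt continuous_const hN)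
  have h1 := hcl.eq_univ (h.nonempty_above hN hcomp hmax hc.le)
  obtain ⟨b, hb⟩ := h.neB
  have h2 : b ∈ A ∩ {y | d < N y} := by rw [h1]; trivial
  exact Set.disjoint_left.1 h.disj h2.1 hb

variable (hLL : ∀ p, ∃ W ∈ 𝓝 p, ∀ a ∈ W, ∀ b ∈ W, N p < N a → N p < N b →
    ∃ C, IsPreconnected C ∧ a ∈ C ∧ b ∈ C ∧ C ⊆ {y | N p < N y})

include hN hcomp hmax hLL in
theorem Sep.lower {c : ℝ} {A B : Set Y} (h : Sep N c A B) : ∃ c' < c, ∃ A' B', Sep N c' A' B' := by
  have hdisj : Disjoint (closure A) (closure B) := by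
    rw [Set.disjoint_left]
    intro p hpA hpB
    rcases lt_or_ge c (N p) with hcp | hcp
    · exact Set.disjoint_left.1 h.disj (h.mem_of_closure hpA hcp) (h.symm.mem_of_closure hpB hcp)
    · have hpc : N p = c := by
        refine le_antisymm hcp ?_
        have h3 : closure A ⊆ {y | c ≤ N y} :=
          closure_minimal (fun z hz => (h.subA hz).le) (isClosed_le continuous_const hN)
        exact h3 hpA
      obtain ⟨W, hW, hWp⟩ := hLL p
      obtain ⟨a, haW, haA⟩ := mem_closure_iff_nhds.1 hpA W hW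
      obtain ⟨b, hbW, hbB⟩ := mem_closure_iff_nhds.1 hpB W hW
      obtain ⟨C, hC, haC, hbC, hCsub⟩ := hWp a haW b hbW (by rw [hpc]; exact h.subA haA)
        (by rw [hpc]; exact h.symm.subA hbB)
      rw [hpc] at hCsub
      have h4 := hC A B h.oA h.oB (by rw [h.union]; exact hCsub) ⟨a, haC, haA⟩ ⟨b, hbC, hbB⟩
      obtain ⟨z, -, hz⟩ := h4
      exact Set.disjoint_left.1 h.disj hz.1 hz.2
  have hcover : {y | c ≤ N y} ⊆ closure A ∪ closure B := by
    intro p hp
    rw [← closure_union, h.union]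
    rw [mem_closure_iff_nhds]
    intro t ht
    by_contra hne
    apply hmax p
    filter_upwards [ht] with y hy
    by_contra hlt
    apply hne
    exact ⟨y, hy, lt_of_le_of_lt hp (not_le.1 hlt)⟩
  obtain ⟨OA, OB, hOA, hOB, hAO, hBO, hOd⟩ :=
    normal_separation isClosed_closure isClosed_closure hdisj
  have hk : IsCompact ({y | N y ≤ c} \ (OA ∪ OB)) := (hcomp c).diff (hOA.union hOB)
  obtain ⟨c', hc', hsub⟩ : ∃ c' < c, {y | c' < N y} ⊆ OA ∪ OB := by
    rcases ({y | N y ≤ c} \ (OA ∪ OB)).eq_empty_or_nonempty with he | hne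
    · refine ⟨c - 1, by linarith, fun y _ => ?_⟩
      by_contra hy
      have h5 : c ≤ N y ∨ N y ≤ c := le_total _ _
      rcases h5 with h5 | h5
      · rcases hcover h5 with h6 | h6
        · exact hy (Or.inl (hAO h6))
        · exact hy (Or.inr (hBO h6))
      · have : y ∈ {y | N y ≤ c} \ (OA ∪ OB) := ⟨h5, hy⟩
        rw [he] at this
        exact this
    · obtain ⟨q, hq, hqmax⟩ := hk.exists_isMaxOn hne hN.continuousOn
      have hqc : N q < c := by
        by_contra hlt
        rcases hcover (not_lt.1 hlt) with h6 | h6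
        · exact hq.2 (Or.inl (hAO h6))
        · exact hq.2 (Or.inr (hBO h6))
      refine ⟨N q, hqc, fun y hy => ?_⟩
      by_contra hyO
      rcases le_total c (N y) with h5 | h5
      · rcases hcover h5 with h6 | h6
        · exact hyO (Or.inl (hAO h6))
        · exact hyO (Or.inr (hBO h6))
      · have h7 : N y ≤ N q := hqmax (a := y) ⟨h5, hyO⟩
        exact absurd hy (not_lt.2 h7)
  have ho : IsOpen {y | c' < N y} := isOpen_lt continuous_const hN
  refine ⟨c', hc', OA ∩ {y | c' < N y}, OB ∩ {y | c' < N y}, hOA.inter ho, hOB.inter ho,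
    hOd.mono inter_subset_left inter_subset_left, ?_, ?_, ?_⟩
  · rw [← union_inter_distrib_right]
    exact inter_eq_self_of_subset_right hsub
  · obtain ⟨a, ha⟩ := h.neA
    exact ⟨a, hAO (subset_closure ha), hc'.trans (h.subA ha)⟩
  · obtain ⟨b, hb⟩ := h.neB
    exact ⟨b, hBO (subset_closure hb), hc'.trans (h.symm.subA hb)⟩

include hN hcomp hmax in
theorem Sep.limit [PreconnectedSpace Y] [LocallyConnectedSpace Y] {c : ℝ}
    (h : ∀ c' > c, ∃ A B, Sep N c' A B) : ∃ A B, Sep N c A B := by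
  have hpos : ∀ k : ℕ, c < c + 1 / ((k : ℝ) + 1) := fun k => by
    have : (0 : ℝ) < 1 / ((k : ℝ) + 1) := by positivity
    linarith
  choose A B hAB using fun k : ℕ => h (c + 1 / ((k : ℝ) + 1)) (hpos k)
  let 𝒰 : Ultrafilter ℕ := Filter.hyperfilter ℕ
  have h𝒰 : (𝒰 : Filter ℕ) ≤ atTop := by
    rw [← Nat.cofinite_eq_atTop]; exact Filter.hyperfilter_le_cofinite
  have hlarge : ∀ c1 > c, ∀ᶠ k : ℕ in (𝒰 : Filter ℕ), c + 1 / ((k : ℝ) + 1) < c1 := by
    intro c1 hc1
    apply h𝒰
    have h1 : Tendsto (fun k : ℕ => c + 1 / ((k : ℝ) + 1)) atTop (𝓝 (c + 0)) :=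
      tendsto_one_div_add_atTop_nhds_zero_nat.const_add c
    rw [add_zero] at h1
    exact h1.eventually_lt_const hc1
  -- local constancy
  have hloc : ∀ y, c < N y → ∃ W ∈ 𝓝 y, ∀ᶠ k : ℕ in (𝒰 : Filter ℕ), W ⊆ A k ∨ W ⊆ B k := by
    intro y hy
    obtain ⟨c1, hc1, hc1y⟩ := exists_between hy
    have ho : {z | c1 < N z} ∈ 𝓝 y := (isOpen_lt continuous_const hN).mem_nhds hc1y
    obtain ⟨W, hWsub, hWo, hyW, hWc⟩ := (locallyConnectedSpace_iff_subsets_isOpen_isConnected.1
      inferInstance) y _ ho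
    refine ⟨W, hWo.mem_nhds hyW, ?_⟩
    filter_upwards [hlarge c1 hc1] with k hk
    have hWk : W ⊆ A k ∪ B k := by
      rw [(hAB k).union]
      exact fun z hz => hk.trans (hWsub hz)
    by_contra hcon
    rw [not_or, not_subset, not_subset] at hcon
    obtain ⟨⟨a, haW, haA⟩, ⟨b, hbW, hbB⟩⟩ := hcon
    have h1 := hWc.isPreconnected (A k) (B k) (hAB k).oA (hAB k).oB hWk
      ⟨b, hbW, (hWk hbW).resolve_right hbB⟩ ⟨a, haW, (hWk haW).resolve_left haA⟩
    obtain ⟨z, -, hz⟩ := h1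
    exact Set.disjoint_left.1 (hAB k).disj hz.1 hz.2
  have hmain : ∀ (A B : ℕ → Set Y), (∀ k : ℕ, Sep N (c + 1 / ((k : ℝ) + 1)) (A k) (B k)) →
      (∀ y, c < N y → ∃ W ∈ 𝓝 y, ∀ᶠ k : ℕ in (𝒰 : Filter ℕ), W ⊆ A k ∨ W ⊆ B k) →
      IsOpen {y | c < N y ∧ ∀ᶠ k in (𝒰 : Filter ℕ), y ∈ A k} ∧
      {y | c < N y ∧ ∀ᶠ k in (𝒰 : Filter ℕ), y ∈ A k}.Nonempty := by
    intro A B hAB hloc
    have hW : ∀ W : Set Y, (∀ᶠ k : ℕ in (𝒰 : Filter ℕ), W ⊆ A k ∨ W ⊆ B k) →
        ∀ y : ℕ → Y, (∀ᶠ k in (𝒰 : Filter ℕ), y k ∈ W ∧ y k ∈ A k) →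
        ∀ z ∈ W, ∀ᶠ k in (𝒰 : Filter ℕ), z ∈ A k := by
      intro W hW y hy z hz
      filter_upwards [hW, hy] with k h1 h2
      rcases h1 with h1 | h1
      · exact h1 hz
      · exact absurd (h1 h2.1) (Set.disjoint_left.1 (hAB k).disj h2.2)
    constructor
    · rw [isOpen_iff_mem_nhds]
      rintro y ⟨hy, hyA⟩
      obtain ⟨W, hWn, hWk⟩ := hloc y hy
      have h1 := hW W hWk (fun _ => y) (hyA.mono fun k hk => ⟨mem_of_mem_nhds hWn, hk⟩)
      filter_upwards [hWn, (isOpen_lt continuous_const hN).mem_nhds hy] with z hz hz2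
      exact ⟨hz2, h1 z hz⟩
    · have hsl : ∀ k, (A k ∩ {y | N y = c + 2}).Nonempty := fun k => by
        refine (hAB k).slice hN hcomp hmax ?_
        have : 1 / ((k : ℝ) + 1) ≤ 1 := by
          rw [div_le_one (by positivity)]
          have : (0 : ℝ) ≤ k := Nat.cast_nonneg k
          linarith
        linarith
      choose a ha using hsl
      obtain ⟨p, hp, hpl⟩ := (hcomp (c + 2)).ultrafilter_le_nhds (𝒰.map a) (by
        rw [le_principal_iff]
        exact Filter.Eventually.of_forall (f := (𝒰 : Filter ℕ)) fun k => le_of_eq (ha k).2)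
      have hpl' : Tendsto a 𝒰 (𝓝 p) := hpl
      have hNp : N p = c + 2 := by
        have h1 : Tendsto (fun k : ℕ => N (a k)) 𝒰 (𝓝 (N p)) := (hN.tendsto p).comp hpl'
        have h2 : (fun k : ℕ => N (a k)) = fun _ => c + 2 := funext fun k => (ha k).2
        rw [h2] at h1
        exact tendsto_nhds_unique h1 tendsto_const_nhds
      have hpc : c < N p := by rw [hNp]; linarith
      obtain ⟨W, hWn, hWk⟩ := hloc p hpc
      have h1 := hW W hWk a ((hpl'.eventually hWn).mono fun k hk => ⟨hk, (ha k).1⟩)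
      exact ⟨p, hpc, h1 p (mem_of_mem_nhds hWn)⟩
  obtain ⟨oA, neA⟩ := hmain A B hAB hloc
  obtain ⟨oB, neB⟩ := hmain B A (fun k => (hAB k).symm) (fun y hy => by
    obtain ⟨W, hW, h1⟩ := hloc y hy
    exact ⟨W, hW, h1.mono fun k hk => hk.symm⟩)
  refine ⟨_, _, oA, oB, ?_, ?_, neA, neB⟩
  · rw [Set.disjoint_left]
    rintro y ⟨-, h1⟩ ⟨-, h2⟩
    obtain ⟨k, hk1, hk2⟩ := (h1.and h2).exists
    exact Set.disjoint_left.1 (hAB k).disj hk1 hk2
  · ext y
    constructor
    · rintro (h1 | h1) <;> exact h1.1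
    · intro hy
      have h1 : ∀ᶠ k in (𝒰 : Filter ℕ), y ∈ A k ∨ y ∈ B k := by
        filter_upwards [hlarge _ hy] with k hk
        exact (hAB k).union.symm.subset hk
      rcases Ultrafilter.eventually_or.1 h1 with h2 | h2
      · exact Or.inl ⟨hy, h2⟩
      · exact Or.inr ⟨hy, h2⟩

include hN hcomp hmax hLL in
theorem superlevel_preconnected [PreconnectedSpace Y] [LocallyConnectedSpace Y]
    (h0 : ∀ y, 0 ≤ N y) (c : ℝ) : IsPreconnected {y | c < N y} := by
  have hnot : ∀ c, ¬ ∃ A B, Sep N c A B := by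
    intro c hc
    set S : Set ℝ := {c | ∃ A B, Sep N c A B} with hS
    have hne : S.Nonempty := ⟨c, hc⟩
    have hbdd : BddBelow S := by
      refine ⟨0, ?_⟩
      rintro d ⟨A, B, h⟩
      by_contra hd
      rw [not_le] at hd
      have huniv : A ∪ B = univ := by
        rw [h.union]
        exact eq_univ_of_forall fun y => hd.trans_le (h0 y)
      have h1 := isPreconnected_univ (α := Y) A B h.oA h.oB huniv.symm.subset
        (by rw [univ_inter]; exact h.neA) (by rw [univ_inter]; exact h.neB)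
      obtain ⟨z, -, hz⟩ := h1
      exact Set.disjoint_left.1 h.disj hz.1 hz.2
    have hinf : sInf S ∈ S := by
      apply Sep.limit hN hcomp hmax
      intro c' hc'
      obtain ⟨d, ⟨A, B, hd⟩, hdc⟩ := exists_lt_of_csInf_lt hne hc'
      exact ⟨_, _, hd.raise hN hcomp hmax hdc.le⟩
    obtain ⟨A, B, h⟩ := hinf
    obtain ⟨c', hc', A', B', h'⟩ := h.lower hN hcomp hmax hLL
    exact absurd (csInf_le hbdd (show c' ∈ S from ⟨A', B', h'⟩)) (not_le.2 hc')
  intro u v hu hv huv hnu hnv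
  by_contra hcon
  have ho : IsOpen {y | c < N y} := isOpen_lt continuous_const hN
  apply hnot c
  refine ⟨{y | c < N y} ∩ u, {y | c < N y} ∩ v, ho.inter hu, ho.inter hv, ?_, ?_, hnu, hnv⟩
  · rw [Set.disjoint_left]
    rintro z ⟨h1, h2⟩ ⟨-, h3⟩
    exact hcon ⟨z, h1, h2, h3⟩
  · rw [← inter_union_distrib_left]
    exact inter_eq_self_of_subset_left huv

end H67.Tame
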