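import Mathlib
import Pool.Agent.H67.Tame.Hull
import Pool.Agent.H67.Tame.ConnTop
import Pool.Agent.H67.Tame.ConnLL

/-! The complement of a holomorphically convex compact set is connected in dimension at least 2. -/

namespace H67.Tame

open Set Filter Topology Metric

variable {E : Type*} [NormedAddCommGroup E] [InnerProductSpace ℂ E] [FiniteDimensional ℂ E]
variable {F : Type*} [NormedAddCommGroup F] [NormedSpace ℂ F]
variable {X : Set E}

theorem Mfd.const_of_localMax [StrictConvexSpace ℝ F] (hX : Mfd X) {f : E → F}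
    (hf : DifferentiableOn ℂ f X) {x : E} (hx : x ∈ X)
    (hmax : ∀ᶠ y in 𝓝[X] x, ‖f y‖ ≤ ‖f x‖) : ∀ᶠ y in 𝓝[X] x, f y = f x := by
  obtain ⟨ρ, U, hxU, hρ⟩ := hX.retr x hx
  have h1 : ∀ᶠ z in 𝓝 x, DifferentiableAt ℂ (fun y => f (ρ y)) z := by
    filter_upwards [hρ.op.mem_nhds hxU] with z hz
    exact (hρ.comp_diff hf).differentiableAt (hρ.op.mem_nhds hz)
  have hρx : ρ x = x := hρ.fix x hx hxU
  have h2 : IsLocalMax (norm ∘ fun y => f (ρ y)) x := by
    have h3 : Tendsto ρ (𝓝 x) (𝓝[X] x) := by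
      rw [tendsto_nhdsWithin_iff]
      refine ⟨?_, ?_⟩
      · have := (hρ.differentiableAt hxU).continuousAt.tendsto
        rwa [hρx] at this
      · filter_upwards [hρ.op.mem_nhds hxU] with z hz
        exact hρ.maps z hz
    have h4 := h3.eventually hmax
    filter_upwards [h4] with z hz
    simpa [hρx] using hz
  have h3 := Complex.eventually_eq_of_isLocalMax_norm h1 h2
  filter_upwards [mem_nhdsWithin_of_mem_nhds h3, self_mem_nhdsWithin,
    mem_nhdsWithin_of_mem_nhds (hρ.op.mem_nhds hxU)] with y hy hyX hyU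
  have h4 : f (ρ y) = f (ρ x) := hy
  rwa [hρx, hρ.fix y hyX hyU] at h4

theorem Mfd.no_localMax (hX : Mfd X) {x : E} (hx : x ∈ X)
    (hdim : 2 ≤ Module.finrank ℂ (tang X x)) : ¬ ∀ᶠ y in 𝓝[X] x, ‖y‖ ≤ ‖x‖ := by
  intro hmax
  let _ : InnerProductSpace ℝ E := InnerProductSpace.rclikeToReal ℂ E
  have _ : UniformConvexSpace E := InnerProductSpace.toUniformConvexSpace
  have _ : StrictConvexSpace ℝ E := inferInstance
  have h1 := hX.const_of_localMax (f := fun y => y) differentiableOn_id hx hmax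
  obtain ⟨ρ, U, hxU, hρ⟩ := hX.retr x hx
  have h3 : Tendsto ρ (𝓝 x) (𝓝[X] x) := by
    rw [tendsto_nhdsWithin_iff]
    refine ⟨?_, ?_⟩
    · have := (hρ.differentiableAt hxU).continuousAt.tendsto
      rwa [hρ.fix x hx hxU] at this
    · filter_upwards [hρ.op.mem_nhds hxU] with z hz
      exact hρ.maps z hz
  have h4 : ρ =ᶠ[𝓝 x] fun _ => x := h3.eventually h1
  have h5 : fderiv ℂ ρ x = 0 := by
    rw [h4.fderiv_eq]
    exact fderiv_const_apply x
  have h6 : 0 < Module.finrank ℂ (tang X x) := by omega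
  obtain ⟨v, hv⟩ := Module.finrank_pos_iff_exists_ne_zero.1 h6
  apply hv
  have h7 := (hρ.tan x hx hxU v).1 v.2
  rw [h5] at h7
  exact Subtype.ext h7.symm

theorem Mfd.compl_preconnected (hX : Mfd X) (hdim : ∀ x ∈ X, 2 ≤ Module.finrank ℂ (tang X x))
    (hconn : IsPreconnected X) {K : Set E} (hK : Cvx X K) : IsPreconnected (X \ K) := by
  have hpre : PreconnectedSpace X := Subtype.preconnectedSpace hconn
  let N : X → ℝ := fun y => ‖(y : E)‖
  have hN : Continuous N := continuous_subtype_val.norm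
  have hcomp : ∀ c, IsCompact {y | N y ≤ c} := by
    intro c
    have h1 : {y | N y ≤ c} = ((↑) : X → E) ⁻¹' closedBall 0 c := by
      ext y
      simp [N]
    rw [h1]
    exact hX.closed.isClosedEmbedding_subtypeVal.isCompact_preimage (isCompact_closedBall _ _)
  have hmax : ∀ y, ¬ IsLocalMax N y := by
    intro y hy
    exact hX.no_localMax y.2 (hdim y y.2) ((eventually_nhds_subtype_iff X y _).1 hy)
  have hlc : LocallyConnectedSpace X := by
    refine locallyConnectedSpace_of_connected_bases (fun _ s => s)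
      (fun (y : X) (s : Set X) => s ∈ 𝓝 y ∧ IsPreconnected s) (fun y => ?_) (fun _ _ h => h.2)
    rw [hasBasis_iff]
    intro t
    constructor
    · intro ht
      rw [Metric.mem_nhds_iff] at ht
      obtain ⟨ε, hε, hεt⟩ := ht
      obtain ⟨W, hW, hWc, δ, hδ, hδW⟩ := hX.locally_connected y.2 hε
      refine ⟨((↑) : X → E) ⁻¹' W, ⟨?_, ?_⟩, ?_⟩
      · rw [Metric.mem_nhds_iff]
        exact ⟨δ, hδ, fun z hz => hδW ⟨z.2, hz⟩⟩
      · rw [← IsInducing.subtypeVal.isPreconnected_image, Subtype.image_preimage_coe]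
        rwa [inter_eq_self_of_subset_right (hW.trans inter_subset_left)]
      · intro z hz
        exact hεt (hW hz).2
    · rintro ⟨s, ⟨hs, -⟩, hst⟩
      exact mem_of_superset hs hst
  have hLL : ∀ p, ∃ W ∈ 𝓝 p, ∀ a ∈ W, ∀ b ∈ W, N p < N a → N p < N b →
      ∃ C, IsPreconnected C ∧ a ∈ C ∧ b ∈ C ∧ C ⊆ {y | N p < N y} := by
    intro p
    obtain ⟨η, hη, h1⟩ := hX.LL p.2 (hdim p p.2)
    refine ⟨ball p η, ball_mem_nhds p hη, fun a ha b hb hpa hpb => ?_⟩
    obtain ⟨C, hCX, hCc, haC, hbC, hCn⟩ := h1 a a.2 b b.2 ha hb hpa hpb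
    refine ⟨((↑) : X → E) ⁻¹' C, ?_, haC, hbC, fun z hz => hCn z hz⟩
    rw [← IsInducing.subtypeVal.isPreconnected_image, Subtype.image_preimage_coe]
    rwa [inter_eq_self_of_subset_right hCX]
  have hsup := superlevel_preconnected hN hcomp hmax hLL (fun y => norm_nonneg _)
  -- separation of the complement of K
  intro u v hu hv huv hnu hnv
  by_contra hcon
  have hKc : IsClosed (((↑) : X → E) ⁻¹' K) := hK.2.1.isClosed.preimage continuous_subtype_val
  have hunb : ∀ u v : Set E, IsOpen u → IsOpen v → X \ K ⊆ u ∪ v → ((X \ K) ∩ u).Nonempty →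
      ¬ ((X \ K) ∩ (u ∩ v)).Nonempty → ∀ c, ∃ y : X, c < N y ∧ (y : E) ∉ K ∧ (y : E) ∈ u := by
    intro u v hu hv huv hnu hcon c
    by_contra hb
    push Not at hb
    let A : Set X := {y | (y : E) ∉ K ∧ (y : E) ∈ u}
    have hAo : IsOpen A := hKc.isOpen_compl.inter (hu.preimage continuous_subtype_val)
    have hAc : A ⊆ {y | N y ≤ c} := fun y hy => by
      by_contra hlt
      exact hb y (lt_of_not_ge hlt) hy.1 hy.2
    have hclc : IsCompact (closure A) := (hcomp c).of_isClosed_subset isClosed_closure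
      (closure_minimal hAc (isClosed_le hN continuous_const))
    have hclA : ∀ y ∈ closure A, (y : E) ∉ K → y ∈ A := by
      intro y hy hyK
      rcases huv ⟨y.2, hyK⟩ with h1 | h1
      · exact ⟨hyK, h1⟩
      · exfalso
        obtain ⟨z, hz1, hz2⟩ := mem_closure_iff_nhds.1 hy (((↑) : X → E) ⁻¹' v)
          ((hv.preimage continuous_subtype_val).mem_nhds h1)
        exact hcon ⟨z, ⟨z.2, hz2.1⟩, hz2.2, hz1⟩
    obtain ⟨p, ⟨hpX, hpK⟩, hpu⟩ := hnu
    obtain ⟨f, hf, hf1, hf2⟩ := hK.2.2 p hpX hpK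
    let p' : X := ⟨p, hpX⟩
    have hp'A : p' ∈ A := ⟨hpK, hpu⟩
    let f' : X → ℝ := fun y => ‖f y‖
    have hf'c : Continuous f' := by
      have := hf.continuousOn.domRestrict
      exact this.norm
    obtain ⟨q, hq, hqmax⟩ := hclc.exists_isMaxOn ⟨p', subset_closure hp'A⟩ hf'c.continuousOn
    have hqp : 1 < f' q := lt_of_lt_of_le hf2 (hqmax (subset_closure hp'A))
    let Z : Set X := closure A ∩ {y | f' y = f' q}
    have hZA : ∀ y ∈ Z, y ∈ A := by
      intro y hy
      apply hclA y hy.1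
      intro hyK
      have h1 := hf1 y hyK
      have h2 : f' y = f' q := hy.2
      have h3 : f' y < 1 := h1
      linarith
    have hZ : IsClopen Z := by
      refine ⟨isClosed_closure.inter (isClosed_eq hf'c continuous_const), ?_⟩
      rw [isOpen_iff_mem_nhds]
      intro y hy
      have hyA := hZA y hy
      have h1 : ∀ᶠ z : X in 𝓝 y, ‖f z‖ ≤ ‖f y‖ := by
        filter_upwards [hAo.mem_nhds hyA] with z hz
        have h2 : f' z ≤ f' q := hqmax (subset_closure hz)
        have h3 : f' y = f' q := hy.2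
        rw [← h3] at h2
        exact h2
      have h2 := hX.const_of_localMax hf y.2 ((eventually_nhds_subtype_iff X y
        (fun z => ‖f z‖ ≤ ‖f y‖)).1 h1)
      have h3 := (eventually_nhds_subtype_iff X y (fun z => f z = f y)).2 h2
      filter_upwards [h3, hAo.mem_nhds hyA] with z hz hzA
      refine ⟨subset_closure hzA, ?_⟩
      show ‖f z‖ = f' q
      rw [hz]
      exact hy.2
    have hZu := hZ.eq_univ ⟨q, hq, rfl⟩
    have hcu : IsCompact (univ : Set X) := by
      rw [← hZu]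
      exact hclc.inter_right (isClosed_eq hf'c continuous_const)
    obtain ⟨m, -, hm⟩ := hcu.exists_isMaxOn ⟨q, trivial⟩ hN.continuousOn
    apply hmax m
    exact Filter.Eventually.of_forall fun z => hm (mem_univ z)
  obtain ⟨c, hc⟩ : ∃ c, ∀ y ∈ K, ‖y‖ ≤ c := by
    obtain ⟨c, hc⟩ := hK.2.1.isBounded.subset_closedBall 0
    exact ⟨c, fun y hy => by simpa using hc hy⟩
  have hcon' : ¬ ((X \ K) ∩ (v ∩ u)).Nonempty := by rwa [inter_comm v u]
  obtain ⟨y1, hy1, hy1K, hy1u⟩ := hunb u v hu hv huv hnu hcon c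
  obtain ⟨y2, hy2, hy2K, hy2v⟩ := hunb v u hv hu (by rwa [union_comm]) hnv hcon' c
  have hnotK : ∀ y : X, c < N y → (y : E) ∉ K := fun y hy hyK => absurd (hc y hyK) (not_le.2 hy)
  obtain ⟨z, hz1, hz2, hz3⟩ := hsup c (((↑) : X → E) ⁻¹' u) (((↑) : X → E) ⁻¹' v)
    (hu.preimage continuous_subtype_val) (hv.preimage continuous_subtype_val)
    (fun y hy => huv ⟨y.2, hnotK y hy⟩) ⟨y1, hy1, hy1u⟩ ⟨y2, hy2, hy2v⟩
  exact hcon ⟨z, ⟨z.2, hnotK z hz1⟩, hz2, hz3⟩

end H67.Tame
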