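import Mathlib
import Pool.Agent.H67.Tame.Prod

/-! Compositions of flows of finitely many complete fields: existence. -/

namespace H67.Tame

open Set Filter Topology Metric

variable {E : Type*} [NormedAddCommGroup E] [InnerProductSpace ℂ E] [FiniteDimensional ℂ E]
variable {X : Set E}

theorem exists_prod (hX : Mfd X) {ι : Type*} [DecidableEq ι] (V : ι → E → E) (s : Finset ι)
    (hV : ∀ j ∈ s, IsVF X (V j) ∧ IsComplete X (V j)) :
    ∃ g g' : (ι → ℝ) → E → E, (∀ c, Au X (g c) (g' c)) ∧ (∀ x ∈ X, g 0 x = x) ∧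
      ∀ K ⊆ X, IsCompact K → ∃ τ C, ProdEst X V s g g' K τ C := by
  induction s using Finset.induction_on with
  | empty =>
    refine ⟨fun _ x => x, fun _ x => x, fun _ => Au.id, fun _ _ => rfl, fun K _ _ => ⟨1, 1,
      one_pos, one_pos, ?_, ?_, ?_, ?_⟩⟩
    · intro d Δ _ hΔ x _
      simpa using hΔ
    · intro d Δ _ hΔ x _ y _
      simp only [Finset.sum_empty, norm_zero]
      positivity
    · intro c c' η Δ _ _ _ hη _ hΔ x _
      simp only [Finset.sum_empty, sub_self, norm_zero]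
      positivity
    · intro c η _ hη _ x _
      simp only [Finset.sum_empty, sub_self, add_zero, norm_zero]
      positivity
  | insert a s ha ih =>
    obtain ⟨g, g', hAu, hg0, hest⟩ := ih fun j hj => hV j (Finset.mem_insert_of_mem hj)
    obtain ⟨hVa, hVc⟩ := hV a (Finset.mem_insert_self a s)
    obtain ⟨φ, hφ⟩ := exists_flow hX hVa hVc
    refine ⟨fun c x => φ (c a) (g c x), fun c x => g' c (φ (-(c a)) x), fun c =>
      (hφ.au (c a)).comp (hAu c), fun x hx => ?_, fun K hKX hK => ?_⟩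
    · show φ ((0 : ι → ℝ) a) (g 0 x) = x
      rw [Pi.zero_apply, hg0 x hx, hφ.zero x hx]
    have hK1 := compact_nhd hX.closed hK 1
    have hK1X : X ∩ cthickening 1 K ⊆ X := inter_subset_left
    have hKK1 : K ⊆ X ∩ cthickening 1 K := subset_inter hKX (self_subset_cthickening _)
    obtain ⟨τ1, C1, h1⟩ := hest _ hK1X hK1
    obtain ⟨τ2, hτ2, C2, hC2, e1, e2, e3⟩ := hφ.estimate2 hX hVa hK1 hK1X
    obtain ⟨LV, hLV, hlipV⟩ := hX.lipschitz hVa.1 hK1 hK1X
    obtain ⟨M0, hM0⟩ := hK1.exists_bound_of_continuousOn (hVa.1.continuousOn.mono hK1X)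
    have hC1 := h1.Cpos
    have hτ1 := h1.τpos
    set MV := |M0| with hMV
    have hMVb : ∀ x ∈ X ∩ cthickening 1 K, ‖V a x‖ ≤ MV := fun x hx =>
      (hM0 x hx).trans (le_abs_self M0)
    have hMV0 : 0 ≤ MV := abs_nonneg _
    obtain ⟨τ, hτ, ha1, ha2, ha3, ha4, ha5⟩ : ∃ τ > 0, τ ≤ τ1 ∧ τ ≤ τ2 ∧ τ ≤ 1 ∧
        2 * C1 * τ ≤ 1 ∧ C2 * τ ≤ 1 := by
      refine ⟨min (min τ1 τ2) (min 1 (min (1 / (2 * C1)) (1 / C2))), by positivity, ?_, ?_, ?_,
        ?_, ?_⟩
      · exact (min_le_left _ _).trans (min_le_left _ _)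
      · exact (min_le_left _ _).trans (min_le_right _ _)
      · exact (min_le_right _ _).trans (min_le_left _ _)
      · have : min (min τ1 τ2) (min 1 (min (1 / (2 * C1)) (1 / C2))) ≤ 1 / (2 * C1) :=
          (min_le_right _ _).trans ((min_le_right _ _).trans (min_le_left _ _))
        rw [le_div_iff₀ (by positivity)] at this
        linarith
      · have : min (min τ1 τ2) (min 1 (min (1 / (2 * C1)) (1 / C2))) ≤ 1 / C2 :=
          (min_le_right _ _).trans ((min_le_right _ _).trans (min_le_right _ _))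
        rw [le_div_iff₀ (by positivity)] at this
        linarith
    set C := MV + LV + C1 + C2 + 2 * C1 * C2 + 2 * LV * C1 with hCdef
    have hCpos : 0 < C := by positivity
    have hins : ∀ {P : ι → Prop}, (∀ j ∈ insert a s, P j) → P a ∧ ∀ j ∈ s, P j := fun h =>
      ⟨h a (Finset.mem_insert_self a s), fun j hj => h j (Finset.mem_insert_of_mem hj)⟩
    have hgmem : ∀ (c : ι → ℝ) (η : ℝ), (∀ j ∈ s, |c j| ≤ η) → 0 ≤ η → η ≤ τ → ∀ x ∈ K,
        ‖g c x - x‖ ≤ 2 * C1 * η ∧ g c x ∈ X ∩ cthickening 1 K := by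
      intro c η hc hη hητ x hx
      have h2 := h1.move (fun x hx => hg0 x hx.1) hc hη (hητ.trans ha1) (hKK1 hx)
      have h3 : ‖g c x - x‖ ≤ 2 * C1 * η := by
        refine h2.trans ?_
        have : C1 * η * (1 + η) ≤ C1 * η * 2 := by
          gcongr
          linarith
        linarith
      refine ⟨h3, (hAu c).m x (hKX hx), mem_cthickening_of_dist_le _ x 1 K hx ?_⟩
      rw [dist_eq_norm]
      calc ‖g c x - x‖ ≤ 2 * C1 * η := h3
        _ ≤ 2 * C1 * τ := by gcongr
        _ ≤ 1 := ha4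
    refine ⟨τ, C, hτ, hCpos, ?_, ?_, ?_, ?_⟩
    · intro d Δ hd hΔ x hx
      obtain ⟨hda, hds⟩ := hins hd
      rw [Finset.sum_insert ha]
      have h2 := h1.size d Δ hds hΔ x (hKK1 hx)
      have h3 : ‖d a • V a x‖ ≤ Δ * MV := by
        rw [norm_smul, Real.norm_eq_abs]
        gcongr
        exact hMVb x (hKK1 hx)
      calc _ ≤ ‖d a • V a x‖ + ‖∑ j ∈ s, d j • V j x‖ := norm_add_le _ _
        _ ≤ Δ * MV + C1 * Δ := add_le_add h3 h2
        _ = (MV + C1) * Δ := by ring
        _ ≤ C * Δ := by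
            gcongr
            have : 0 ≤ LV + C2 + 2 * C1 * C2 + 2 * LV * C1 := by positivity
            rw [hCdef]; linarith
    · intro d Δ hd hΔ x hx y hy
      obtain ⟨hda, hds⟩ := hins hd
      rw [Finset.sum_insert ha]
      have h2 := h1.lip d Δ hds hΔ x (hKK1 hx) y (hKK1 hy)
      have h3 : ‖d a • (V a x - V a y)‖ ≤ Δ * (LV * ‖x - y‖) := by
        rw [norm_smul, Real.norm_eq_abs]
        gcongr
        exact hlipV x (hKK1 hx) y (hKK1 hy)
      calc _ ≤ ‖d a • (V a x - V a y)‖ + ‖∑ j ∈ s, d j • (V j x - V j y)‖ := norm_add_le _ _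
        _ ≤ Δ * (LV * ‖x - y‖) + C1 * Δ * ‖x - y‖ := add_le_add h3 h2
        _ = (LV + C1) * Δ * ‖x - y‖ := by ring
        _ ≤ C * Δ * ‖x - y‖ := by
            gcongr
            have : 0 ≤ MV + C2 + 2 * C1 * C2 + 2 * LV * C1 := by positivity
            rw [hCdef]; linarith
    · intro c c' η Δ hc hc' hcc hη hητ hΔ x hx
      obtain ⟨hca, hcs⟩ := hins hc
      obtain ⟨hca', hcs'⟩ := hins hc'
      obtain ⟨hcca, hccs⟩ := hins hcc
      rw [Finset.sum_insert ha]
      obtain ⟨hy1, hy2⟩ := hgmem c η hcs hη hητ x hx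
      obtain ⟨hy1', hy2'⟩ := hgmem c' η hcs' hη hητ x hx
      set y := g c x with hy
      set y' := g c' x with hy'
      have f1 := e3 (c a) (hca.trans (hητ.trans ha2)) y hy2 y' hy2'
      have f2 := e2 (c a) (c' a) η hca hca' (hητ.trans ha2) y' hy2'
      have f3 : ‖(c a - c' a) • (V a y' - V a x)‖ ≤ Δ * (LV * (2 * C1 * η)) := by
        rw [norm_smul, Real.norm_eq_abs]
        have := hlipV y' hy2' x (hKK1 hx)
        gcongr
        exact this.trans (by gcongr)
      have f4 := h1.fwd c c' η Δ hcs hcs' hccs hη (hητ.trans ha1) hΔ x (hKK1 hx)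
      have f5 := h1.size (fun j => c j - c' j) Δ hccs hΔ x (hKK1 hx)
      have f6 : ‖y - y'‖ ≤ 2 * C1 * Δ := by
        calc ‖y - y'‖ = ‖(y - y' - ∑ j ∈ s, (c j - c' j) • V j x) +
              ∑ j ∈ s, (c j - c' j) • V j x‖ := by congr 1; abel
          _ ≤ C1 * η * Δ + C1 * Δ := (norm_add_le _ _).trans (add_le_add f4 f5)
          _ ≤ C1 * 1 * Δ + C1 * Δ := by gcongr; exact hητ.trans ha3
          _ = 2 * C1 * Δ := by ring
      have f7 : C2 * |c a| * ‖y - y'‖ ≤ C2 * η * (2 * C1 * Δ) := by gcongr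
      have f8 : C2 * η * |c a - c' a| ≤ C2 * η * Δ := by gcongr
      have f9 : φ (c a) y - φ (c' a) y' - ((c a - c' a) • V a x +
          ∑ j ∈ s, (c j - c' j) • V j x) =
          ((φ (c a) y - φ (c a) y') - (y - y')) +
          (φ (c a) y' - φ (c' a) y' - (c a - c' a) • V a y') +
          (c a - c' a) • (V a y' - V a x) +
          (y - y' - ∑ j ∈ s, (c j - c' j) • V j x) := by
        rw [smul_sub]; abel
      rw [f9]
      refine (norm_add_le _ _).trans ?_
      refine (add_le_add norm_add₃_le le_rfl).trans ?_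
      calc _ ≤ C2 * η * (2 * C1 * Δ) + C2 * η * Δ + Δ * (LV * (2 * C1 * η)) + C1 * η * Δ :=
            add_le_add (add_le_add (add_le_add (f1.trans f7) (f2.trans f8)) f3) f4
        _ = (C1 + C2 + 2 * C1 * C2 + 2 * LV * C1) * η * Δ := by ring
        _ ≤ C * η * Δ := by
            gcongr
            rw [hCdef]; linarith
    · intro c η hc hη hητ x hx
      obtain ⟨hca, hcs⟩ := hins hc
      rw [Finset.sum_insert ha]
      have hca' : |(-(c a))| ≤ τ2 := by rw [abs_neg]; exact hca.trans (hητ.trans ha2)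
      have f0 := (e1 (-(c a)) hca' x (hKK1 hx)).2
      set z := φ (-(c a)) x with hz
      have f0' : ‖z - x‖ ≤ C2 * η := by
        refine f0.trans ?_
        rw [abs_neg]
        gcongr
      have hzK1 : z ∈ X ∩ cthickening 1 K := by
        refine ⟨hφ.maps _ x (hKX hx), mem_cthickening_of_dist_le _ x 1 K hx ?_⟩
        rw [dist_eq_norm]
        refine f0'.trans ((mul_le_mul_of_nonneg_left hητ hC2.le).trans ha5)
      have f1 := h1.bwd c η hcs hη (hητ.trans ha1) z hzK1
      have f2 := e2 (-(c a)) 0 η (by rwa [abs_neg]) (by simpa using hη) (hητ.trans ha2) x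
        (hKK1 hx)
      rw [hφ.zero x (hKX hx), sub_zero, abs_neg] at f2
      have f3 := h1.lip c η hcs hη z hzK1 x (hKK1 hx)
      have f4 : C1 * η * ‖z - x‖ ≤ C1 * η * (C2 * η) := by gcongr
      have f5 : C2 * η * |c a| ≤ C2 * η * η := by gcongr
      have f6 : g' c z - x + (c a • V a x + ∑ j ∈ s, c j • V j x) =
          (g' c z - z + ∑ j ∈ s, c j • V j z) + (z - x - (-(c a)) • V a x) -
          ∑ j ∈ s, c j • (V j z - V j x) := by
        simp only [smul_sub, Finset.sum_sub_distrib, neg_smul]; abel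
      rw [f6]
      refine (norm_sub_le _ _).trans ?_
      refine (add_le_add (norm_add_le _ _) le_rfl).trans ?_
      calc _ ≤ C1 * η ^ 2 + C2 * η * η + C1 * η * (C2 * η) :=
            add_le_add (add_le_add f1 (f2.trans f5)) (f3.trans f4)
        _ = (C1 + C2 + C1 * C2) * η ^ 2 := by ring
        _ ≤ C * η ^ 2 := by
            gcongr
            have h0 : 0 ≤ C1 * C2 := by positivity
            have : 0 ≤ MV + LV + 2 * LV * C1 := by positivity
            rw [hCdef]; linarith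

end H67.Tame
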