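import Mathlib
import Pool.Agent.H67.Tame.Prod2

/-! A finite family of complete fields which spans the tangent spaces at finitely many points. -/

namespace H67.Tame

open Set Filter Topology Metric

variable {E : Type*} [NormedAddCommGroup E] [InnerProductSpace ℂ E] [FiniteDimensional ℂ E]
variable {X : Set E}

theorem exists_family {n : ℕ} (hX : Submanifold X n) (hD : DensityProperty X) (S : Finset ℕ)
    {q : ℕ → E} (hq : ∀ i ∈ S, q i ∈ X) (hinj : InjOn q S) (P : ℕ → E →L[ℂ] E)
    (hP : ∀ i ∈ S, ∀ w, P i w ∈ tang X (q i)) :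
    ∃ (s : Finset {V : E → E // IsVF X V ∧ IsComplete X V})
      (B : (S → E) →ₗ[ℝ] ({V : E → E // IsVF X V ∧ IsComplete X V} → ℝ)) (C : ℝ), 0 < C ∧
      (∀ u, ∀ j ∈ s, |B u j| ≤ C * ‖u‖) ∧
      ∀ u : S → E, ∀ i : S, ∑ j ∈ s, B u j • j.1 (q i) = P i (u i) := by
  classical
  let ι := {V : E → E // IsVF X V ∧ IsComplete X V}
  let ev : (E → E) → (S → E) := fun V i => V (q i)
  let Λ : (ι →₀ ℝ) →ₗ[ℝ] (S → E) := Finsupp.linearCombination ℝ (fun j : ι => ev j.1)
  let W : Submodule ℝ (S → E) := LinearMap.range Λ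
  have hWcl : IsClosed (W : Set (S → E)) := Submodule.closed_of_finiteDimensional _
  have hWc : ∀ V : E → E, IsVF X V → IsComplete X V → ev V ∈ W := by
    intro V hV hc
    refine ⟨Finsupp.single ⟨V, hV, hc⟩ 1, ?_⟩
    rw [Finsupp.linearCombination_single, one_smul]
  have hWl : ∀ l, CList X l → ev l.sum ∈ W := by
    intro l
    induction l with
    | nil => intro _; exact W.zero_mem
    | cons U l ih =>
      intro hl
      have hU := hl U (List.mem_cons_self ..)
      rw [List.sum_cons]
      exact W.add_mem (hWc U hU.1 hU.2) (ih fun Z hZ => hl Z (List.mem_cons_of_mem _ hZ))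
  have hWcl' : ∀ V : E → E, Cl X V → ev V ∈ W := by
    intro V hV
    have h1 : ev V ∈ closure (W : Set (S → E)) := by
      rw [Metric.mem_closure_iff]
      intro ε hε
      obtain ⟨l, hl, h2⟩ := hV.2 (q '' S) (by rintro _ ⟨i, hi, rfl⟩; exact hq i hi)
        ((S.finite_toSet.image q).isCompact) ε hε
      refine ⟨ev l.sum, hWl l hl, ?_⟩
      rw [dist_pi_lt_iff hε]
      intro i
      rw [dist_comm, dist_eq_norm]
      exact h2 _ ⟨i, i.2, rfl⟩
    rwa [hWcl.closure_eq] at h1
  have hWsingle : ∀ (i0 : S) (w : E), w ∈ tang X (q i0) → (Pi.single i0 w : S → E) ∈ W := by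
    intro i0 w hw
    obtain ⟨V, hV, hVw, hV0⟩ := hX.interp S hq hinj i0.2 hw
    have h1 := hWcl' V (hD.cl hX.mfd hV)
    have h2 : ev V = Pi.single i0 w := by
      funext i
      by_cases hi : i = i0
      · subst hi
        rw [Pi.single_eq_same]
        exact hVw
      · rw [Pi.single_eq_of_ne hi]
        exact hV0 i i.2 fun h => hi (Subtype.ext h)
    rwa [h2] at h1
  have hWall : ∀ u : S → E, (∀ i : S, u i ∈ tang X (q i)) → u ∈ W := by
    intro u hu
    rw [← Finset.univ_sum_single u]
    exact W.sum_mem fun i _ => hWsingle i _ (hu i)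
  let b := Module.finBasis ℝ (S → E)
  have hφ : ∀ k, ∃ φ : ι →₀ ℝ, Λ φ = fun i : S => P i (b k i) := fun k =>
    hWall _ fun i => hP i i.2 _
  choose φ hφ using hφ
  let s : Finset ι := Finset.univ.biUnion fun k => (φ k).support
  let B : (S → E) →ₗ[ℝ] (ι → ℝ) := b.constr ℝ fun k => (φ k : ι → ℝ)
  have hBb : ∀ k, B (b k) = (φ k : ι → ℝ) := fun k => b.constr_basis ℝ _ k
  let Bj : ι → (S → E) →L[ℝ] ℝ := fun j => LinearMap.toContinuousLinearMap
    ((LinearMap.proj j : (ι → ℝ) →ₗ[ℝ] ℝ).comp B)
  have hBj : ∀ j u, Bj j u = B u j := fun j u => rfl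
  refine ⟨s, B, ∑ j ∈ s, ‖Bj j‖ + 1, by positivity, fun u j hj => ?_, ?_⟩
  · rw [← hBj, ← Real.norm_eq_abs]
    refine ((Bj j).le_opNorm u).trans ?_
    gcongr
    have : ‖Bj j‖ ≤ ∑ j ∈ s, ‖Bj j‖ :=
      Finset.single_le_sum (f := fun j => ‖Bj j‖) (fun j _ => (Bj j).opNorm_nonneg) hj
    linarith
  · let L1 : (S → E) →ₗ[ℝ] (S → E) :=
      { toFun := fun u i => ∑ j ∈ s, B u j • j.1 (q i)
        map_add' := by
          intro u v
          funext i
          simp only [map_add, Pi.add_apply, add_smul, Finset.sum_add_distrib]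
        map_smul' := by
          intro c u
          funext i
          simp only [map_smul, Pi.smul_apply, smul_eq_mul, mul_smul, Finset.smul_sum,
            RingHom.id_apply] }
    let L2 : (S → E) →ₗ[ℝ] (S → E) :=
      { toFun := fun u i => P i (u i)
        map_add' := by
          intro u v
          funext i
          simp only [Pi.add_apply, map_add]
        map_smul' := by
          intro c u
          funext i
          simp only [Pi.smul_apply, RingHom.id_apply]
          rw [← Complex.coe_smul, map_smul, Complex.coe_smul] }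
    have hL : L1 = L2 := by
      refine b.ext fun k => ?_
      have h1 : L2 (b k) = Λ (φ k) := (hφ k).symm
      rw [h1]
      funext i
      show ∑ j ∈ s, B (b k) j • j.1 (q i) = Λ (φ k) i
      rw [hBb]
      have h2 : Λ (φ k) = ∑ j ∈ s, φ k j • ev j.1 := by
        rw [Finsupp.linearCombination_apply]
        exact Finsupp.sum_of_support_subset _
          (Finset.subset_biUnion_of_mem (fun k => (φ k).support) (Finset.mem_univ k)) _ (by simp)
      rw [h2, Finset.sum_apply]
      rfl
    intro u i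
    exact congrFun (LinearMap.congr_fun hL u) i

end H67.Tame
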