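import Mathlib
import Pool.Agent.H67.Tame.Family

/-! Local transitivity: small corrections at finitely many points by automorphisms close to the
identity. -/

namespace H67.Tame

open Set Filter Topology Metric

variable {E : Type*} [NormedAddCommGroup E] [InnerProductSpace ℂ E] [FiniteDimensional ℂ E]
variable {X : Set E}

theorem lt_exact {n : ℕ} (hX : Submanifold X n) (hD : DensityProperty X) (S : Finset ℕ)
    {q : ℕ → E} (hq : ∀ i ∈ S, q i ∈ X) (hinj : InjOn q S) {K : Set E} (hK : IsCompact K)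
    (hKX : K ⊆ X) {ε : ℝ} (hε : 0 < ε) :
    ∃ δ > 0, ∀ r : ℕ → E, (∀ i ∈ S, r i ∈ X ∧ ‖r i - q i‖ < δ) → ∃ g g', Au X g g' ∧
      (∀ x ∈ K, ‖g x - x‖ < ε ∧ ‖g' x - x‖ < ε) ∧ ∀ i ∈ S, g (r i) = q i := by
  classical
  have hM := hX.mfd
  -- projections
  have hP : ∀ i, ∃ P : E →L[ℂ] E, i ∈ S → (∀ w, P w ∈ tang X (q i)) ∧
      (∀ v ∈ tang X (q i), P v = v) ∧ ∃ δ > 0, ∀ y ∈ X, ∀ z ∈ X, dist y (q i) < δ →
        dist z (q i) < δ → ‖(y - z) - P (y - z)‖ ≤ 1 / 2 * ‖y - z‖ := by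
    intro i
    by_cases hi : i ∈ S
    · obtain ⟨P, h1, h2, h3⟩ := hM.tangent_estimate (hq i hi)
      exact ⟨P, fun _ => ⟨h1, h2, h3 (1 / 2) (by norm_num)⟩⟩
    · exact ⟨0, fun h => absurd h hi⟩
  choose P hP using hP
  obtain ⟨s, B, C0, hC0, hB, hBP⟩ := exists_family hX hD S hq hinj P (fun i hi => (hP i hi).1)
  obtain ⟨g, g', hAu, hg0, hest⟩ := exists_prod hM (fun j : {V : E → E // IsVF X V ∧
    IsComplete X V} => j.1) s (fun j _ => j.2)
  have hqc : IsCompact (q '' S) := (S.finite_toSet.image q).isCompact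
  have hqX : q '' S ⊆ X := by rintro _ ⟨i, hi, rfl⟩; exact hq i hi
  have hK2 : IsCompact (K ∪ (X ∩ cthickening 1 (q '' S))) := hK.union (compact_nhd hM.closed hqc 1)
  obtain ⟨τ, C, hE⟩ := hest _ (union_subset hKX inter_subset_left) hK2
  have hC := hE.Cpos
  have hτ := hE.τpos
  -- uniform radius and norm of the projections
  obtain ⟨δ0, hδ0, hδ0P⟩ : ∃ δ > 0, ∀ i ∈ S, ∀ y ∈ X, ∀ z ∈ X, dist y (q i) < δ →
      dist z (q i) < δ → ‖(y - z) - P i (y - z)‖ ≤ 1 / 2 * ‖y - z‖ := by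
    have h1 : ∀ T : Finset ℕ, T ⊆ S → ∃ δ > 0, ∀ i ∈ T, ∀ y ∈ X, ∀ z ∈ X, dist y (q i) < δ →
        dist z (q i) < δ → ‖(y - z) - P i (y - z)‖ ≤ 1 / 2 * ‖y - z‖ := by
      intro T
      induction T using Finset.induction_on with
      | empty => intro _; exact ⟨1, one_pos, by simp⟩
      | insert a T _ ih =>
        intro hT
        obtain ⟨δ1, hδ1, h2⟩ := ih ((Finset.subset_insert _ _).trans hT)
        obtain ⟨δ2, hδ2, h3⟩ := (hP a (hT (Finset.mem_insert_self _ _))).2.2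
        refine ⟨min δ1 δ2, lt_min hδ1 hδ2, fun i hi y hy z hz hyq hzq => ?_⟩
        rcases Finset.mem_insert.1 hi with rfl | hi
        · exact h3 y hy z hz (hyq.trans_le (min_le_right _ _)) (hzq.trans_le (min_le_right _ _))
        · exact h2 i hi y hy z hz (hyq.trans_le (min_le_left _ _))
            (hzq.trans_le (min_le_left _ _))
    exact h1 S subset_rfl
  set N := ∑ i ∈ S, ‖P i‖ + 1 with hN
  have hNpos : 0 < N := by positivity
  have hNP : ∀ i ∈ S, ‖P i‖ ≤ N := by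
    intro i hi
    have : ‖P i‖ ≤ ∑ i ∈ S, ‖P i‖ :=
      Finset.single_le_sum (f := fun i => ‖P i‖) (fun j _ => (P j).opNorm_nonneg) hi
    rw [hN]; linarith
  -- choice of the radius `e` in parameter space
  obtain ⟨e, he, he1, he2, he3, he4, he5⟩ : ∃ e > 0, C0 * e ≤ τ ∧ C0 * e ≤ 1 ∧
      2 * C * (C0 * e) < ε ∧ 2 * C * (C0 * e) < δ0 / 2 ∧ N * C * C0 * (C0 * e) ≤ 1 / 4 := by
    have h1 : Tendsto (fun e : ℝ => C0 * e) (𝓝[>] 0) (𝓝 0) := by
      have : Tendsto (fun e : ℝ => C0 * e) (𝓝 0) (𝓝 (C0 * 0)) := tendsto_id.const_mul C0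
      rw [mul_zero] at this
      exact this.mono_left nhdsWithin_le_nhds
    have h2 : ∀ a : ℝ, 0 < a → ∀ b : ℝ, ∀ᶠ e : ℝ in 𝓝[>] 0, b * (C0 * e) < a := by
      intro a ha b
      have : Tendsto (fun e : ℝ => b * (C0 * e)) (𝓝[>] 0) (𝓝 (b * 0)) := h1.const_mul b
      rw [mul_zero] at this
      exact this.eventually_lt_const ha
    have h3 := ((h2 τ hτ 1).and (h2 1 one_pos 1)).and (((h2 ε hε (2 * C)).and
      (h2 (δ0 / 2) (half_pos hδ0) (2 * C))).and (h2 (1 / 4) (by norm_num) (N * C * C0)))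
    obtain ⟨e, ⟨⟨a1, a2⟩, ⟨a3, a4⟩, a5⟩, a6⟩ := (h3.and self_mem_nhdsWithin).exists
    exact ⟨e, a6, by linarith, by linarith, a3, a4, a5.le⟩
  obtain ⟨δ, hδ, hd1, hd2, hd3, hd4⟩ : ∃ δ > 0, δ ≤ 1 ∧ δ ≤ δ0 / 2 ∧ N * C * C0 * δ ≤ 1 / 4 ∧
      N * δ ≤ e / 2 := by
    refine ⟨min (min 1 (δ0 / 2)) (min (1 / (4 * (N * C * C0))) (e / 2 / N)), by positivity,
      (min_le_left _ _).trans (min_le_left _ _), (min_le_left _ _).trans (min_le_right _ _), ?_, ?_⟩
    · have h1 : min (min 1 (δ0 / 2)) (min (1 / (4 * (N * C * C0))) (e / 2 / N)) ≤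
          1 / (4 * (N * C * C0)) := (min_le_right _ _).trans (min_le_left _ _)
      rw [le_div_iff₀ (by positivity)] at h1
      linarith
    · have h1 : min (min 1 (δ0 / 2)) (min (1 / (4 * (N * C * C0))) (e / 2 / N)) ≤
          e / 2 / N := (min_le_right _ _).trans (min_le_right _ _)
      rw [le_div_iff₀ hNpos] at h1
      linarith
  refine ⟨δ, hδ, fun r hr => ?_⟩
  set η := C0 * e with hη
  have hη0 : 0 ≤ η := by positivity
  have hrK : ∀ i ∈ S, r i ∈ K ∪ (X ∩ cthickening 1 (q '' S)) := fun i hi =>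
    Or.inr ⟨(hr i hi).1, mem_cthickening_of_dist_le _ (q i) 1 _ ⟨i, hi, rfl⟩ (by
      rw [dist_eq_norm]; exact (hr i hi).2.le.trans hd1)⟩
  have hqK : ∀ i ∈ S, q i ∈ K ∪ (X ∩ cthickening 1 (q '' S)) := fun i hi =>
    Or.inr ⟨hq i hi, self_subset_cthickening _ ⟨i, hi, rfl⟩⟩
  -- the map whose zero we want
  let f : (S → E) → (S → E) := fun u i => u i - P i (u i) + P i (g (B u) (r i) - q i)
  have hcb : ∀ u ∈ closedBall (0 : S → E) e, ∀ j ∈ s, |B u j| ≤ η := by
    intro u hu j hj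
    have h1 : ‖u‖ ≤ e := by simpa using hu
    exact (hB u j hj).trans (by rw [hη]; gcongr)
  have hflip : ∀ u ∈ closedBall (0 : S → E) e, ∀ u' ∈ closedBall (0 : S → E) e,
      ‖(u - f u) - (u' - f u')‖ ≤ 1 / 2 * ‖u - u'‖ := by
    intro u hu u' hu'
    rw [pi_norm_le_iff_of_nonneg (by positivity)]
    intro i
    have hΔ : ∀ j ∈ s, |B u j - B u' j| ≤ C0 * ‖u - u'‖ := by
      intro j hj
      have h1 := hB (u - u') j hj
      rwa [map_sub, Pi.sub_apply] at h1
    have hΔ0 : 0 ≤ C0 * ‖u - u'‖ := by positivity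
    have h1 := hE.fwd (B u) (B u') η (C0 * ‖u - u'‖) (hcb u hu) (hcb u' hu') hΔ hη0 he1 hΔ0
      (r i) (hrK i i.2)
    have h2 := hE.lip (fun j => B u j - B u' j) (C0 * ‖u - u'‖) hΔ hΔ0 (r i) (hrK i i.2) (q i)
      (hqK i i.2)
    have h3 : ∑ j ∈ s, (B u j - B u' j) • j.1 (q i) = P i ((u - u') i) := by
      have := hBP (u - u') i
      rwa [map_sub] at this
    have h4 : (u - f u) i - (u' - f u') i = P i ((u - u') i) -
        P i (g (B u) (r i) - g (B u') (r i)) := by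
      simp only [f, Pi.sub_apply, map_sub]
      abel
    have h5 : P i ((u - u') i) = P i (∑ j ∈ s, (B u j - B u' j) • j.1 (q i)) := by
      rw [h3, (hP i i.2).2.1 _ ((hP i i.2).1 _)]
    have h6 : (u - f u) i - (u' - f u') i = -P i ((g (B u) (r i) - g (B u') (r i) -
        ∑ j ∈ s, (B u j - B u' j) • j.1 (r i)) +
        ∑ j ∈ s, (B u j - B u' j) • (j.1 (r i) - j.1 (q i))) := by
      rw [h4, h5]
      simp only [smul_sub, Finset.sum_sub_distrib, map_add, map_sub]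
      abel
    rw [Pi.sub_apply, h6, norm_neg]
    refine ((P i).le_opNorm _).trans ?_
    have h7 : ‖(g (B u) (r i) - g (B u') (r i) - ∑ j ∈ s, (B u j - B u' j) • j.1 (r i)) +
        ∑ j ∈ s, (B u j - B u' j) • (j.1 (r i) - j.1 (q i))‖ ≤
        C * η * (C0 * ‖u - u'‖) + C * (C0 * ‖u - u'‖) * δ := by
      refine (norm_add_le _ _).trans (add_le_add h1 (h2.trans ?_))
      gcongr
      exact (hr i i.2).2.le
    calc ‖P i‖ * _ ≤ N * (C * η * (C0 * ‖u - u'‖) + C * (C0 * ‖u - u'‖) * δ) := by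
          gcongr
          exact hNP i i.2
      _ = (N * C * C0 * η + N * C * C0 * δ) * ‖u - u'‖ := by ring
      _ ≤ (1 / 4 + 1 / 4) * ‖u - u'‖ := by gcongr
      _ = 1 / 2 * ‖u - u'‖ := by ring
  have hf0 : ‖f 0‖ ≤ e / 2 := by
    rw [pi_norm_le_iff_of_nonneg (by positivity)]
    intro i
    have h1 : f 0 i = P i (r i - q i) := by
      simp only [f, map_zero, Pi.zero_apply, sub_zero, zero_add]
      rw [hg0 _ (hr i i.2).1]
    rw [h1]
    calc ‖P i (r i - q i)‖ ≤ ‖P i‖ * ‖r i - q i‖ := (P i).le_opNorm _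
      _ ≤ N * δ := by
          gcongr
          · exact hNP i i.2
          · exact (hr i i.2).2.le
      _ ≤ e / 2 := hd4
  have hmaps : MapsTo (fun u => u - f u) (closedBall (0 : S → E) e) (closedBall 0 e) := by
    intro u hu
    have h1 := hflip u hu 0 (mem_closedBall_self he.le)
    have h2 : ‖u‖ ≤ e := by simpa using hu
    rw [sub_zero, zero_sub] at h1
    rw [mem_closedBall, dist_zero_right]
    calc ‖u - f u‖ = ‖(u - f u - -f 0) + -f 0‖ := by congr 1; abel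
      _ ≤ ‖u - f u - -f 0‖ + ‖-f 0‖ := norm_add_le _ _
      _ ≤ 1 / 2 * ‖u‖ + e / 2 := by rw [norm_neg]; exact add_le_add h1 hf0
      _ ≤ e := by linarith
  have hcontr : ContractingWith (1 / 2) (hmaps.restrict (fun u => u - f u) _ _) := by
    refine ⟨by norm_num, LipschitzWith.of_dist_le_mul fun u u' => ?_⟩
    rw [Subtype.dist_eq, Subtype.dist_eq, dist_eq_norm, dist_eq_norm]
    have := hflip u u.2 u' u'.2
    simpa using this
  obtain ⟨u, hu, hfix, -⟩ := hcontr.exists_fixedPoint' (isClosed_closedBall.isComplete) hmaps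
    (mem_closedBall_self he.le) (edist_ne_top _ _)
  have hfu : f u = 0 := by
    have h1 : u - f u = u := hfix
    exact sub_eq_self.1 h1
  have hmove : ∀ x ∈ K ∪ (X ∩ cthickening 1 (q '' S)), ‖g (B u) x - x‖ ≤ 2 * C * η := by
    intro x hx
    have h1 := hE.move (fun x hx => hg0 x (union_subset hKX inter_subset_left hx)) (hcb u hu)
      hη0 he1 hx
    refine h1.trans ?_
    have : C * η * (1 + η) ≤ C * η * 2 := by
      gcongr
      linarith
    linarith
  refine ⟨g (B u), g' (B u), hAu _, fun x hx => ⟨?_, ?_⟩, fun i hi => ?_⟩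
  · exact (hmove x (Or.inl hx)).trans_lt he3
  · have h1 := hE.bwd (B u) η (hcb u hu) hη0 he1 x (Or.inl hx)
    have h2 := hE.size (B u) η (hcb u hu) hη0 x (Or.inl hx)
    calc ‖g' (B u) x - x‖ = ‖(g' (B u) x - x + ∑ j ∈ s, B u j • j.1 x) -
          ∑ j ∈ s, B u j • j.1 x‖ := by congr 1; abel
      _ ≤ C * η ^ 2 + C * η := (norm_sub_le _ _).trans (add_le_add h1 h2)
      _ ≤ 2 * C * η := by
          have : C * η ^ 2 ≤ C * η * 1 := by
            rw [pow_two, ← mul_assoc]; gcongr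
          linarith
      _ < ε := he3
  · -- the projection of the error vanishes
    have h1 : P i (g (B u) (r i) - q i) = 0 := by
      have h2 : f u ⟨i, hi⟩ = 0 := by rw [hfu]; rfl
      have h3 : u ⟨i, hi⟩ - P i (u ⟨i, hi⟩) + P i (g (B u) (r i) - q i) = 0 := h2
      have h4 := congrArg (P i) h3
      rw [map_add, map_sub, (hP i hi).2.1 _ ((hP i hi).1 _), (hP i hi).2.1 _ ((hP i hi).1 _),
        map_zero, sub_self, zero_add] at h4
      exact h4
    have h2 : dist (g (B u) (r i)) (q i) < δ0 := by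
      rw [dist_eq_norm]
      calc ‖g (B u) (r i) - q i‖ = ‖(g (B u) (r i) - r i) + (r i - q i)‖ := by congr 1; abel
        _ ≤ ‖g (B u) (r i) - r i‖ + ‖r i - q i‖ := norm_add_le _ _
        _ < δ0 / 2 + δ0 / 2 :=
            add_lt_add ((hmove _ (hrK i hi)).trans_lt he4) ((hr i hi).2.trans_le hd2)
        _ = δ0 := by ring
    have h3 := hδ0P i hi _ ((hAu _).m _ (hr i hi).1) _ (hq i hi) h2 (by simpa using hδ0)
    rw [h1, sub_zero] at h3
    have h4 : ‖g (B u) (r i) - q i‖ ≤ 0 := by linarith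
    exact sub_eq_zero.1 (norm_le_zero_iff.1 h4)

end H67.Tame
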