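import Mathlib
import Pool.Agent.H67.Tame.LT

/-! Families of automorphisms tangent to arbitrary holomorphic fields. -/

namespace H67.Tame

open Set Filter Topology Metric

variable {E : Type*} [NormedAddCommGroup E] [InnerProductSpace ℂ E] [FiniteDimensional ℂ E]
variable {X : Set E}

theorem exists_prod_cl (hX : Mfd X) {κ : Type*} [Fintype κ] (G : κ → E → E)
    (hG : ∀ k, Cl X (G k)) {L0 : Set E} (hL0 : IsCompact L0) (hL0X : L0 ⊆ X) {η : ℝ}
    (hη : 0 < η) :
    ∃ (Z : κ → E → E) (g g' : (κ → ℝ) → E → E), (∀ k, ∀ x ∈ L0, ‖Z k x - G k x‖ < η) ∧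
      (∀ c, Au X (g c) (g' c)) ∧ (∀ x ∈ X, g 0 x = x) ∧
      ∀ K ⊆ X, IsCompact K → ∃ τ C, ProdEst X Z Finset.univ g g' K τ C := by
  classical
  choose l hl hlG using fun k => (hG k).2 L0 hL0X hL0 η hη
  let ι := Σ k : κ, Fin (l k).length
  let V : ι → E → E := fun i => (l i.1)[i.2.1]
  have hV : ∀ i : ι, IsVF X (V i) ∧ IsComplete X (V i) := fun i =>
    hl i.1 _ (List.getElem_mem _)
  obtain ⟨g, g', hAu, hg0, hest⟩ := exists_prod hX V Finset.univ fun i _ => hV i
  have hsum : ∀ (d : κ → ℝ) (x : E), ∑ i : ι, d i.1 • V i x = ∑ k, d k • (l k).sum x := by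
    intro d x
    rw [Fintype.sum_sigma]
    refine Finset.sum_congr rfl fun k _ => ?_
    have h1 : (l k).sum x = ∑ y : Fin (l k).length, (l k)[y.1] x := by
      rw [← Fin.sum_univ_getElem (l k), Finset.sum_apply]
    rw [h1, Finset.smul_sum]
  refine ⟨fun k => (l k).sum, fun c => g fun i => c i.1, fun c => g' fun i => c i.1, hlG,
    fun c => hAu _, fun x hx => hg0 x hx, fun K hKX hK => ?_⟩
  obtain ⟨τ, C, h⟩ := hest K hKX hK
  refine ⟨τ, C, h.τpos, h.Cpos, ?_, ?_, ?_, ?_⟩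
  · intro d Δ hd hΔ x hx
    have := h.size (fun i => d i.1) Δ (fun i _ => hd i.1 (Finset.mem_univ _)) hΔ x hx
    rwa [hsum] at this
  · intro d Δ hd hΔ x hx y hy
    have h1 := h.lip (fun i => d i.1) Δ (fun i _ => hd i.1 (Finset.mem_univ _)) hΔ x hx y hy
    simp only [smul_sub, Finset.sum_sub_distrib] at h1 ⊢
    rwa [hsum, hsum] at h1
  · intro c c' ζ Δ hc hc' hcc hζ hζτ hΔ x hx
    have h1 := h.fwd (fun i => c i.1) (fun i => c' i.1) ζ Δ (fun i _ => hc i.1 (Finset.mem_univ _))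
      (fun i _ => hc' i.1 (Finset.mem_univ _)) (fun i _ => hcc i.1 (Finset.mem_univ _)) hζ hζτ hΔ
      x hx
    rwa [hsum (fun k => c k - c' k) x] at h1
  · intro c ζ hc hζ hζτ x hx
    have h1 := h.bwd (fun i => c i.1) ζ (fun i _ => hc i.1 (Finset.mem_univ _)) hζ hζτ x hx
    rwa [hsum c x] at h1

/-- Entire tangent fields which represent the projection `P` at `p`. -/
theorem exists_frame {n : ℕ} (hX : Submanifold X n) {p : E} (hp : p ∈ X) (P : E →L[ℂ] E)
    (hP : ∀ w, P w ∈ tang X p) :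
    ∃ (d : ℕ) (W : Fin d → E → E) (a : Fin d → E →L[ℂ] ℂ), (∀ k, Differentiable ℂ (W k)) ∧
      (∀ k, IsVF X (W k)) ∧ ∀ v, ∑ k, a k v • W k p = P v := by
  let b := Module.finBasis ℂ E
  choose W hW hWt hWp using fun k => hX.field hp (hP (b k))
  refine ⟨_, W, fun k => LinearMap.toContinuousLinearMap (b.coord k), hW, fun k =>
    ⟨(hW k).differentiableOn, hWt k⟩, fun v => ?_⟩
  have h1 : P v = ∑ k, b.repr v k • P (b k) := by
    conv_lhs => rw [← b.sum_repr v]
    rw [map_sum]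
    exact Finset.sum_congr rfl fun k _ => map_smul _ _ _
  rw [h1]
  refine Finset.sum_congr rfl fun k _ => ?_
  rw [hWp]
  rfl

end H67.Tame
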