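import Mathlib
import Pool.Agent.H67.Tame.ReachA

/-! One small step towards a target, moving a given convex compact set much less. -/

namespace H67.Tame

open Set Filter Topology Metric

variable {E : Type*} [NormedAddCommGroup E] [InnerProductSpace ℂ E] [FiniteDimensional ℂ E]
variable {X : Set E}

theorem step_lemma {n : ℕ} (hX : Submanifold X n) (hD : DensityProperty X) {p : E} (hp : p ∈ X)
    {K2 : Set E} (hK2 : Cvx X K2) (hpK2 : p ∉ K2) :
    ∃ r0 > 0, ∀ ε' > 0, ∀ δ > 0, ∃ τ0 > 0, τ0 < δ ∧ ∀ y ∈ X, ∀ p' ∈ X, ‖y - p‖ ≤ r0 →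
      ‖p' - p‖ ≤ r0 → τ0 ≤ ‖y - p'‖ → ∃ g g', Au X g g' ∧ ‖g y - p'‖ ≤ ‖y - p'‖ - τ0 / 2 ∧
      ∀ x ∈ K2, ‖g x - x‖ ≤ ε' * τ0 ∧ ‖g' x - x‖ ≤ ε' * τ0 := by
  classical
  have hM := hX.mfd
  obtain ⟨P, hPt, hPf, hPe⟩ := hM.tangent_estimate hp
  obtain ⟨d, W, a, hWd, hWv, hWP⟩ := exists_frame hX hp P hPt
  obtain ⟨f, hf, hf1, hfp⟩ := hK2.sep hp hpK2
  obtain ⟨q, hq0, hq1, hq⟩ := exists_bound_lt_one hK2.2.1 (hf.continuousOn.mono hK2.1) hf1
  set θ := (1 + q) / 2 with hθ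
  have hθ0 : 0 < θ := by rw [hθ]; linarith
  have hθ1 : θ < 1 := by rw [hθ]; linarith
  have hqθ : q < θ := by rw [hθ]; linarith
  obtain ⟨r1, hr1, hr1P⟩ := hPe (1 / 8) (by norm_num)
  obtain ⟨r0, hr0, hr0r1, hr0W, hr0f⟩ : ∃ r0 > 0, r0 < r1 ∧
      (∀ y, ‖y - p‖ ≤ r0 → ∑ k, ‖a k‖ * ‖W k y - W k p‖ < 1 / 8) ∧
      ∀ y ∈ X, ‖y - p‖ ≤ r0 → θ < ‖f y‖ := by
    have h1 : ContinuousAt (fun y => ∑ k, ‖a k‖ * ‖W k y - W k p‖) p := by
      refine tendsto_finsetSum _ fun k _ => ?_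
      exact (((hWd k).continuous.continuousAt.sub continuousAt_const).norm).const_mul _
    have h2 : ∀ᶠ y in 𝓝 p, ∑ k, ‖a k‖ * ‖W k y - W k p‖ < 1 / 8 := by
      refine h1.eventually (gt_mem_nhds ?_)
      simp
    have h3 : ∀ᶠ y in 𝓝[X] p, θ < ‖f y‖ := by
      refine (hf.continuousOn.norm p hp).eventually (lt_mem_nhds ?_)
      show θ < ‖f p‖
      rw [hfp, norm_one]
      exact hθ1
    obtain ⟨s1, hs1, h4⟩ := Metric.eventually_nhds_iff_ball.1 h2
    obtain ⟨s2, hs2, h5⟩ := Metric.mem_nhdsWithin_iff.1 h3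
    refine ⟨min r1 (min s1 s2) / 2, by positivity, ?_, fun y hy => ?_, fun y hyX hy => ?_⟩
    · have := min_le_left r1 (min s1 s2)
      have h0 : 0 < min r1 (min s1 s2) := by positivity
      linarith
    · apply h4
      rw [mem_ball, dist_eq_norm]
      have := (min_le_right r1 (min s1 s2)).trans (min_le_left _ _)
      have h0 : 0 < min r1 (min s1 s2) := by positivity
      linarith
    · refine h5 ⟨?_, hyX⟩
      rw [mem_ball, dist_eq_norm]
      have := (min_le_right r1 (min s1 s2)).trans (min_le_right _ _)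
      have h0 : 0 < min r1 (min s1 s2) := by positivity
      linarith
  obtain ⟨ME, hME0, hME⟩ : ∃ ME, 0 ≤ ME ∧ ∀ k, ∀ x ∈ K2, ‖W k x‖ ≤ ME := by
    choose M hM' using fun k => hK2.2.1.exists_bound_of_continuousOn
      ((hWd k).continuous.continuousOn (s := K2))
    refine ⟨∑ k, |M k|, by positivity, fun k x hx => ?_⟩
    refine (hM' k x hx).trans ((le_abs_self _).trans ?_)
    exact Finset.single_le_sum (f := fun k => |M k|) (fun _ _ => abs_nonneg _)
      (Finset.mem_univ k)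
  set A := ∑ k, ‖a k‖ with hA
  have hA0 : 0 ≤ A := Finset.sum_nonneg fun k _ => (a k).opNorm_nonneg
  have hAk : ∀ k, ‖a k‖ ≤ A := fun k =>
    Finset.single_le_sum (f := fun k => ‖a k‖) (fun k _ => (a k).opNorm_nonneg)
      (Finset.mem_univ k)
  refine ⟨r0, hr0, fun ε' hε' δ hδ => ?_⟩
  -- choice of the power
  obtain ⟨m, hm⟩ : ∃ m : ℕ, A * ME * (q / θ) ^ m ≤ ε' / 4 := by
    have h1 : q / θ < 1 := by rw [div_lt_one hθ0]; exact hqθ
    have h2 : 0 ≤ q / θ := by positivity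
    have h3 := (tendsto_pow_atTop_nhds_zero_of_lt_one h2 h1).const_mul (A * ME)
    rw [mul_zero] at h3
    obtain ⟨m, hm⟩ := (h3.eventually_lt_const (show 0 < ε' / 4 by positivity)).exists
    exact ⟨m, hm.le⟩
  let κ := Fin d ⊕ Fin d
  let G : κ → E → E := Sum.elim (fun k x => (f x ^ m) • W k x)
    (fun k x => (Complex.I * f x ^ m) • W k x)
  have hG : ∀ k, Cl X (G k) := by
    rintro (k | k)
    · exact hD.cl hM ((hWv k).smul (hf.pow m))
    · exact hD.cl hM ((hWv k).smul ((hf.pow m).const_mul Complex.I))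
  set Cθ := (A + 1) * (θ⁻¹) ^ m with hCθ
  have hCθ0 : 0 < Cθ := by positivity
  set e := min (1 / 8) (ε' / 4) with he
  have he0 : 0 < e := by positivity
  set η := e / (2 * d * Cθ + 1) with hη
  have hη0 : 0 < η := by positivity
  have hηe : 2 * d * Cθ * η ≤ e := by
    rw [hη, mul_div_assoc', div_le_iff₀ (by positivity)]
    nlinarith
  have hL0 : IsCompact (K2 ∪ (X ∩ closedBall p r0)) :=
    hK2.2.1.union ((isCompact_closedBall _ _).inter_left hX.closed)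
  have hL0X : K2 ∪ (X ∩ closedBall p r0) ⊆ X := union_subset hK2.1 inter_subset_left
  obtain ⟨Z, g, g', hZG, hAu, hg0, hest⟩ := exists_prod_cl hM G hG hL0 hL0X hη0
  obtain ⟨τ, C, hE⟩ := hest _ hL0X hL0
  have hC := hE.Cpos
  have hτ := hE.τpos
  obtain ⟨τ0, hτ0, hb1, hb2, hb3⟩ : ∃ τ0 > 0, τ0 * Cθ ≤ τ ∧ C * Cθ ^ 2 * τ0 ≤ e ∧ τ0 < δ := by
    refine ⟨min (τ / Cθ) (min (e / (C * Cθ ^ 2)) (δ / 2)), by positivity, ?_, ?_, ?_⟩
    · have := min_le_left (τ / Cθ) (min (e / (C * Cθ ^ 2)) (δ / 2))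
      rwa [le_div_iff₀ hCθ0] at this
    · have := (min_le_right (τ / Cθ) (min (e / (C * Cθ ^ 2)) (δ / 2))).trans (min_le_left _ _)
      rw [le_div_iff₀ (by positivity)] at this
      linarith
    · have := (min_le_right (τ / Cθ) (min (e / (C * Cθ ^ 2)) (δ / 2))).trans (min_le_right _ _)
      linarith
  refine ⟨τ0, hτ0, hb3, fun y hyX p' hp'X hyp hp'p hτD => ?_⟩
  -- direction and coefficients
  have hD0 : 0 < ‖y - p'‖ := hτ0.trans_le hτD
  set D := ‖y - p'‖ with hDdef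
  let v : E := ((D⁻¹ : ℝ) : ℂ) • (p' - y)
  have hv1 : ‖v‖ = 1 := by
    show ‖((D⁻¹ : ℝ) : ℂ) • (p' - y)‖ = 1
    rw [norm_smul, Complex.norm_real, norm_inv, Real.norm_of_nonneg hD0.le, norm_sub_rev p' y,
      ← hDdef]
    field_simp
  have hvD : ((D : ℝ) : ℂ) • v = p' - y := by
    show ((D : ℝ) : ℂ) • ((D⁻¹ : ℝ) : ℂ) • (p' - y) = p' - y
    rw [smul_smul, ← Complex.ofReal_mul, mul_inv_cancel₀ hD0.ne', Complex.ofReal_one, one_smul]
  have hvP : ‖v - P v‖ ≤ 1 / 8 := by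
    have h1 := hr1P p' hp'X y hyX (by rw [dist_eq_norm]; linarith) (by rw [dist_eq_norm]; linarith)
    have h2 : v - P v = ((D⁻¹ : ℝ) : ℂ) • ((p' - y) - P (p' - y)) := by
      show ((D⁻¹ : ℝ) : ℂ) • (p' - y) - P (((D⁻¹ : ℝ) : ℂ) • (p' - y)) = _
      rw [map_smul, ← smul_sub]
    rw [h2, norm_smul, Complex.norm_real, norm_inv, Real.norm_of_nonneg hD0.le]
    rw [norm_sub_rev p' y, ← hDdef] at h1
    calc D⁻¹ * _ ≤ D⁻¹ * (1 / 8 * D) := by gcongr
      _ = 1 / 8 := by field_simp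
  have hfy : θ < ‖f y‖ := hr0f y hyX hyp
  have hfy0 : f y ≠ 0 := by
    intro h0
    rw [h0, norm_zero] at hfy
    linarith
  let ζ : Fin d → ℂ := fun k => a k v / f y ^ m
  have hζ : ∀ k, ‖ζ k‖ ≤ ‖a k‖ * (θ⁻¹) ^ m := by
    intro k
    show ‖a k v / f y ^ m‖ ≤ _
    rw [norm_div, norm_pow, div_eq_mul_inv, ← inv_pow]
    have h1 : ‖a k v‖ ≤ ‖a k‖ := by
      have := (a k).le_opNorm v
      rwa [hv1, mul_one] at this
    have h2 : ‖f y‖⁻¹ ≤ θ⁻¹ := inv_anti₀ hθ0 hfy.le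
    gcongr
  let c : κ → ℝ := Sum.elim (fun k => (ζ k).re) (fun k => (ζ k).im)
  have hc : ∀ k, |c k| ≤ Cθ := by
    have h1 : ∀ k, ‖ζ k‖ ≤ Cθ := fun k => (hζ k).trans (by
      rw [hCθ]
      gcongr
      linarith [hAk k])
    rintro (k | k)
    · exact (Complex.abs_re_le_norm _).trans (h1 k)
    · exact (Complex.abs_im_le_norm _).trans (h1 k)
  have hsumG : ∀ x, ∑ k, c k • G k x = ∑ k, (ζ k * f x ^ m) • W k x := by
    intro x
    rw [Fintype.sum_sum_type, ← Finset.sum_add_distrib]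
    refine Finset.sum_congr rfl fun k _ => ?_
    show (ζ k).re • (f x ^ m) • W k x + (ζ k).im • (Complex.I * f x ^ m) • W k x = _
    rw [← Complex.coe_smul, ← Complex.coe_smul, smul_smul, smul_smul, ← add_smul]
    congr 1
    conv_rhs => rw [← Complex.re_add_im (ζ k)]
    ring
  have hsumZ : ∀ x ∈ K2 ∪ (X ∩ closedBall p r0), ‖∑ k, c k • Z k x - ∑ k, c k • G k x‖ ≤ e := by
    intro x hx
    rw [← Finset.sum_sub_distrib]
    calc ‖∑ k, (c k • Z k x - c k • G k x)‖ ≤ ∑ k : κ, Cθ * η := by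
          refine norm_sum_le_of_le _ fun k _ => ?_
          rw [← smul_sub, norm_smul, Real.norm_eq_abs]
          have := hZG k x hx
          gcongr
          exact hc k
      _ = 2 * d * Cθ * η := by
          rw [Finset.sum_const, Finset.card_univ, Fintype.card_sum, Fintype.card_fin,
            nsmul_eq_mul]
          push_cast
          ring
      _ ≤ e := hηe
  have hyL : y ∈ K2 ∪ (X ∩ closedBall p r0) := Or.inr ⟨hyX, by
    rw [mem_closedBall, dist_eq_norm]; exact hyp⟩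
  have hvy : ‖∑ k, c k • Z k y - v‖ ≤ 3 / 8 := by
    have h1 := hsumZ y hyL
    have h2 : ∑ k, c k • G k y = ∑ k, a k v • W k y := by
      rw [hsumG]
      refine Finset.sum_congr rfl fun k _ => ?_
      show (a k v / f y ^ m * f y ^ m) • W k y = _
      rw [div_mul_cancel₀ _ (pow_ne_zero m hfy0)]
    have h3 : ‖∑ k, a k v • W k y - P v‖ ≤ 1 / 8 := by
      rw [← hWP v, ← Finset.sum_sub_distrib]
      refine le_trans ?_ (hr0W y hyp).le
      refine norm_sum_le_of_le _ fun k _ => ?_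
      rw [← smul_sub, norm_smul]
      have h4 : ‖a k v‖ ≤ ‖a k‖ := by
        have := (a k).le_opNorm v
        rwa [hv1, mul_one] at this
      gcongr
    have he8 : e ≤ 1 / 8 := min_le_left _ _
    calc ‖∑ k, c k • Z k y - v‖ = ‖(∑ k, c k • Z k y - ∑ k, c k • G k y) +
          (∑ k, a k v • W k y - P v) - (v - P v)‖ := by rw [h2]; congr 1; abel
      _ ≤ e + 1 / 8 + 1 / 8 := (norm_sub_le _ _).trans (add_le_add ((norm_add_le _ _).trans
          (add_le_add h1 h3)) hvP)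
      _ ≤ 3 / 8 := by linarith
  have hvK : ∀ x ∈ K2, ‖∑ k, c k • Z k x‖ ≤ ε' / 4 + ε' / 4 := by
    intro x hx
    have h1 := hsumZ x (Or.inl hx)
    have h2 : ‖∑ k, c k • G k x‖ ≤ ε' / 4 := by
      rw [hsumG]
      refine le_trans ?_ hm
      calc ‖∑ k, (ζ k * f x ^ m) • W k x‖ ≤ ∑ k, ‖a k‖ * ME * (q / θ) ^ m := by
            refine norm_sum_le_of_le _ fun k _ => ?_
            rw [norm_smul, norm_mul, norm_pow]
            calc ‖ζ k‖ * ‖f x‖ ^ m * ‖W k x‖ ≤ ‖a k‖ * (θ⁻¹) ^ m * q ^ m * ME := by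
                  gcongr
                  · exact hζ k
                  · exact hq x hx
                  · exact hME k x hx
              _ = ‖a k‖ * ME * (q / θ) ^ m := by
                  rw [div_eq_mul_inv, mul_pow]; ring
        _ = A * ME * (q / θ) ^ m := by rw [hA, Finset.sum_mul, Finset.sum_mul]
    have he4 : e ≤ ε' / 4 := min_le_right _ _
    calc ‖∑ k, c k • Z k x‖ = ‖(∑ k, c k • Z k x - ∑ k, c k • G k x) + ∑ k, c k • G k x‖ := by
          congr 1; abel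
      _ ≤ e + ε' / 4 := (norm_add_le _ _).trans (add_le_add h1 h2)
      _ ≤ ε' / 4 + ε' / 4 := by linarith
  -- the automorphism
  let c' : κ → ℝ := fun k => τ0 * c k
  have hc' : ∀ k ∈ (Finset.univ : Finset κ), |c' k| ≤ τ0 * Cθ := by
    intro k _
    show |τ0 * c k| ≤ _
    rw [abs_mul, abs_of_pos hτ0]
    exact mul_le_mul_of_nonneg_left (hc k) hτ0.le
  have hc'sum : ∀ x, ∑ k, c' k • Z k x = τ0 • ∑ k, c k • Z k x := by
    intro x
    rw [Finset.smul_sum]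
    refine Finset.sum_congr rfl fun k _ => ?_
    show (τ0 * c k) • Z k x = _
    rw [mul_smul]
  have hη'0 : 0 ≤ τ0 * Cθ := by positivity
  have hquad : C * (τ0 * Cθ) * (τ0 * Cθ) ≤ e * τ0 := by
    calc C * (τ0 * Cθ) * (τ0 * Cθ) = (C * Cθ ^ 2 * τ0) * τ0 := by ring
      _ ≤ e * τ0 := by gcongr
  have hfwd : ∀ x ∈ K2 ∪ (X ∩ closedBall p r0), ‖g c' x - x - τ0 • ∑ k, c k • Z k x‖ ≤
      e * τ0 := by
    intro x hx
    have h1 := hE.fwd c' 0 (τ0 * Cθ) (τ0 * Cθ) hc' (fun k _ => by simpa using hη'0)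
      (fun k hk => by simpa using hc' k hk) hη'0 hb1 hη'0 x hx
    simp only [Pi.zero_apply, sub_zero, hg0 x (hL0X hx)] at h1
    rw [hc'sum] at h1
    exact h1.trans hquad
  refine ⟨g c', g' c', hAu _, ?_, fun x hx => ⟨?_, ?_⟩⟩
  · have h1 := hfwd y hyL
    have h2 : g c' y - p' = ((1 - τ0 / D : ℝ) : ℂ) • (y - p') +
        τ0 • (∑ k, c k • Z k y - v) + (g c' y - y - τ0 • ∑ k, c k • Z k y) := by
      have h3 : ((1 - τ0 / D : ℝ) : ℂ) • (y - p') = (y - p') + τ0 • v := by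
        have h4 : y - p' = -(((D : ℝ) : ℂ) • v) := by rw [hvD]; abel
        rw [h4]
        simp only [smul_neg, smul_smul, ← Complex.ofReal_mul, ← Complex.coe_smul τ0]
        have h5 : (1 - τ0 / D) * D = D - τ0 := by field_simp
        rw [h5, Complex.ofReal_sub, sub_smul]
        abel
      rw [h3, smul_sub]
      abel
    have h3 : ‖((1 - τ0 / D : ℝ) : ℂ) • (y - p')‖ = D - τ0 := by
      rw [norm_smul, Complex.norm_real, ← hDdef, Real.norm_of_nonneg]
      · field_simp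
      · rw [sub_nonneg, div_le_one hD0]; exact hτD
    have h4 : ‖τ0 • (∑ k, c k • Z k y - v)‖ ≤ τ0 * (3 / 8) := by
      rw [norm_smul, Real.norm_of_nonneg hτ0.le]
      gcongr
    have he8 : e ≤ 1 / 8 := min_le_left _ _
    have h5 : e * τ0 ≤ 1 / 8 * τ0 := by gcongr
    rw [h2]
    calc _ ≤ (D - τ0) + τ0 * (3 / 8) + e * τ0 := by
          refine (norm_add_le _ _).trans (add_le_add ((norm_add_le _ _).trans ?_) h1)
          rw [h3]
          exact add_le_add le_rfl h4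
      _ ≤ D - τ0 / 2 := by linarith
  · have h1 := hfwd x (Or.inl hx)
    have h2 := hvK x hx
    have he4 : e ≤ ε' / 4 := min_le_right _ _
    have h3 : e * τ0 ≤ ε' / 4 * τ0 := by gcongr
    calc ‖g c' x - x‖ = ‖(g c' x - x - τ0 • ∑ k, c k • Z k x) + τ0 • ∑ k, c k • Z k x‖ := by
          congr 1; abel
      _ ≤ e * τ0 + τ0 * (ε' / 4 + ε' / 4) := by
          refine (norm_add_le _ _).trans (add_le_add h1 ?_)
          rw [norm_smul, Real.norm_of_nonneg hτ0.le]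
          gcongr
      _ ≤ ε' * τ0 := by nlinarith
  · have h1 := hE.bwd c' (τ0 * Cθ) hc' hη'0 hb1 x (Or.inl hx)
    rw [hc'sum] at h1
    have h2 := hvK x hx
    have he4 : e ≤ ε' / 4 := min_le_right _ _
    have h3 : e * τ0 ≤ ε' / 4 * τ0 := by gcongr
    have h4 : C * (τ0 * Cθ) ^ 2 ≤ e * τ0 := by
      calc C * (τ0 * Cθ) ^ 2 = C * (τ0 * Cθ) * (τ0 * Cθ) := by ring
        _ ≤ e * τ0 := hquad
    calc ‖g' c' x - x‖ = ‖(g' c' x - x + τ0 • ∑ k, c k • Z k x) - τ0 • ∑ k, c k • Z k x‖ := by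
          congr 1; abel
      _ ≤ e * τ0 + τ0 * (ε' / 4 + ε' / 4) := by
          refine (norm_sub_le _ _).trans (add_le_add (h1.trans h4) ?_)
          rw [norm_smul, Real.norm_of_nonneg hτ0.le]
          gcongr
      _ ≤ ε' * τ0 := by nlinarith

end H67.Tame
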