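import Mathlib
import Pool.Agent.H67.Tame.ReachB
import Pool.Agent.H67.Tame.Conn

/-! Moving one point in the complement of a convex compact set. -/

namespace H67.Tame

open Set Filter Topology Metric

variable {E : Type*} [NormedAddCommGroup E] [InnerProductSpace ℂ E] [FiniteDimensional ℂ E]
variable {X : Set E}

/-- `g` and `g'` are close to the identity on `K`. -/
def NearE (K : Set E) (ε : ℝ) (g g' : E → E) : Prop := ∀ x ∈ K, ‖g x - x‖ < ε ∧ ‖g' x - x‖ < ε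

theorem NearE.mono {K K' : Set E} {ε ε' : ℝ} {g g' : E → E} (h : NearE K ε g g') (hK : K' ⊆ K)
    (hε : ε ≤ ε') : NearE K' ε' g g' := fun x hx =>
  ⟨(h x (hK hx)).1.trans_le hε, (h x (hK hx)).2.trans_le hε⟩

theorem NearE.symm {K : Set E} {ε : ℝ} {g g' : E → E} (h : NearE K ε g g') : NearE K ε g' g :=
  fun x hx => ⟨(h x hx).2, (h x hx).1⟩

theorem NearE.comp {L L' : Set E} {a e : ℝ} (ha : 0 < a) (hLX : L ⊆ X)
    (hLL : ∀ x ∈ L, ∀ y ∈ X, ‖y - x‖ < a → y ∈ L') {g g' h h' : E → E} (hg : Au X g g')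
    (hh : Au X h h') (hgN : NearE L' e g g') (hhN : NearE L' e h h') (hea : e ≤ a) :
    NearE L (2 * e) (fun x => g (h x)) (fun x => h' (g' x)) := by
  intro x hx
  have hxX := hLX hx
  have hxL' : x ∈ L' := hLL x hx x hxX (by simpa using ha)
  constructor
  · have h1 := (hhN x hxL').1
    have h2 : h x ∈ L' := hLL x hx _ (hh.m x hxX) (h1.trans_le hea)
    have h3 := (hgN _ h2).1
    calc ‖g (h x) - x‖ = ‖(g (h x) - h x) + (h x - x)‖ := by congr 1; abel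
      _ ≤ ‖g (h x) - h x‖ + ‖h x - x‖ := norm_add_le _ _
      _ < 2 * e := by linarith
  · have h1 := (hgN x hxL').2
    have h2 : g' x ∈ L' := hLL x hx _ (hg.m' x hxX) (h1.trans_le hea)
    have h3 := (hhN _ h2).2
    calc ‖h' (g' x) - x‖ = ‖(h' (g' x) - g' x) + (g' x - x)‖ := by congr 1; abel
      _ ≤ ‖h' (g' x) - g' x‖ + ‖g' x - x‖ := norm_add_le _ _
      _ < 2 * e := by linarith

theorem room {K K' : Set E} (hK : IsCompact K) (h : ∀ x ∈ K, K' ∈ 𝓝[X] x) :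
    ∃ a > 0, ∀ k ∈ K, ∀ x ∈ X, ‖x - k‖ ≤ a → x ∈ K' := by
  refine hK.induction_on (p := fun s => ∃ a > 0, ∀ k ∈ s, ∀ x ∈ X, ‖x - k‖ ≤ a → x ∈ K')
    ?_ ?_ ?_ ?_
  · exact ⟨1, one_pos, by simp⟩
  · rintro s t hst ⟨a, ha, h1⟩
    exact ⟨a, ha, fun k hk => h1 k (hst hk)⟩
  · rintro s t ⟨a, ha, h1⟩ ⟨b, hb, h2⟩
    refine ⟨min a b, lt_min ha hb, fun k hk x hx hxk => ?_⟩
    rcases hk with hk | hk
    · exact h1 k hk x hx (hxk.trans (min_le_left _ _))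
    · exact h2 k hk x hx (hxk.trans (min_le_right _ _))
  · intro k0 hk0
    obtain ⟨r, hr, hrK⟩ := Metric.mem_nhdsWithin_iff.1 (h k0 hk0)
    refine ⟨K ∩ ball k0 (r / 2), inter_mem_nhdsWithin _ (ball_mem_nhds _ (half_pos hr)), r / 4,
      by positivity, fun k hk x hx hxk => hrK ⟨?_, hx⟩⟩
    have h1 := mem_ball.1 hk.2
    rw [mem_ball]
    calc dist x k0 ≤ dist x k + dist k k0 := dist_triangle _ _ _
      _ < r := by rw [dist_eq_norm]; linarith

theorem local_reach {n : ℕ} (hX : Submanifold X n) (hD : DensityProperty X) {p : E} (hp : p ∈ X)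
    {K : Set E} (hK : Cvx X K) (hpK : p ∉ K) :
    ∃ K1, Cvx X K1 ∧ (∀ x ∈ K, K1 ∈ 𝓝[X] x) ∧ ∃ r > 0, ∀ p' ∈ X, ‖p' - p‖ < r →
      p ∉ K1 ∧ p' ∉ K1 ∧ ∀ ε > 0, ∃ g g', Au X g g' ∧ NearE K1 ε g g' ∧ g p = p' := by
  have hcl := hX.closed
  obtain ⟨K1, hK1, hKK1, hK1p⟩ := hK.nhd hcl (isOpen_compl_singleton (x := p))
    (fun x hx h => hpK (by rwa [← mem_singleton_iff.1 h]))
  have hpK1 : p ∉ K1 := fun h => hK1p h rfl
  obtain ⟨K2, hK2, hKK2, hK2p⟩ := hK1.nhd hcl (isOpen_compl_singleton (x := p))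
    (fun x hx h => hpK1 (by rwa [← mem_singleton_iff.1 h]))
  have hpK2 : p ∉ K2 := fun h => hK2p h rfl
  obtain ⟨a, ha, hroom⟩ := room hK1.2.1 hKK2
  obtain ⟨r0, hr0, hstep⟩ := step_lemma hX hD hp hK2 hpK2
  obtain ⟨r1, hr1, hr1K⟩ : ∃ r1 > 0, ball p r1 ⊆ K2ᶜ :=
    Metric.isOpen_iff.1 hK2.2.1.isClosed.isOpen_compl p hpK2
  set r := min (r0 / 2) r1 with hr
  have hrpos : 0 < r := by positivity
  have hrr0 : r ≤ r0 / 2 := min_le_left _ _
  have hK12 : K1 ⊆ K2 := fun x hx => hroom x hx x (hK1.1 hx) (by simpa using ha.le)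
  refine ⟨K1, hK1, hKK1, r, hrpos, fun p' hp' hpp' => ⟨hpK1, fun h => ?_, fun ε hε => ?_⟩⟩
  · exact hr1K (by rw [mem_ball, dist_eq_norm]; exact hpp'.trans_le (min_le_right _ _)) (hK12 h)
  set ε1 := min ε a with hε1
  have hε1pos : 0 < ε1 := lt_min hε ha
  have hε1a : ε1 ≤ a := min_le_right _ _
  have hε1ε : ε1 ≤ ε := min_le_left _ _
  obtain ⟨δ, hδ, hlt⟩ := lt_exact hX hD {0} (q := fun _ => p') (fun _ _ => hp')
    (by simp) hK2.2.1 hK2.1 (half_pos hε1pos)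
  set ε' := ε1 / (8 * (r + 1)) with hε'
  have hε'pos : 0 < ε' := by positivity
  obtain ⟨τ0, hτ0, hτδ, hst⟩ := hstep ε' hε'pos (min δ 1) (lt_min hδ one_pos)
  have hτδ' : τ0 < δ := hτδ.trans_le (min_le_left _ _)
  have hτ1 : τ0 < 1 := hτδ.trans_le (min_le_right _ _)
  set β := ε' * τ0 with hβ
  have hβ0 : 0 < β := by positivity
  set J := ⌈2 * r / τ0⌉₊ + 1 with hJ
  have hJ1 : r < J * (τ0 / 2) := by
    have h1 : 2 * r / τ0 ≤ ⌈2 * r / τ0⌉₊ := Nat.le_ceil _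
    rw [div_le_iff₀ hτ0] at h1
    rw [hJ]
    push_cast
    nlinarith
  have hJ2 : J * τ0 ≤ 2 * r + 2 := by
    have h1 : (⌈2 * r / τ0⌉₊ : ℝ) < 2 * r / τ0 + 1 := Nat.ceil_lt_add_one (by positivity)
    have h2 : (⌈2 * r / τ0⌉₊ : ℝ) * τ0 < 2 * r + τ0 := by
      calc (⌈2 * r / τ0⌉₊ : ℝ) * τ0 < (2 * r / τ0 + 1) * τ0 := by gcongr
        _ = 2 * r + τ0 := by field_simp
    rw [hJ]
    push_cast
    linarith
  have hJβ : J * β ≤ ε1 / 4 := by
    calc J * β = ε' * (J * τ0) := by rw [hβ]; ring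
      _ ≤ ε' * (2 * r + 2) := by gcongr
      _ = ε1 / 4 := by rw [hε']; field_simp; ring
  have hpp'0 : ‖p - p'‖ < r := by rw [norm_sub_rev]; exact hpp'
  have hiter : ∀ j : ℕ, ∃ g g', Au X g g' ∧ (∀ x ∈ X, ∀ k ∈ K1, ‖x - k‖ ≤ a - j * β →
      ‖g x - x‖ ≤ j * β ∧ ‖g' x - x‖ ≤ j * β) ∧
      (‖g p - p'‖ < τ0 ∨ ‖g p - p'‖ ≤ ‖p - p'‖ - j * (τ0 / 2)) := by
    intro j
    induction j with
    | zero =>
      exact ⟨fun x => x, fun x => x, Au.id, fun x _ k _ _ => by simp, Or.inr (by simp)⟩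
    | succ j ih =>
      obtain ⟨g, g', hg, hgN, hgp⟩ := ih
      have hj1 : ((j + 1 : ℕ) : ℝ) * β = j * β + β := by push_cast; ring
      by_cases hlt' : ‖g p - p'‖ < τ0
      · refine ⟨g, g', hg, fun x hx k hk hxk => ?_, Or.inl hlt'⟩
        obtain ⟨h1, h2⟩ := hgN x hx k hk (by rw [hj1] at hxk; linarith)
        rw [hj1]
        exact ⟨by linarith, by linarith⟩
      · have hge := not_lt.1 hlt'
        have h2 := hgp.resolve_left hlt'
        have hjτ : 0 ≤ (j : ℝ) * (τ0 / 2) := by positivity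
        obtain ⟨h, h', hh, hhp, hhK⟩ := hst (g p) (hg.m p hp) p' hp'
          (by
            calc ‖g p - p‖ = ‖(g p - p') + (p' - p)‖ := by congr 1; abel
              _ ≤ ‖g p - p'‖ + ‖p' - p‖ := norm_add_le _ _
              _ ≤ r0 := by linarith)
          (by linarith) hge
        refine ⟨fun x => h (g x), fun x => g' (h' x), hh.comp hg, fun x hx k hk hxk => ?_,
          Or.inr ?_⟩
        · rw [hj1] at hxk ⊢
          have hjβ : 0 ≤ (j : ℝ) * β := by positivity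
          obtain ⟨h3, -⟩ := hgN x hx k hk (by linarith)
          have h4 : g x ∈ K2 := by
            refine hroom k hk _ (hg.m x hx) ?_
            calc ‖g x - k‖ = ‖(g x - x) + (x - k)‖ := by congr 1; abel
              _ ≤ ‖g x - x‖ + ‖x - k‖ := norm_add_le _ _
              _ ≤ a := by linarith
          have h5 := (hhK _ h4).1
          have h6 : x ∈ K2 := hroom k hk x hx (by linarith)
          have h7 := (hhK x h6).2
          obtain ⟨-, h8⟩ := hgN (h' x) (hh.m' x hx) k hk (by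
            calc ‖h' x - k‖ = ‖(h' x - x) + (x - k)‖ := by congr 1; abel
              _ ≤ ‖h' x - x‖ + ‖x - k‖ := norm_add_le _ _
              _ ≤ a - j * β := by linarith)
          constructor
          · calc ‖h (g x) - x‖ = ‖(h (g x) - g x) + (g x - x)‖ := by congr 1; abel
              _ ≤ ‖h (g x) - g x‖ + ‖g x - x‖ := norm_add_le _ _
              _ ≤ j * β + β := by linarith
          · calc ‖g' (h' x) - x‖ = ‖(g' (h' x) - h' x) + (h' x - x)‖ := by congr 1; abel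
              _ ≤ ‖g' (h' x) - h' x‖ + ‖h' x - x‖ := norm_add_le _ _
              _ ≤ j * β + β := by linarith
        · push_cast
          linarith
  obtain ⟨g, g', hg, hgN, hgp⟩ := hiter J
  have hgp' : ‖g p - p'‖ < δ := by
    rcases hgp with h1 | h1
    · exact h1.trans hτδ'
    · have h2 := norm_nonneg (g p - p')
      linarith
  obtain ⟨h, h', hh, hhN, hhp⟩ := hlt (fun _ => g p) (fun i _ => ⟨hg.m p hp, hgp'⟩)
  refine ⟨fun x => h (g x), fun x => g' (h' x), hh.comp hg, fun x hx => ?_,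
    hhp 0 (Finset.mem_singleton_self 0)⟩
  have hxX := hK1.1 hx
  obtain ⟨h3, -⟩ := hgN x hxX x hx (by rw [sub_self, norm_zero]; linarith)
  have h4 : g x ∈ K2 := hroom x hx _ (hg.m x hxX) (by linarith)
  have h5 := (hhN _ h4).1
  have h6 := (hhN x (hK12 hx)).2
  obtain ⟨-, h7⟩ := hgN (h' x) (hh.m' x hxX) x hx (by linarith)
  constructor
  · calc ‖h (g x) - x‖ = ‖(h (g x) - g x) + (g x - x)‖ := by congr 1; abel
      _ ≤ ‖h (g x) - g x‖ + ‖g x - x‖ := norm_add_le _ _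
      _ < ε := by linarith
  · calc ‖g' (h' x) - x‖ = ‖(g' (h' x) - h' x) + (h' x - x)‖ := by congr 1; abel
      _ ≤ ‖g' (h' x) - h' x‖ + ‖h' x - x‖ := norm_add_le _ _
      _ < ε := by linarith

/-- `b` is reachable from `a` by automorphisms close to the identity near `K`. -/
def Rch (X K : Set E) (a b : E) : Prop :=
  ∃ K1, Cvx X K1 ∧ (∀ x ∈ K, K1 ∈ 𝓝[X] x) ∧ a ∉ K1 ∧ b ∉ K1 ∧
    ∀ ε > 0, ∃ g g', Au X g g' ∧ NearE K1 ε g g' ∧ g a = b

theorem Rch.symm {K : Set E} {a b : E} (ha : a ∈ X) (h : Rch X K a b) : Rch X K b a := by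
  obtain ⟨K1, h1, h2, h3, h4, h5⟩ := h
  refine ⟨K1, h1, h2, h4, h3, fun ε hε => ?_⟩
  obtain ⟨g, g', hg, hgN, hgab⟩ := h5 ε hε
  exact ⟨g', g, hg.symm, hgN.symm, by rw [← hgab, hg.l a ha]⟩

theorem exists_inner (hX : IsClosed X) {K K1 : Set E} (hK : Cvx X K)
    (h : ∀ x ∈ K, K1 ∈ 𝓝[X] x) : ∃ K2, Cvx X K2 ∧ (∀ x ∈ K, K2 ∈ 𝓝[X] x) ∧
      ∃ a > 0, ∀ x ∈ K2, ∀ y ∈ X, ‖y - x‖ < a → y ∈ K1 := by
  obtain ⟨a, ha, hroom⟩ := room hK.2.1 h
  obtain ⟨K2, hK2, h2, h3⟩ := hK.nhd hX (isOpen_thickening (δ := a / 2) (E := K))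
    (self_subset_thickening (half_pos ha) K)
  refine ⟨K2, hK2, h2, a / 2, half_pos ha, fun x hx y hy hyx => ?_⟩
  obtain ⟨k, hk, hxk⟩ := mem_thickening_iff.1 (h3 hx)
  refine hroom k hk y hy ?_
  rw [dist_eq_norm] at hxk
  calc ‖y - k‖ = ‖(y - x) + (x - k)‖ := by congr 1; abel
    _ ≤ ‖y - x‖ + ‖x - k‖ := norm_add_le _ _
    _ ≤ a := by linarith

theorem Rch.trans (hX : IsClosed X) {K : Set E} (hK : Cvx X K) {a b c : E}
    (h : Rch X K a b) (h' : Rch X K b c) : Rch X K a c := by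
  obtain ⟨K1, h1, h2, h3, h4, h5⟩ := h
  obtain ⟨K1', h1', h2', h3', h4', h5'⟩ := h'
  obtain ⟨K2, hK2, hKK2, d, hd, hroom⟩ := exists_inner hX hK
    (fun x hx => inter_mem (h2 x hx) (h2' x hx))
  have hsub : K2 ⊆ K1 ∩ K1' := fun x hx => hroom x hx x (hK2.1 hx) (by simpa using hd)
  refine ⟨K2, hK2, hKK2, fun h => h3 (hsub h).1, fun h => h4' (hsub h).2, fun ε hε => ?_⟩
  obtain ⟨g, g', hg, hgN, hgab⟩ := h5 (min (ε / 2) d) (lt_min (half_pos hε) hd)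
  obtain ⟨h, h', hh, hhN, hhbc⟩ := h5' (min (ε / 2) d) (lt_min (half_pos hε) hd)
  refine ⟨fun x => h (g x), fun x => g' (h' x), hh.comp hg, ?_, by
    show h (g a) = c
    rw [hgab, hhbc]⟩
  refine (NearE.comp hd hK2.1 hroom hh hg (hhN.mono inter_subset_right le_rfl)
    (hgN.mono inter_subset_left le_rfl) (min_le_right _ _)).mono subset_rfl ?_
  have := min_le_left (ε / 2) d
  linarith

theorem reach_one {n : ℕ} (hX : Submanifold X n) (hn : 2 ≤ n) (hconn : IsPreconnected X)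
    (hD : DensityProperty X) {K : Set E} (hK : Cvx X K) {a b : E} (ha : a ∈ X) (haK : a ∉ K)
    (hb : b ∈ X) (hbK : b ∉ K) : Rch X K a b := by
  have hpre := hX.mfd.compl_preconnected (fun x hx => by rw [(hX.retr hx).2]; exact hn) hconn hK
  refine hpre.induction₂ (Rch X K) (fun p hp => ?_) (fun x y z _ _ _ h1 h2 =>
    h1.trans hX.closed hK h2) (fun x y hx _ h => h.symm hx.1) ⟨ha, haK⟩ ⟨hb, hbK⟩
  obtain ⟨K1, hK1, hKK1, r, hr, h⟩ := local_reach hX hD hp.1 hK hp.2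
  filter_upwards [self_mem_nhdsWithin, mem_nhdsWithin_of_mem_nhds (ball_mem_nhds p hr)]
    with p' hp' hpr
  rw [mem_ball, dist_eq_norm] at hpr
  obtain ⟨h1, h2, h3⟩ := h p' hp'.1 hpr
  exact ⟨K1, hK1, hKK1, h1, h2, h3⟩

end H67.Tame
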