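import Mathlib
import Pool.Agent.H67.Tame.ReachC

/-! Moving finitely many points in the complement of a convex compact set. -/

namespace H67.Tame

open Set Filter Topology Metric

variable {E : Type*} [NormedAddCommGroup E] [InnerProductSpace ℂ E] [FiniteDimensional ℂ E]
variable {X : Set E}

theorem cvx_union_finset {K : Set E} (h : Cvx X K) (S : Finset ℕ) {q : ℕ → E}
    (hq : ∀ i ∈ S, q i ∈ X) : Cvx X (K ∪ q '' S) := by
  classical
  induction S using Finset.induction_on with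
  | empty => simpa using h
  | insert a s _ ih =>
    have h1 : K ∪ q '' (insert a s : Finset ℕ) = insert (q a) (K ∪ q '' s) := by
      ext y
      simp only [Finset.coe_insert, image_insert_eq, mem_union, mem_insert_iff]
      tauto
    rw [h1]
    exact (ih fun i hi => hq i (Finset.mem_insert_of_mem hi)).insert
      (hq a (Finset.mem_insert_self a s))

/-- Neighbourhoods with room, avoiding a finite set. -/
theorem Cvx.room_nhd (hX : IsClosed X) {K : Set E} (h : Cvx X K) {T : Set E} (hT : T.Finite)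
    (hKT : Disjoint K T) : ∃ K', Cvx X K' ∧ Disjoint K' T ∧
      ∃ a > 0, ∀ x ∈ K, ∀ y ∈ X, ‖y - x‖ < a → y ∈ K' := by
  obtain ⟨K', h1, h2, h3⟩ := h.nhd hX hT.isClosed.isOpen_compl
    (fun x hx hxT => Set.disjoint_left.1 hKT hx hxT)
  obtain ⟨a, ha, h4⟩ := room h.2.1 h2
  exact ⟨K', h1, Set.disjoint_left.2 fun x hx hxT => h3 hx hxT, a, ha, fun x hx y hy hyx =>
    h4 x hx y hy hyx.le⟩

theorem many_approx {n : ℕ} (hX : Submanifold X n) (hn : 2 ≤ n) (hconn : IsPreconnected X)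
    (hD : DensityProperty X) (S : Finset ℕ) : ∀ (K : Set E), Cvx X K → ∀ ε > 0,
    ∀ a c : ℕ → E, InjOn a S → InjOn c S → (∀ i ∈ S, a i ∈ X ∧ a i ∉ K) →
      (∀ i ∈ S, c i ∈ X ∧ c i ∉ K) → (∀ i ∈ S, ∀ j ∈ S, a i ≠ c j) →
      ∃ g g', Au X g g' ∧ NearE K ε g g' ∧ ∀ i ∈ S, ‖g (a i) - c i‖ < ε := by
  classical
  induction S using Finset.induction_on with
  | empty =>
    intro K _ ε hε a c _ _ _ _ _
    exact ⟨fun x => x, fun x => x, Au.id, fun x _ => by simpa using hε, by simp⟩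
  | insert i0 S hi0 ih =>
    intro K hK ε hε a c ha hc haK hcK hac
    have hmem : i0 ∈ insert i0 S := Finset.mem_insert_self i0 S
    have hsub : ∀ {j}, j ∈ S → j ∈ insert i0 S := fun hj => Finset.mem_insert_of_mem hj
    obtain ⟨Kp, hKp, hKpd, a0, ha0, hroom⟩ := hK.room_nhd hX.closed
      (T := {a i0, c i0}) (by simp) (by
        rw [Set.disjoint_right]
        rintro x (rfl | rfl)
        · exact (haK i0 hmem).2
        · exact (hcK i0 hmem).2)
    have haKp : a i0 ∉ Kp := Set.disjoint_right.1 hKpd (Or.inl rfl)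
    have hcKp : c i0 ∉ Kp := Set.disjoint_right.1 hKpd (Or.inr rfl)
    -- the other points first
    obtain ⟨g2, g2', hg2, hg2N, hg2a⟩ := ih (insert (c i0) K) (hK.insert (hcK i0 hmem).1)
      (min (ε / 2) a0) (lt_min (half_pos hε) ha0) a c (ha.mono (by simp)) (hc.mono (by simp))
      (fun i hi => ⟨(haK i (hsub hi)).1, fun h => by
        rcases h with h | h
        · exact hac i (hsub hi) i0 hmem h
        · exact (haK i (hsub hi)).2 h⟩)
      (fun i hi => ⟨(hcK i (hsub hi)).1, fun h => by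
        rcases h with h | h
        · exact hi0 (hc (hsub hi) hmem h ▸ hi)
        · exact (hcK i (hsub hi)).2 h⟩)
      (fun i hi j hj => hac i (hsub hi) j (hsub hj))
    have haX : a '' S ⊆ X := by
      rintro _ ⟨i, hi, rfl⟩; exact (haK i (hsub hi)).1
    -- continuity of `g2`
    have hL0 : IsCompact (K ∪ a '' S) := hK.2.1.union (S.finite_toSet.image a).isCompact
    obtain ⟨C, hC, hlip⟩ := hX.mfd.lipschitz hg2.d (compact_nhd hX.closed hL0 1) inter_subset_left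
    have hcont : ∀ x ∈ K ∪ a '' S, ∀ y ∈ X, ‖y - x‖ ≤ 1 → ‖g2 y - g2 x‖ ≤ C * ‖y - x‖ := by
      intro x hx y hy hyx
      exact hlip y ⟨hy, mem_cthickening_of_dist_le _ x 1 _ hx (by rwa [dist_eq_norm])⟩ x
        ⟨union_subset hK.1 haX hx, self_subset_cthickening _ hx⟩
    set δ := min (min 1 (ε / 2)) (ε / (4 * C)) with hδ
    have hδ0 : 0 < δ := by positivity
    have hδ1 : δ ≤ 1 := (min_le_left _ _).trans (min_le_left _ _)
    have hδ2 : δ ≤ ε / 2 := (min_le_left _ _).trans (min_le_right _ _)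
    have hδ3 : C * δ ≤ ε / 4 := by
      have : δ ≤ ε / (4 * C) := min_le_right _ _
      rw [le_div_iff₀ (by positivity)] at this
      linarith
    -- the first point
    have hK'' : Cvx X (Kp ∪ a '' S) := cvx_union_finset hKp S fun i hi => (haK i (hsub hi)).1
    obtain ⟨K1, hK1, hKK1, -, -, hK1g⟩ := reach_one hX hn hconn hD hK'' (haK i0 hmem).1
      (fun h => by
        rcases h with h | ⟨j, hj, hji⟩
        · exact haKp h
        · exact hi0 (ha (hsub hj) hmem hji ▸ hj)) (hcK i0 hmem).1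
      (fun h => by
        rcases h with h | ⟨j, hj, hji⟩
        · exact hcKp h
        · exact hac j (hsub hj) i0 hmem hji)
    obtain ⟨g1, g1', hg1, hg1N, hg1a⟩ := hK1g δ hδ0
    have hK''1 : Kp ∪ a '' S ⊆ K1 := fun x hx => mem_of_mem_nhdsWithin (hK''.1 hx) (hKK1 x hx)
    have hKKp : K ⊆ Kp := fun x hx => hroom x hx x (hK.1 hx) (by simpa using ha0)
    refine ⟨fun x => g2 (g1 x), fun x => g1' (g2' x), hg2.comp hg1, fun x hx => ⟨?_, ?_⟩,
      fun i hi => ?_⟩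
    · have h1 := (hg1N x (hK''1 (Or.inl (hKKp hx)))).1
      have h2 := hcont x (Or.inl hx) (g1 x) (hg1.m x (hK.1 hx)) (h1.le.trans hδ1)
      have h3 := (hg2N x (mem_insert_of_mem _ hx)).1
      have h4 := min_le_left (ε / 2) a0
      calc ‖g2 (g1 x) - x‖ = ‖(g2 (g1 x) - g2 x) + (g2 x - x)‖ := by congr 1; abel
        _ ≤ ‖g2 (g1 x) - g2 x‖ + ‖g2 x - x‖ := norm_add_le _ _
        _ < ε := by nlinarith
    · have h1 := (hg2N x (mem_insert_of_mem _ hx)).2
      have h2 : g2' x ∈ Kp := hroom x hx _ (hg2.m' x (hK.1 hx)) (h1.trans_le (min_le_right _ _))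
      have h3 := (hg1N _ (hK''1 (Or.inl h2))).2
      have h4 := min_le_left (ε / 2) a0
      calc ‖g1' (g2' x) - x‖ = ‖(g1' (g2' x) - g2' x) + (g2' x - x)‖ := by congr 1; abel
        _ ≤ ‖g1' (g2' x) - g2' x‖ + ‖g2' x - x‖ := norm_add_le _ _
        _ < ε := by linarith
    · have h4 := min_le_left (ε / 2) a0
      rcases Finset.mem_insert.1 hi with rfl | hi
      · show ‖g2 (g1 (a i)) - c i‖ < ε
        rw [hg1a]
        have := (hg2N (c i) (mem_insert _ _)).1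
        linarith
      · have h1 := (hg1N (a i) (hK''1 (Or.inr ⟨i, hi, rfl⟩))).1
        have h2 := hcont (a i) (Or.inr ⟨i, hi, rfl⟩) (g1 (a i)) (hg1.m _ (haK i (hsub hi)).1)
          (h1.le.trans hδ1)
        have h3 := hg2a i hi
        calc ‖g2 (g1 (a i)) - c i‖ = ‖(g2 (g1 (a i)) - g2 (a i)) + (g2 (a i) - c i)‖ := by
              congr 1; abel
          _ ≤ ‖g2 (g1 (a i)) - g2 (a i)‖ + ‖g2 (a i) - c i‖ := norm_add_le _ _
          _ < ε := by nlinarith

theorem many_exact {n : ℕ} (hX : Submanifold X n) (hn : 2 ≤ n) (hconn : IsPreconnected X)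
    (hD : DensityProperty X) (S : Finset ℕ) {K : Set E} (hK : Cvx X K) {ε : ℝ} (hε : 0 < ε)
    {a c : ℕ → E} (ha : InjOn a S) (hc : InjOn c S) (haK : ∀ i ∈ S, a i ∈ X ∧ a i ∉ K)
    (hcK : ∀ i ∈ S, c i ∈ X ∧ c i ∉ K) (hac : ∀ i ∈ S, ∀ j ∈ S, a i ≠ c j) :
    ∃ g g', Au X g g' ∧ NearE K ε g g' ∧ ∀ i ∈ S, g (a i) = c i := by
  obtain ⟨Kp, hKp, hKpd, a0, ha0, hroom⟩ := hK.room_nhd hX.closed
    (T := a '' S ∪ c '' S) ((S.finite_toSet.image a).union (S.finite_toSet.image c)) (by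
      rw [Set.disjoint_right]
      rintro x (⟨i, hi, rfl⟩ | ⟨i, hi, rfl⟩)
      · exact (haK i hi).2
      · exact (hcK i hi).2)
  have haKp : ∀ i ∈ S, a i ∉ Kp := fun i hi => Set.disjoint_right.1 hKpd (Or.inl ⟨i, hi, rfl⟩)
  have hcKp : ∀ i ∈ S, c i ∉ Kp := fun i hi => Set.disjoint_right.1 hKpd (Or.inr ⟨i, hi, rfl⟩)
  have he : 0 < min (ε / 2) a0 := lt_min (half_pos hε) ha0
  obtain ⟨δ, hδ, hlt⟩ := lt_exact hX hD S (q := c) (fun i hi => (hcK i hi).1) hc hKp.2.1 hKp.1 he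
  obtain ⟨g, g', hg, hgN, hga⟩ := many_approx hX hn hconn hD S Kp hKp (min (min (ε / 2) a0) δ)
    (lt_min he hδ) a c ha hc (fun i hi => ⟨(haK i hi).1, haKp i hi⟩)
    (fun i hi => ⟨(hcK i hi).1, hcKp i hi⟩) hac
  obtain ⟨h, h', hh, hhN, hhc⟩ := hlt (fun i => g (a i))
    (fun i hi => ⟨hg.m _ (haK i hi).1, (hga i hi).trans_le (min_le_right _ _)⟩)
  refine ⟨fun x => h (g x), fun x => g' (h' x), hh.comp hg, ?_, hhc⟩
  refine (NearE.comp ha0 hK.1 hroom hh hg (e := min (ε / 2) a0) hhN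
    (hgN.mono subset_rfl (min_le_left _ _)) (min_le_right _ _)).mono subset_rfl ?_
  have := min_le_left (ε / 2) a0
  linarith

theorem exists_far {n : ℕ} (hX : Submanifold X n) (hn : 2 ≤ n) {x0 : E} (hx0 : x0 ∈ X) (R : ℝ) :
    ∃ c : ℕ → E, Function.Injective c ∧ ∀ i, c i ∈ X ∧ R < ‖c i‖ := by
  have hub : ∀ R : ℝ, ∃ x ∈ X, R < ‖x‖ := by
    intro R
    by_contra hcon
    push Not at hcon
    have hc : IsCompact X := (isCompact_closedBall (0 : E) R).of_isClosed_subset hX.closed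
      fun x hx => by simpa using hcon x hx
    obtain ⟨q, hq, hmax⟩ := hc.exists_isMaxOn ⟨x0, hx0⟩ continuous_norm.continuousOn
    apply hX.mfd.no_localMax hq (by rw [(hX.retr hq).2]; exact hn)
    filter_upwards [self_mem_nhdsWithin] with y hy
    exact hmax hy
  choose u hu1 hu2 using hub
  let c : ℕ → E := fun k => Nat.rec (u R) (fun _ x => u ‖x‖) k
  have hc1 : ∀ k, c (k + 1) = u ‖c k‖ := fun k => rfl
  have hcX : ∀ k, c k ∈ X := by
    intro k
    cases k with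
    | zero => exact hu1 R
    | succ k => rw [hc1]; exact hu1 _
  have hmono : StrictMono fun k => ‖c k‖ := strictMono_nat_of_lt_succ fun k => by
    show ‖c k‖ < ‖c (k + 1)‖
    rw [hc1]; exact hu2 _
  refine ⟨c, fun i j hij => hmono.injective (congrArg norm hij), fun i => ⟨hcX i, ?_⟩⟩
  exact (hu2 R).trans_le (hmono.monotone (Nat.zero_le i))

theorem many_reach {n : ℕ} (hX : Submanifold X n) (hn : 2 ≤ n) (hconn : IsPreconnected X)
    (hD : DensityProperty X) (S : Finset ℕ) {K : Set E} (hK : Cvx X K) {ε : ℝ} (hε : 0 < ε)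
    {a b : ℕ → E} (ha : InjOn a S) (hb : InjOn b S) (haK : ∀ i ∈ S, a i ∈ X ∧ a i ∉ K)
    (hbK : ∀ i ∈ S, b i ∈ X ∧ b i ∉ K) :
    ∃ g g', Au X g g' ∧ NearE K ε g g' ∧ ∀ i ∈ S, g (a i) = b i := by
  rcases S.eq_empty_or_nonempty with rfl | ⟨i0, hi0⟩
  · exact ⟨fun x => x, fun x => x, Au.id, fun x _ => by simpa using hε, by simp⟩
  obtain ⟨Kp, hKp, hKpd, a0, ha0, hroom⟩ := hK.room_nhd hX.closed
    (T := a '' S ∪ b '' S) ((S.finite_toSet.image a).union (S.finite_toSet.image b)) (by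
      rw [Set.disjoint_right]
      rintro x (⟨i, hi, rfl⟩ | ⟨i, hi, rfl⟩)
      · exact (haK i hi).2
      · exact (hbK i hi).2)
  have haKp : ∀ i ∈ S, a i ∉ Kp := fun i hi => Set.disjoint_right.1 hKpd (Or.inl ⟨i, hi, rfl⟩)
  have hbKp : ∀ i ∈ S, b i ∉ Kp := fun i hi => Set.disjoint_right.1 hKpd (Or.inr ⟨i, hi, rfl⟩)
  obtain ⟨R, hR⟩ := (hKp.2.1.union ((S.finite_toSet.image a).union
    (S.finite_toSet.image b)).isCompact).isBounded.subset_closedBall 0
  obtain ⟨c, hc, hcX⟩ := exists_far hX hn (haK i0 hi0).1 R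
  have hcR : ∀ i, c i ∉ Kp ∪ (a '' S ∪ b '' S) := fun i h => by
    have := hR h
    rw [mem_closedBall, dist_zero_right] at this
    exact absurd (hcX i).2 (not_lt.2 this)
  have hcKp : ∀ i ∈ S, c i ∈ X ∧ c i ∉ Kp := fun i _ => ⟨(hcX i).1, fun h => hcR i (Or.inl h)⟩
  have hac : ∀ i ∈ S, ∀ j ∈ S, a i ≠ c j := fun i hi j _ h =>
    hcR j (Or.inr (Or.inl ⟨i, hi, h⟩))
  have hcb : ∀ i ∈ S, ∀ j ∈ S, c i ≠ b j := fun i _ j hj h =>
    hcR i (Or.inr (Or.inr ⟨j, hj, h.symm⟩))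
  have he : 0 < min (ε / 2) a0 := lt_min (half_pos hε) ha0
  obtain ⟨g, g', hg, hgN, hgc⟩ := many_exact hX hn hconn hD S hKp he ha hc.injOn
    (fun i hi => ⟨(haK i hi).1, haKp i hi⟩) hcKp hac
  obtain ⟨h, h', hh, hhN, hhb⟩ := many_exact hX hn hconn hD S hKp he hc.injOn hb
    hcKp (fun i hi => ⟨(hbK i hi).1, hbKp i hi⟩) hcb
  refine ⟨fun x => h (g x), fun x => g' (h' x), hh.comp hg, ?_, fun i hi => by
    show h (g (a i)) = b i
    rw [hgc i hi, hhb i hi]⟩
  refine (NearE.comp ha0 hK.1 hroom hh hg hhN hgN (min_le_right _ _)).mono subset_rfl ?_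
  have := min_le_left (ε / 2) a0
  linarith

end H67.Tame
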