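import Mathlib
import Pool.Agent.H67.Tame.Abs4
import Pool.Agent.H67.Tame.Tuple

/-! The main theorem: on a connected Stein manifold of dimension at least two with the density
property, every weakly tame set is tame. -/

namespace H67.Tame

open Set Filter Topology Metric

variable {E : Type*} [NormedAddCommGroup E] [InnerProductSpace ℂ E] [FiniteDimensional ℂ E]
variable {X : Set E}

/-- The homeomorphism of `X` given by a pair of inverse holomorphic maps. -/
def Au.homeo {g g' : E → E} (h : Au X g g') : X ≃ₜ X where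
  toFun x := ⟨g x, h.m x x.2⟩
  invFun x := ⟨g' x, h.m' x x.2⟩
  left_inv x := Subtype.ext (h.l x x.2)
  right_inv x := Subtype.ext (h.r x x.2)
  continuous_toFun := Continuous.subtype_mk h.d.continuousOn.domRestrict _
  continuous_invFun := Continuous.subtype_mk h.d'.continuousOn.domRestrict _

theorem Au.homeo_mem {g g' : E → E} (h : Au X g g') : h.homeo ∈ Aut X :=
  ⟨⟨g, h.d, fun _ => rfl⟩, ⟨g', h.d', fun _ => rfl⟩⟩

theorem aut_pair {g : X ≃ₜ X} (hg : g ∈ Aut X) : ∃ F F' : E → E, Au X F F' ∧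
    (∀ x : X, F x = g x) ∧ ∀ x : X, F' x = g.symm x := by
  obtain ⟨⟨F, hF, hF1⟩, ⟨F', hF', hF1'⟩⟩ := hg
  refine ⟨F, F', ⟨hF, hF', fun x hx => ?_, fun x hx => ?_, fun x hx => ?_, fun x hx => ?_⟩,
    hF1, hF1'⟩
  · have := hF1 ⟨x, hx⟩
    rw [this]; exact (g ⟨x, hx⟩).2
  · have := hF1' ⟨x, hx⟩
    rw [this]; exact (g.symm ⟨x, hx⟩).2
  · have h1 := hF1 ⟨x, hx⟩
    simp only at h1
    rw [h1, hF1', Homeomorph.symm_apply_apply]
  · have h1 := hF1' ⟨x, hx⟩
    simp only at h1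
    rw [h1, hF1, Homeomorph.apply_symm_apply]

theorem hol_limit (hX : Mfd X) {g : ℕ → X → X} {A : X → X} (hg : ∀ n, Hol X (g n))
    (h : ∀ K, IsCompact K → TendstoUniformlyOn g A atTop K) : Hol X A := by
  classical
  choose F hF hFg using hg
  let G : E → E := fun x => if hx : x ∈ X then A ⟨x, hx⟩ else 0
  have hG : ∀ x : X, G x = A x := fun x => by simp [G]
  refine ⟨G, ?_, hG⟩
  refine hX.limit hF fun K hKX hK => ?_
  have hK' : IsCompact (((↑) : X → E) ⁻¹' K) :=
    hX.closed.isClosedEmbedding_subtypeVal.isCompact_preimage hK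
  have h1 := h _ hK'
  rw [Metric.tendstoUniformlyOn_iff] at h1 ⊢
  intro ε hε
  filter_upwards [h1 ε hε] with n hn x hx
  have h2 := hn ⟨x, hKX hx⟩ hx
  have h3 := hG ⟨x, hKX hx⟩
  have h4 := hFg n ⟨x, hKX hx⟩
  simp only at h3 h4
  rw [h3, h4]
  exact h2

theorem trans_aut {n : ℕ} (hX : Submanifold X n) (hn : 2 ≤ n) (hconn : IsPreconnected X)
    (hD : DensityProperty X) :
    Trans (Aut X) {K : Set X | Cvx X (((↑) : X → E) '' K)} := by
  have hcl := hX.closed
  have himg : ∀ K : Set E, K ⊆ X → ((↑) : X → E) '' (((↑) : X → E) ⁻¹' K) = K := by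
    intro K hK
    rw [Subtype.image_preimage_coe, inter_eq_self_of_subset_right hK]
  refine ⟨?_, ?_, ?_, ?_, ?_, ?_, ?_, ?_, ?_⟩
  · intro K hK
    exact Subtype.isCompact_iff.2 hK.2.1
  · show Cvx X (((↑) : X → E) '' ∅)
    rw [image_empty]; exact cvx_empty
  · intro C hC
    obtain ⟨K, hK, hCK⟩ := cvx_cofinal hcl (Subtype.isCompact_iff.1 hC) (by
      rintro _ ⟨x, -, rfl⟩; exact x.2)
    refine ⟨((↑) : X → E) ⁻¹' K, ?_, fun x hx => hCK ⟨x, hx, rfl⟩⟩
    show Cvx X _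
    rwa [himg K hK.1]
  · intro K hK U hU hKU
    obtain ⟨U', hU', rfl⟩ := isOpen_induced_iff.1 hU
    obtain ⟨K', hK', h1, h2⟩ := Cvx.nhd hcl hK hU' (by
      rintro _ ⟨x, hx, rfl⟩; exact hKU hx)
    refine ⟨((↑) : X → E) ⁻¹' K', ?_, fun x hx => ?_, fun x hx => h2 hx⟩
    · show Cvx X _
      rwa [himg K' hK'.1]
    · rw [mem_interior_iff_mem_nhds]
      exact mem_nhds_subtype_iff_nhdsWithin.2 (by
        rw [himg K' hK'.1]; exact h1 x ⟨x, hx, rfl⟩)
  · intro g hg K hK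
    obtain ⟨F, F', hF, hF1, hF1'⟩ := aut_pair hg
    have h1 := Cvx.image hK hF.d hF.d' hF.m hF.m' hF.l hF.r
    show Cvx X _
    have h2 : ((↑) : X → E) '' (g '' K) = F '' (((↑) : X → E) '' K) := by
      rw [image_image, image_image]
      exact image_congr fun x _ => (hF1 x).symm
    rwa [h2]
  · intro K hK x
    show Cvx X _
    rw [image_insert_eq]
    exact Cvx.insert hK x.2
  · intro K hK ε hε S a b ha hb hab
    obtain ⟨g, g', hg, hgN, hgab⟩ := many_reach hX hn hconn hD S hK hε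
      (a := fun i => (a i : E)) (b := fun i => (b i : E))
      (fun i hi j hj h => ha hi hj (Subtype.ext h)) (fun i hi j hj h => hb hi hj (Subtype.ext h))
      (fun i hi => ⟨(a i).2, fun ⟨x, hx, hxa⟩ => (hab i hi).1 (Subtype.ext hxa ▸ hx)⟩)
      (fun i hi => ⟨(b i).2, fun ⟨x, hx, hxa⟩ => (hab i hi).2 (Subtype.ext hxa ▸ hx)⟩)
    refine ⟨hg.homeo, hg.homeo_mem, fun x hx => ?_, fun i hi => Subtype.ext (hgab i hi)⟩
    have := hgN x ⟨x, hx, rfl⟩
    rw [← dist_eq_norm, ← dist_eq_norm] at this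
    exact this
  · intro K hK ε hε S q hq
    obtain ⟨δ, hδ, h⟩ := lt_exact hX hD S (q := fun i => (q i : E)) (fun i _ => (q i).2)
      (fun i hi j hj h => hq hi hj (Subtype.ext h)) (Subtype.isCompact_iff.1 hK)
      (by rintro _ ⟨x, -, rfl⟩; exact x.2) hε
    refine ⟨δ, hδ, fun r hr => ?_⟩
    obtain ⟨g, g', hg, hgN, hgr⟩ := h (fun i => (r i : E)) (fun i hi => ⟨(r i).2, by
      rw [← dist_eq_norm]; exact hr i hi⟩)
    refine ⟨hg.homeo, hg.homeo_mem, fun x hx => ?_, fun i hi => Subtype.ext (hgr i hi)⟩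
    have := hgN x ⟨x, hx, rfl⟩
    rw [← dist_eq_norm, ← dist_eq_norm] at this
    exact this
  · intro g A hg h h'
    exact ⟨hol_limit hX.mfd (fun n => (hg n).1) h, hol_limit hX.mfd (fun n => (hg n).2) h'⟩

theorem main {n : ℕ} (hX : Submanifold X n) (hn : 2 ≤ n) (hconn : IsPreconnected X)
    (hD : DensityProperty X) {D : Set X} (h : WeaklyTame (Aut X) D) : Tame (Aut X) D := by
  have : ProperSpace X := ProperSpace.of_isClosed hX.closed
  exact tame_of_weaklyTame (trans_aut hX hn hconn hD) h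

end H67.Tame
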