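import Mathlib
import Pool.Agent.H67.Tame.Abs5
import Pool.Agent.H67.Tame.Main

/-!
The main theorem for the notions of `Notions.lean`.
-/

namespace H67.Tame.Stmt

open Set Filter Topology Metric


variable {E : Type*} [NormedAddCommGroup E] [InnerProductSpace ℂ E] [FiniteDimensional ℂ E]
variable {F : Type*} [NormedAddCommGroup F] [NormedSpace ℂ F]
variable {X : Set E}

/-- Extension by zero. -/
noncomputable def ext (f : X → F) : E → F := by
  classical
  exact fun x => if h : x ∈ X then f ⟨x, h⟩ else 0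

theorem ext_apply (f : X → F) (x : X) : ext f x = f x := by
  simp [ext]

theorem Holo.diffOn {f : X → F} (h : Holo f) {f' : E → F} (hf : ∀ x : X, f' x = f x) :
    DifferentiableOn ℂ f' X := by
  intro x hx
  obtain ⟨U, g, hU, hxU, hg, hfg⟩ := h ⟨x, hx⟩
  exact differentiableWithinAt_of_eqOn hU hxU hx (hg.differentiableAt (hU.mem_nhds hxU))
    fun y hy hyU => (hf ⟨y, hy⟩).trans (hfg ⟨y, hy⟩ hyU)

theorem holo_of_diffOn (hX : Mfd X) {f : X → F} {f' : E → F} (h : DifferentiableOn ℂ f' X)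
    (hf : ∀ x : X, f' x = f x) : Holo f := by
  intro x
  obtain ⟨ρ, U, hxU, hρ⟩ := hX.retr x x.2
  refine ⟨U, fun y => f' (ρ y), hρ.op, hxU, hρ.comp_diff h, fun y hyU => ?_⟩
  simp only [hρ.fix y y.2 hyU]
  exact (hf y).symm

theorem IsField.isVF {V : X → E} (h : IsField V) {V' : E → E} (hV : ∀ x : X, V' x = V x) :
    IsVF X V' :=
  ⟨h.1.diffOn hV, fun x hx => by
    have := h.2 ⟨x, hx⟩
    rwa [← hV ⟨x, hx⟩] at this⟩

theorem isField_of_isVF (hX : Mfd X) {V : E → E} (h : IsVF X V) : IsField (fun x : X => V x) :=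
  ⟨holo_of_diffOn hX h.1 fun _ => rfl, fun x => h.2 x x.2⟩

/-- Fields which come from the internal Lie algebra. -/
def Rep (V : X → E) : Prop := ∃ V' : E → E, LieGen X V' ∧ ∀ x : X, V' x = V x

theorem Rep.gen {V : X → E} (h : IsField V) (hc : RealComplete V) : Rep V := by
  refine ⟨ext V, LieGen.complete _ (h.isVF (ext_apply V)) ?_, ext_apply V⟩
  intro x hx
  obtain ⟨γ, h0, h1⟩ := hc ⟨x, hx⟩
  refine ⟨fun s => (γ s : E), by simp [h0], fun t => (γ t).2, fun t => ?_⟩
  rw [ext_apply]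
  exact h1 t

theorem Rep.add {V W : X → E} (hV : Rep V) (hW : Rep W) : Rep (V + W) := by
  obtain ⟨V', hV', h1⟩ := hV
  obtain ⟨W', hW', h2⟩ := hW
  exact ⟨V' + W', LieGen.add _ _ hV' hW', fun x => by simp [h1, h2]⟩

theorem Rep.smul {V : X → E} (hV : Rep V) (c : ℝ) : Rep (c • V) := by
  obtain ⟨V', hV', h1⟩ := hV
  exact ⟨c • V', LieGen.smul _ _ hV', fun x => by simp [h1]⟩

theorem fderivWithin_ext (hX : Mfd X) {W : X → E} {W' : E → E} (h : ∀ x : X, W' x = W x) {x : X}
    {U : Set E} {W'' : E → E} (hU : IsOpen U) (hx : (x : E) ∈ U) (hd : DifferentiableOn ℂ W'' U)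
    (he : ∀ y : X, (y : E) ∈ U → W y = W'' y) {v : E} (hv : v ∈ tang X x) :
    fderivWithin ℂ W' X x v = fderiv ℂ W'' x v := by
  refine hX.fderivWithin_eq x.2 ?_ hv
  have h1 : HasFDerivWithinAt W'' (fderiv ℂ W'' x) X x :=
    (hd.differentiableAt (hU.mem_nhds hx)).hasFDerivAt.hasFDerivWithinAt
  refine h1.congr_of_eventuallyEq ?_ ((h x).trans (he x hx))
  filter_upwards [self_mem_nhdsWithin, mem_nhdsWithin_of_mem_nhds (hU.mem_nhds hx)] with y h2 h3
  exact (h ⟨y, h2⟩).trans (he ⟨y, h2⟩ h3)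

theorem Rep.bracket (hX : Mfd X) {V W Z : X → E} (c : ℂ) (hV : Rep (c • V)) (hW : Rep W)
    (hVt : ∀ x : X, V x ∈ tang X x) (hZ : IsBracket V W Z) : Rep (c • Z) := by
  obtain ⟨V', hV', h1⟩ := hV
  obtain ⟨W', hW', h2⟩ := hW
  refine ⟨_, LieGen.bracket _ _ hV' hW', fun x => ?_⟩
  obtain ⟨U, V'', W'', hU, hxU, hdV, hdW, he, hZx⟩ := hZ x
  rw [bracket_apply]
  have hWt : W x ∈ tang X x := by
    rw [← h2 x]; exact (hW'.cl hX).isVF.2 x x.2
  have h3 : fderivWithin ℂ W' X x (V' x) = fderiv ℂ W'' x (V' x) :=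
    fderivWithin_ext hX h2 hU hxU hdW (fun y hy => (he y hy).2) (by
      rw [h1 x]; exact (tang X x).smul_mem c (hVt x))
  have h4 : fderivWithin ℂ V' X x (W' x) = fderiv ℂ (c • V'') x (W' x) :=
    fderivWithin_ext hX h1 hU hxU (hdV.const_smul c) (fun y hy => by
      simp only [Pi.smul_apply, (he y hy).1]) (by rw [h2 x]; exact hWt)
  have h5 : fderiv ℂ (c • V'') x = c • fderiv ℂ V'' x :=
    fderiv_const_smul (hdV.differentiableAt (hU.mem_nhds hxU)) c
  rw [h3, h4, h5, h1 x, h2 x]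
  simp only [Pi.smul_apply, map_smul, ContinuousLinearMap.smul_apply, hZx, smul_sub]

theorem Rep.tang (hX : Mfd X) {V : X → E} (h : Rep V) (x : X) : V x ∈ tang X x := by
  obtain ⟨V', hV', h1⟩ := h
  rw [← h1 x]
  exact (hV'.cl hX).isVF.2 x x.2

theorem rep_of_real (hX : Mfd X) {V : X → E} (h : LieAlg ℝ RealComplete V) : Rep V := by
  induction h with
  | gen V hV hc => exact Rep.gen hV hc
  | add V W _ _ ihV ihW => exact ihV.add ihW
  | smul c V _ ih => exact ih.smul c
  | bracket V W Z _ _ hZ ihV ihW =>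
    have h1 := Rep.bracket hX (1 : ℂ) (by rwa [one_smul]) ihW (fun x => ihV.tang hX x) hZ
    rwa [one_smul] at h1

theorem IsField.smul {V : X → E} (h : IsField V) (c : ℂ) : IsField (c • V) := by
  refine ⟨fun x => ?_, fun x => (H67.Tame.tang X x).smul_mem c (h.2 x)⟩
  obtain ⟨U, g, hU, hx, hg, hfg⟩ := h.1 x
  exact ⟨U, c • g, hU, hx, hg.const_smul c, fun y hy => by
    rw [Pi.smul_apply, Pi.smul_apply, hfg y hy]⟩

theorem ComplexComplete.real {V : X → E} (h : ComplexComplete V) (c : ℂ) :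
    RealComplete (c • V) := by
  intro x
  obtain ⟨γ, h0, h1⟩ := h x
  refine ⟨fun t => γ (c * (t : ℂ)), by simp [h0], fun t => ?_⟩
  have h2 : HasDerivAt (fun t : ℝ => c * (t : ℂ)) c t := by
    simpa using (Complex.ofRealCLM.hasDerivAt (x := t)).const_mul c
  exact HasDerivAt.scomp t (h1 (c * (t : ℂ))) h2

theorem rep_of_complex (hX : Mfd X) {V : X → E} (h : LieAlg ℂ ComplexComplete V) :
    ∀ c : ℂ, Rep (c • V) := by
  induction h with
  | gen V hV hc => exact fun c => Rep.gen (hV.smul c) (hc.real c)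
  | add V W _ _ ihV ihW =>
    intro c
    rw [smul_add]
    exact (ihV c).add (ihW c)
  | smul d V _ ih =>
    intro c
    rw [smul_smul]
    exact ih (c * d)
  | bracket V W Z _ _ hZ ihV ihW =>
    intro c
    have h1 := ihV 1
    have h2 := ihW 1
    rw [one_smul] at h1 h2
    exact Rep.bracket hX c (ihV c) h2 (fun x => h1.tang hX x) hZ

theorem density_of_rep (hX : Mfd X) {L : (X → E) → Prop} (hL : ∀ V, L V → Rep V)
    (h : IsDense L) : DensityProperty X := by
  intro V hV K hKX hK ε hε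
  have hK' : IsCompact (((↑) : X → E) ⁻¹' K) :=
    hX.closed.isClosedEmbedding_subtypeVal.isCompact_preimage hK
  obtain ⟨W, hW, h1⟩ := h _ (isField_of_isVF hX hV) _ hK' ε hε
  obtain ⟨W', hW', h2⟩ := hL W hW
  refine ⟨W', hW', fun x hx => ?_⟩
  have h3 := h2 ⟨x, hKX hx⟩
  simp only at h3
  rw [h3]
  exact h1 ⟨x, hKX hx⟩ hx

theorem density (hX : Mfd X) (h : DensityC X ∨ DensityR X) : DensityProperty X := by
  rcases h with h | h
  · exact density_of_rep hX (fun V hV => by
      have := rep_of_complex hX hV 1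
      rwa [one_smul] at this) h
  · exact density_of_rep hX (fun V hV => rep_of_real hX hV) h

theorem Holo.continuous {f : X → F} (h : Holo f) : Continuous f := by
  have h1 := (h.diffOn (ext_apply f)).continuousOn.domRestrict
  have h2 : X.domRestrict (ext f) = f := funext fun x => ext_apply f x
  rwa [h2] at h1

/-- The homeomorphism underlying an automorphism. -/
def IsAut.homeo {Φ : X ≃ X} (h : IsAut Φ) : X ≃ₜ X where
  toEquiv := Φ
  continuous_toFun := continuous_induced_rng.2 h.1.continuous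
  continuous_invFun := continuous_induced_rng.2 h.2.continuous

theorem IsAut.mem {Φ : X ≃ X} (h : IsAut Φ) : h.homeo ∈ Aut X :=
  ⟨⟨ext fun x => (Φ x : E), h.1.diffOn (ext_apply _), ext_apply _⟩,
    ⟨ext fun x => (Φ.symm x : E), h.2.diffOn (ext_apply _), ext_apply _⟩⟩

theorem isAut_of_mem (hX : Mfd X) {g : X ≃ₜ X} (h : g ∈ Aut X) : IsAut g.toEquiv := by
  obtain ⟨⟨G, hG, hG1⟩, ⟨G', hG', hG1'⟩⟩ := h
  exact ⟨holo_of_diffOn hX hG hG1, holo_of_diffOn hX hG' hG1'⟩

theorem WeaklyTame.int {D : Set X} (h : WeaklyTame D) : H67.Tame.WeaklyTame (Aut X) D := by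
  refine ⟨h.1, h.2.1, fun ρ hρ ζ => ?_⟩
  obtain ⟨Φ, hΦ, h1⟩ := h.2.2 ρ hρ ζ
  exact ⟨hΦ.homeo, hΦ.mem, h1⟩

theorem tame_of_int (hX : Mfd X) {A : Set X} (h : H67.Tame.Tame (Aut X) A) : Tame A := by
  refine ⟨h.1, h.2.1, h.2.2.1, fun f hf => ?_⟩
  obtain ⟨F, hF, h1⟩ := h.2.2.2 f hf
  exact ⟨F.toEquiv, isAut_of_mem hX hF, h1⟩

/-- Tame sets are weakly tame. -/
theorem Tame.weaklyTame {D : Set X} (h : Tame D) : WeaklyTame D := by
  classical
  obtain ⟨hinf, hdis, hcl, hext⟩ := h
  refine ⟨hinf, hdis, fun ρ hρ ζ => ?_⟩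
  have hdt : DiscreteTopology D := hdis.to_subtype
  have hsc : SecondCountableTopology D := inferInstance
  have hcount : Countable D := TopologicalSpace.separableSpace_iff_countable.1 inferInstance
  have : Infinite D := hinf.to_subtype
  obtain ⟨hden⟩ := nonempty_denumerable D
  let e : ℕ ≃ D := (Denumerable.eqv D).symm
  have hfin : ∀ c : ℝ, ∃ M : ℕ, ∀ m ≥ M, c ≤ ρ (e m) := by
    intro c
    have h1 : (D ∩ closure {x | ρ x < c}).Finite :=
      ((hρ.2 c).inter_left hcl).finite (hdis.mono inter_subset_left)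
    have h2 : {m : ℕ | ρ (e m) < c}.Finite := by
      refine (h1.preimage (f := fun m : ℕ => (e m : X)) ?_).subset ?_
      · exact fun a _ b _ hab => e.injective (Subtype.ext hab)
      · intro m hm
        exact ⟨(e m).2, subset_closure hm⟩
    obtain ⟨M, hM⟩ := h2.bddAbove
    refine ⟨M + 1, fun m hm => ?_⟩
    by_contra hlt
    have := hM (show m ∈ {m : ℕ | ρ (e m) < c} from not_le.1 hlt)
    omega
  choose M hM using fun n : ℕ => hfin (ζ (e n))
  let i : ℕ → ℕ := fun n => n + ∑ k ∈ Finset.range (n + 1), M k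
  have hi : StrictMono i := by
    refine strictMono_nat_of_lt_succ fun n => ?_
    simp only [i]
    rw [Finset.sum_range_succ _ (n + 1)]
    omega
  have hiM : ∀ n, M n ≤ i n := by
    intro n
    have := Finset.single_le_sum (f := M) (fun k _ => Nat.zero_le (M k))
      (Finset.mem_range.2 (Nat.lt_succ_self n) : n ∈ Finset.range (n + 1))
    simp only [i]
    omega
  obtain ⟨Φ, hΦ, h1⟩ := hext (fun x => e (i (e.symm x)))
    (fun a b hab => e.symm.injective (hi.injective (e.injective hab)))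
  refine ⟨Φ, hΦ, fun x => ?_⟩
  rw [h1 x]
  have h2 := hM (e.symm x) (i (e.symm x)) (hiM _)
  rwa [Equiv.apply_symm_apply] at h2

/-- Main theorem: on a connected closed complex submanifold of dimension at least two of a complex
Euclidean space, with the density property, weakly tame sets are tame. -/
theorem weaklyTame_tame {n : ℕ} (hn : 2 ≤ n) (hX : Submanifold X n) (hc : IsConnected X)
    (hD : DensityC X ∨ DensityR X) {D : Set X} (h : WeaklyTame D) : Tame D :=
  tame_of_int hX.mfd (main hX hn hc.isPreconnected (density hX.mfd hD) h.int)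

/-- Moreover every bijection between two weakly tame sets extends to an automorphism. -/
theorem weaklyTame_extend {n : ℕ} (hn : 2 ≤ n) (hX : Submanifold X n) (hc : IsConnected X)
    (hD : DensityC X ∨ DensityR X) {D D' : Set X} (h : WeaklyTame D) (h' : WeaklyTame D')
    (f : D ≃ D') : ∃ Φ : X ≃ X, IsAut Φ ∧ ∀ x : D, Φ x = f x := by
  have : ProperSpace X := ProperSpace.of_isClosed hX.closed
  obtain ⟨F, hF, h1⟩ := extend_of_weaklyTame
    (trans_aut hX hn hc.isPreconnected (density hX.mfd hD)) h.int h'.int f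
  exact ⟨F.toEquiv, isAut_of_mem hX.mfd hF, h1⟩

end H67.Tame.Stmt
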